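import Pool.Agent.K9h8.Kum.Eul

/-!
# The Euler product of a covering of `ℓ`-power type modulo `ℓ`
-/

set_option autoImplicit false

namespace Pool.Agent.K9h8.Kum

open PowerSeries Function

/-- `π : A → B` is equivariant, all fibres over periodic points have `c` elements, and the period of a point over
a point of period `d` is `d ℓ ^ e`, `e ≤ n`. -/
structure IsCov {S T : Type*} (F : S → S) (G : T → T) (A : Set S) (B : Set T) (π : S → T) (ℓ n c : ℕ) :
    Prop where
  niceA : Nice F A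
  niceB : Nice G B
  maps : ∀ x, x ∈ A → π x ∈ B
  comm : ∀ x, x ∈ A → π (F x) = G (π x)
  fib : ∀ y, y ∈ B → {x | x ∈ A ∧ π x = y}.ncard = c
  period : ∀ x, x ∈ A → ∀ d, 1 ≤ d → minimalPeriod G (π x) = d →
    ∃ e, e ≤ n ∧ minimalPeriod F x = d * ℓ ^ e

variable {S T : Type*} {F : S → S} {G : T → T} {A : Set S} {B : Set T} {π : S → T} {ℓ n c : ℕ}

namespace IsCov

/-- The part over the points of period `d`. -/
def part (_ : IsCov F G A B π ℓ n c) (d : ℕ) : Set S := {x | x ∈ A ∧ minimalPeriod G (π x) = d}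

theorem iter (h : IsCov F G A B π ℓ n c) {x : S} (hx : x ∈ A) (k : ℕ) :
    π (F^[k] x) = G^[k] (π x) := by
  induction k with
  | zero => rfl
  | succ k ih =>
    rw [Function.iterate_succ_apply', Function.iterate_succ_apply', h.comm _ (h.niceA.iter hx k), ih]

theorem nice_part (h : IsCov F G A B π ℓ n c) {d : ℕ} (hd : 1 ≤ d) : Nice F (h.part d) := by
  refine ⟨?_, ?_⟩
  · rintro x ⟨hx, h1⟩
    refine ⟨h.niceA.stab _ hx, ?_⟩
    rw [h.comm x hx]
    exact minimalPeriod_iter hd h1 1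
  · intro n hn
    refine (h.niceA.fin n hn).subset ?_
    rintro x ⟨⟨hx, -⟩, h2⟩
    exact ⟨hx, h2⟩

theorem nOrb_eq_sum (h : IsCov F G A B π ℓ n c) {D M : ℕ} (hD : 1 ≤ D) (hM : D ≤ M) :
    nOrb F A D = ∑ d ∈ Finset.Icc 1 M, nOrb F (h.part d) D := by
  classical
  have hfin := h.niceA.per_fin hD
  obtain ⟨s, hs⟩ : ∃ s : Finset S, (s : Set S) = per F A D := ⟨hfin.toFinset, by simp⟩
  have h1 : D * nOrb F A D = D * ∑ d ∈ Finset.Icc 1 M, nOrb F (h.part d) D := by
    rw [← h.niceA.ncard_per hD, Finset.mul_sum, ← hs, Set.ncard_coe_finset]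
    rw [Finset.card_eq_sum_card_fiberwise (f := fun x => minimalPeriod G (π x)) (t := Finset.Icc 1 M)]
    · refine Finset.sum_congr rfl fun d hd => ?_
      have hd1 := (Finset.mem_Icc.1 hd).1
      rw [← (h.nice_part hd1).ncard_per hD, ← Set.ncard_coe_finset]
      congr 1
      ext x
      rw [Finset.mem_coe, Finset.mem_filter]
      have hx : x ∈ s ↔ x ∈ A ∧ minimalPeriod F x = D := by
        rw [← Finset.mem_coe, hs]
        rfl
      rw [hx]
      constructor
      · rintro ⟨⟨h1, h2⟩, h3⟩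
        exact ⟨⟨h1, h3⟩, h2⟩
      · rintro ⟨⟨h1, h3⟩, h2⟩
        exact ⟨⟨h1, h2⟩, h3⟩
    · intro x hx
      have hx' : x ∈ per F A D := by rw [← hs]; exact hx
      have h2 : IsPeriodicPt G D (π x) := by
        have h3 := Function.isPeriodicPt_minimalPeriod F x
        rw [hx'.2] at h3
        have h4 : F^[D] x = x := h3
        have h5 := h.iter hx'.1 D
        rw [h4] at h5
        exact h5.symm
      have h6 := h2.minimalPeriod_dvd
      have h7 := h2.minimalPeriod_pos hD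
      have h8 := Nat.le_of_dvd hD h6
      exact Finset.mem_coe.2 (Finset.mem_Icc.2 ⟨h7, h8.trans hM⟩)
  exact Nat.eq_of_mul_eq_mul_left hD h1

theorem nOrb_part_zero (h : IsCov F G A B π ℓ n c) {d D : ℕ} (hd : 1 ≤ d)
    (hne : ∀ e, e ≤ n → D ≠ d * ℓ ^ e) : nOrb F (h.part d) D = 0 := by
  unfold nOrb
  have h0 : {O : Set S | ∃ x, x ∈ h.part d ∧ minimalPeriod F x = D ∧ O = orb F x} = ∅ := by
    rw [Set.eq_empty_iff_forall_notMem]
    rintro O ⟨x, ⟨hx, h1⟩, h2, -⟩
    obtain ⟨e, he, h3⟩ := h.period x hx d hd h1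
    exact hne e he (by rw [← h3, h2])
  rw [h0, Set.ncard_empty]

theorem sum_part (h : IsCov F G A B π ℓ n c) (hℓ : 2 ≤ ℓ) {d : ℕ} (hd : 1 ≤ d) :
    ∑ e ∈ Finset.range (n + 1), ℓ ^ e * nOrb F (h.part d) (d * ℓ ^ e) = c * nOrb G B d := by
  classical
  have hpos : ∀ e, 1 ≤ d * ℓ ^ e := fun e => Nat.mul_pos hd (pow_pos (by omega) e)
  have hN := h.nice_part hd
  have hfin : (h.part d).Finite := by
    refine (h.niceA.fin (d * ℓ ^ n) (hpos n)).subset ?_
    rintro x ⟨hx, h1⟩
    refine ⟨hx, ?_⟩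
    obtain ⟨e, he, h3⟩ := h.period x hx d hd h1
    have h4 : IsPeriodicPt F (d * ℓ ^ n) x := by
      rw [Function.isPeriodicPt_iff_minimalPeriod_dvd, h3]
      exact Nat.mul_dvd_mul_left d (pow_dvd_pow ℓ he)
    exact h4
  obtain ⟨s, hs⟩ : ∃ s : Finset S, (s : Set S) = h.part d := ⟨hfin.toFinset, by simp⟩
  obtain ⟨t, ht⟩ : ∃ t : Finset T, (t : Set T) = per G B d :=
    ⟨(h.niceB.per_fin hd).toFinset, by simp⟩
  have hinj : Set.InjOn (fun e => d * ℓ ^ e) (Finset.range (n + 1) : Set ℕ) := by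
    intro a _ b _ hab
    have : ℓ ^ a = ℓ ^ b := Nat.eq_of_mul_eq_mul_left hd hab
    exact Nat.pow_right_injective hℓ this
  have c1 : s.card = ∑ e ∈ Finset.range (n + 1), (d * ℓ ^ e) * nOrb F (h.part d) (d * ℓ ^ e) := by
    rw [Finset.card_eq_sum_card_fiberwise (f := fun x => minimalPeriod F x)
      (t := (Finset.range (n + 1)).image fun e => d * ℓ ^ e), Finset.sum_image hinj]
    · refine Finset.sum_congr rfl fun e _ => ?_
      rw [← hN.ncard_per (hpos e), ← Set.ncard_coe_finset]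
      congr 1
      ext x
      rw [Finset.mem_coe, Finset.mem_filter, ← Finset.mem_coe, hs]
      rfl
    · intro x hx
      have hx' : x ∈ h.part d := by rw [← hs]; exact hx
      obtain ⟨e, he, h3⟩ := h.period x hx'.1 d hd hx'.2
      rw [Finset.mem_coe, Finset.mem_image]
      exact ⟨e, Finset.mem_range.2 (by omega), h3.symm⟩
  have c2 : s.card = c * t.card := by
    rw [Finset.card_eq_sum_card_fiberwise (f := π) (t := t), Finset.sum_const_nat (m := c), mul_comm]
    · intro y hy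
      have hy' : y ∈ per G B d := by rw [← ht]; exact hy
      rw [← h.fib y hy'.1, ← Set.ncard_coe_finset]
      congr 1
      ext x
      rw [Finset.mem_coe, Finset.mem_filter, ← Finset.mem_coe, hs]
      constructor
      · rintro ⟨⟨h1, -⟩, h2⟩
        exact ⟨h1, h2⟩
      · rintro ⟨h1, h2⟩
        exact ⟨⟨h1, by rw [h2]; exact hy'.2⟩, h2⟩
    · intro x hx
      have hx' : x ∈ h.part d := by rw [← hs]; exact hx
      have : π x ∈ per G B d := ⟨h.maps x hx'.1, hx'.2⟩
      rw [← ht] at this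
      exact this
  have c3 : t.card = d * nOrb G B d := by
    rw [← h.niceB.ncard_per hd, ← ht, Set.ncard_coe_finset]
  have c4 : d * ∑ e ∈ Finset.range (n + 1), ℓ ^ e * nOrb F (h.part d) (d * ℓ ^ e) =
      d * (c * nOrb G B d) := by
    rw [Finset.mul_sum]
    calc ∑ e ∈ Finset.range (n + 1), d * (ℓ ^ e * nOrb F (h.part d) (d * ℓ ^ e)) = s.card := by
          rw [c1]
          exact Finset.sum_congr rfl fun e _ => by ring
      _ = d * (c * nOrb G B d) := by rw [c2, c3]; ring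
  exact Nat.eq_of_mul_eq_mul_left hd c4

/-- The Euler product of the covering is the `c`-th power of the Euler product of the base, modulo `ℓ`. -/
theorem eul_eq (h : IsCov F G A B π ℓ n c) (hℓ : ℓ.Prime) {R : Type*} [CommRing R] [CharP R ℓ]
    {Q Q' : PowerSeries R} (hQ : IsEul (nOrb F A) Q) (hQ' : IsEul (nOrb G B) Q') : Q = Q' ^ c := by
  classical
  have : Fact ℓ.Prime := ⟨hℓ⟩
  have : CharP (PowerSeries R) ℓ := charP_of_injective_ringHom (PowerSeries.C_injective (R := R)) ℓ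
  refine hQ.unique ?_
  intro M
  set I : Ideal (PowerSeries R) := Ideal.span {(X : PowerSeries R) ^ (M + 1)} with hI
  have key : ∀ a b : PowerSeries R, (X : PowerSeries R) ^ (M + 1) ∣ a - b ↔
      Ideal.Quotient.mk I a = Ideal.Quotient.mk I b := by
    intro a b
    rw [Ideal.Quotient.eq, hI, Ideal.mem_span_singleton]
  rw [key]
  have k1 := (key _ _).1 (hQ' M)
  rw [map_pow, k1]
  unfold eulM
  rw [map_prod, map_prod]
  simp only [map_pow]
  set w : ℕ → PowerSeries R ⧸ I := fun D => Ideal.Quotient.mk I (1 - X ^ D) with hw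
  have w1 : ∀ D, M < D → w D = 1 := by
    intro D hD
    have := (key (1 - X ^ D) 1).1 (by
      rw [sub_sub_cancel_left, dvd_neg]
      exact pow_dvd_pow _ (by omega))
    rw [hw]
    simp only
    rw [this, map_one]
  have w2 : ∀ d e, w (d * ℓ ^ e) = w d ^ (ℓ ^ e) := by
    intro d e
    rw [hw]
    simp only
    rw [← map_pow]
    congr 1
    rw [sub_pow_char_pow, one_pow, ← pow_mul]
  change (∏ d ∈ Finset.Icc 1 M, w d ^ (nOrb G B d)) ^ c = ∏ D ∈ Finset.Icc 1 M, w D ^ (nOrb F A D)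
  have e1 : ∏ D ∈ Finset.Icc 1 M, w D ^ (nOrb F A D) =
      ∏ D ∈ Finset.Icc 1 M, ∏ d ∈ Finset.Icc 1 M, w D ^ (nOrb F (h.part d) D) := by
    refine Finset.prod_congr rfl fun D hD => ?_
    rw [Finset.mem_Icc] at hD
    rw [h.nOrb_eq_sum hD.1 hD.2, Finset.prod_pow_eq_pow_sum]
  rw [e1, Finset.prod_comm, ← Finset.prod_pow]
  refine Finset.prod_congr rfl fun d hd => ?_
  have hd1 := (Finset.mem_Icc.1 hd).1
  have hinj : Set.InjOn (fun e => d * ℓ ^ e) (Finset.range (n + 1) : Set ℕ) := by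
    intro a _ b _ hab
    have : ℓ ^ a = ℓ ^ b := Nat.eq_of_mul_eq_mul_left hd1 hab
    exact Nat.pow_right_injective hℓ.two_le this
  have e2 : ∏ D ∈ Finset.Icc 1 M, w D ^ (nOrb F (h.part d) D) =
      ∏ e ∈ Finset.range (n + 1), w (d * ℓ ^ e) ^ (nOrb F (h.part d) (d * ℓ ^ e)) := by
    have e3 := Finset.prod_image (s := Finset.range (n + 1)) (g := fun e => d * ℓ ^ e)
      (f := fun D => w D ^ (nOrb F (h.part d) D)) hinj
    rw [← e3]
    rw [Finset.prod_subset (Finset.subset_union_left (s₁ := Finset.Icc 1 M)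
      (s₂ := (Finset.range (n + 1)).image fun e => d * ℓ ^ e))]
    · symm
      refine Finset.prod_subset Finset.subset_union_right ?_
      intro D hD hD'
      rw [h.nOrb_part_zero hd1, pow_zero]
      intro e he heq
      exact hD' (Finset.mem_image.2 ⟨e, Finset.mem_range.2 (by omega), heq.symm⟩)
    · intro D hD hD'
      rw [Finset.mem_union] at hD
      rcases hD with hD | hD
      · exact absurd hD hD'
      · have hDpos : 1 ≤ D := by
          rw [Finset.mem_image] at hD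
          obtain ⟨e, -, rfl⟩ := hD
          exact Nat.mul_pos hd1 (pow_pos hℓ.pos e)
        rw [Finset.mem_Icc] at hD'
        rw [w1 D (by omega), one_pow]
  rw [e2]
  have e4 : ∀ e ∈ Finset.range (n + 1), w (d * ℓ ^ e) ^ (nOrb F (h.part d) (d * ℓ ^ e)) =
      w d ^ (ℓ ^ e * nOrb F (h.part d) (d * ℓ ^ e)) := by
    intro e _
    rw [w2, ← pow_mul]
  rw [Finset.prod_congr rfl e4, Finset.prod_pow_eq_pow_sum, h.sum_part hℓ.two_le hd1, ← pow_mul,
    mul_comm]

end IsCov

end Pool.Agent.K9h8.Kum
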