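import Pool.Agent.K9h8.Kum.Tri

/-!
# Cyclic covers branched along one hypersurface section
-/

set_option autoImplicit false

namespace Pool.Agent.K9h8.Kum

open Function
open scoped LinearAlgebra.Projectivization

section

variable {k : Type*} [Field k] [Fintype k] {K : Type*} [Field K] [Algebra k K] [IsAlgClosed K]
  {σ : Type*} [Fintype σ] {f : Unit → MvPolynomial σ k} {m : ℕ} {d : Unit → ℕ}

/-- The number of points in a fibre. -/
theorem ncard_fibre_cyc (hm : (m : K) ≠ 0) (hf : ∀ i, (f i).IsHomogeneous (d i))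
    (hd : ∀ i, m ∣ d i) (a : σ → K) (ha : a ≠ 0) :
    {x : Pt K f m d | prj x = Projectivization.mk K a ha}.ncard =
      {z : K | z ^ m = MvPolynomial.aeval a (f ())}.ncard := by
  classical
  have hm0 : m ≠ 0 := by
    rintro rfl
    simp at hm
  symm
  refine Set.ncard_congr (fun z hz => Pt.mk d ⟨a, fun _ => z, ha, fun _ => hz⟩) ?_ ?_ ?_
  · intro z hz
    rfl
  · intro z z' hz hz' h
    rw [Pt.mk_eq] at h
    obtain ⟨t, ht, h1, h2⟩ := h
    simp only at h1 h2
    obtain ⟨j, hj⟩ : ∃ j, a j ≠ 0 := by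
      by_contra hcon
      push Not at hcon
      exact ha (funext hcon)
    have h3 : t ^ m = 1 := by
      have := h1 j
      exact mul_right_cancel₀ hj (by rw [one_mul]; exact this.symm)
    have h4 : t ^ d () = 1 := by
      obtain ⟨c, hc⟩ := hd ()
      rw [hc, pow_mul, h3, one_pow]
    have := h2 ()
    rw [h4, one_mul] at this
    exact this.symm
  · intro x hx
    obtain ⟨y, rfl⟩ := Pt.mk_surj d x
    have h1 : Projectivization.mk K y.a y.ne = Projectivization.mk K a ha := hx
    rw [Projectivization.mk_eq_mk_iff'] at h1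
    obtain ⟨κ, hκ⟩ := h1
    have hκ' : ∀ j, y.a j = κ * a j := fun j => (congrFun hκ j).symm
    have hκ0 : κ ≠ 0 := by
      rintro rfl
      apply y.ne
      funext j
      rw [hκ' j, zero_mul]; rfl
    obtain ⟨t, ht⟩ := IsAlgClosed.exists_pow_nat_eq κ (Nat.pos_of_ne_zero hm0)
    have ht0 : t ≠ 0 := by
      rintro rfl
      rw [zero_pow hm0] at ht
      exact hκ0 ht.symm
    have hev : MvPolynomial.aeval y.a (f ()) = κ ^ d () * MvPolynomial.aeval a (f ()) := by
      have := aeval_smul (hf ()) κ a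
      rw [← this]
      congr 2
      funext j
      exact hκ' j
    refine ⟨(t ^ d ())⁻¹ * y.b (), ?_, ?_⟩
    · change ((t ^ d ())⁻¹ * y.b ()) ^ m = _
      rw [mul_pow, y.eq (), hev, inv_pow, ← pow_mul, mul_comm (d ()) m, pow_mul, ht]
      rw [inv_mul_cancel_left₀ (pow_ne_zero _ hκ0)]
    · rw [Pt.mk_eq]
      refine ⟨t, ht0, fun j => ?_, fun i => ?_⟩
      · simp only
        rw [hκ' j, ht]
      · change y.b i = t ^ d i * ((t ^ d ())⁻¹ * y.b ())
        rw [mul_inv_cancel_left₀ (pow_ne_zero _ ht0)]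

variable {Y : Set (ℙ K (σ → K))}

theorem isCov_strat_cyc (hY : ∀ P ∈ Y, frobP k K σ P ∈ Y) (hm : (m : K) ≠ 0)
    (hf : ∀ i, (f i).IsHomogeneous (d i)) (hd : ∀ i, m ∣ d i) {ℓ n : ℕ}
    (hℓp : ℓ.Prime) (hmn : m = ℓ ^ n) (hℓ : (ℓ : ℤ) ∣ (Fintype.card k : ℤ) - 1) (I : Finset Unit) :
    IsCov (frobX k K f m d) (frobP k K σ) (prj ⁻¹' strat Y f I) (strat Y f I) prj ℓ n
      (m ^ Iᶜ.card) := by
  classical
  have hm0 : m ≠ 0 := by
    rintro rfl
    simp at hm
  have hfib : ∀ y, y ∈ strat Y f I → {x : Pt K f m d | x ∈ prj ⁻¹' strat Y f I ∧ prj x = y}.ncard =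
      m ^ Iᶜ.card := by
    intro y hy
    induction y using Projectivization.ind with
    | h a ha =>
      have hy' : van f (Projectivization.mk K a ha) = I := hy.2
      have hmem : ∀ i, i ∈ I ↔ MvPolynomial.aeval a (f i) = 0 := by
        intro i
        rw [← hy', mem_van hf]
      have h1 := ncard_fibre_cyc (k := k) hm hf hd a ha
      have h2 : {x : Pt K f m d | x ∈ prj ⁻¹' strat Y f I ∧ prj x = Projectivization.mk K a ha} =
          {x : Pt K f m d | prj x = Projectivization.mk K a ha} := by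
        ext x
        constructor
        · rintro ⟨-, h⟩
          exact h
        · intro h
          refine ⟨?_, h⟩
          change prj x ∈ strat Y f I
          rw [show prj x = _ from h]
          exact hy
      rw [h2, h1]
      by_cases h0 : () ∈ I
      · have hI : I = Finset.univ := by
          ext i
          simp [h0]
        rw [(hmem ()).1 h0, ncard_roots_zero hm0, hI, Finset.compl_univ, Finset.card_empty, pow_zero]
      · have hI : I = ∅ := by
          ext i
          simp [h0]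
        rw [ncard_roots hm (fun h => h0 ((hmem ()).2 h)), hI, Finset.compl_empty, Finset.card_univ,
          Fintype.card_unit, pow_one]
  refine ⟨⟨?_, ?_⟩, nice_strat hY hf I, ?_, ?_, hfib, ?_⟩
  · intro x hx
    change prj (frobX k K f m d x) ∈ strat Y f I
    rw [prj_frob]
    exact (nice_strat hY hf I).stab _ hx
  · intro r hr
    have h1 := (nice_strat hY hf I).fin r hr
    refine Set.Finite.subset (h1.biUnion (t := fun y => {x : Pt K f m d | x ∈ prj ⁻¹' strat Y f I ∧
      prj x = y}) fun y hy => ?_) ?_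
    · apply Set.finite_of_ncard_ne_zero
      rw [hfib y hy.1]
      exact pow_ne_zero _ hm0
    · rintro x ⟨hx, h2⟩
      rw [Set.mem_iUnion₂]
      refine ⟨prj x, ⟨hx, ?_⟩, hx, rfl⟩
      have h3 : ∀ s : ℕ, prj ((frobX k K f m d)^[s] x) = (frobP k K σ)^[s] (prj x) := by
        intro s
        induction s with
        | zero => rfl
        | succ s ih => rw [Function.iterate_succ_apply', Function.iterate_succ_apply', prj_frob, ih]
      rw [← h3, h2]
  · intro x hx
    exact hx
  · intro x _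
    exact prj_frob x
  · intro x hx D hD hper
    have h0 : (frobP k K σ)^[D] (prj x) = prj x := by
      have := Function.isPeriodicPt_minimalPeriod (frobP k K σ) (prj x)
      rw [hper] at this
      exact this
    have h1 := period_iter (k := k) hm hf hmn hℓ hD x h0
    have h2 : minimalPeriod (frobX k K f m d) x ∣ D * ℓ ^ n := by
      rw [← hmn]
      exact IsPeriodicPt.minimalPeriod_dvd h1
    have h3 : D ∣ minimalPeriod (frobX k K f m d) x := by
      rw [← hper]
      apply IsPeriodicPt.minimalPeriod_dvd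
      have h4 : ∀ s : ℕ, prj ((frobX k K f m d)^[s] x) = (frobP k K σ)^[s] (prj x) := by
        intro s
        induction s with
        | zero => rfl
        | succ s ih => rw [Function.iterate_succ_apply', Function.iterate_succ_apply', prj_frob, ih]
      have h5 := Function.isPeriodicPt_minimalPeriod (frobX k K f m d) x
      change (frobP k K σ)^[_] (prj x) = prj x
      rw [← h4, h5]
    obtain ⟨c, hc⟩ := h3
    rw [hc] at h2
    have h6 : c ∣ ℓ ^ n := Nat.dvd_of_mul_dvd_mul_left hD h2
    obtain ⟨e, he, rfl⟩ := (Nat.dvd_prime_pow hℓp).1 h6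
    exact ⟨e, he, hc⟩

/-- The zeta function of a cyclic cover modulo `ℓ`: if the surface has order `s` at `T = 1` and the branch curve has
order `c`, the cover has order `m (s - c) + c`. -/
theorem hasOrd_cyc (hY : ∀ P ∈ Y, frobP k K σ P ∈ Y) (hm : (m : K) ≠ 0)
    (hf : ∀ i, (f i).IsHomogeneous (d i)) (hd : ∀ i, m ∣ d i) {ℓ n : ℕ} [Fact ℓ.Prime]
    (hmn : m = ℓ ^ n) (hℓ : (ℓ : ℤ) ∣ (Fintype.card k : ℤ) - 1) {s c : ℤ}
    {G H Q : PowerSeries (ZMod ℓ)} (hG : IsEul (nOrb (frobP k K σ) Y) G) (hG' : HasOrd G s)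
    (hH : IsEul (nOrb (frobP k K σ) (Y ∩ zeros K (f ()))) H) (hH' : HasOrd H c)
    (hQ : IsEul (nOrb (frobX k K f m d) (prj ⁻¹' Y)) Q) : HasOrd Q (m * (s - c) + c) := by
  classical
  have hcov := fun I => isCov_strat_cyc (K := K) (k := k) hY hm hf hd (Fact.out : ℓ.Prime) hmn hℓ I
  have hprj : ∀ x : Pt K f m d, van f (prj (frobX k K f m d x)) = van f (prj x) := by
    intro x
    rw [prj_frob, van_frob hf]
  have e0 : strat Y f Finset.univ = Y ∩ zeros K (f ()) := by
    ext P
    have h1 : P ∈ zeros K (f ()) ↔ () ∈ van f P := by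
      unfold zeros van
      rw [Set.mem_ofPred_eq, Finset.mem_filter]
      simp
    constructor
    · rintro ⟨h2, h3⟩
      exact ⟨h2, h1.2 (by rw [h3]; exact Finset.mem_univ _)⟩
    · rintro ⟨h2, h3⟩
      refine ⟨h2, ?_⟩
      ext i
      exact ⟨fun _ => Finset.mem_univ _, fun _ => h1.1 h3⟩
  have hnice : Nice (frobX k K f m d) (prj ⁻¹' Y : Set (Pt K f m d)) := by
    refine ⟨fun x hx => ?_, fun r hr => ?_⟩
    · change prj (frobX k K f m d x) ∈ Y
      rw [prj_frob]
      exact hY _ hx
    have : {x : Pt K f m d | x ∈ (prj ⁻¹' Y : Set (Pt K f m d)) ∧ (frobX k K f m d)^[r] x = x} ⊆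
        ⋃ I : Finset Unit, {x : Pt K f m d | x ∈ prj ⁻¹' strat Y f I ∧ (frobX k K f m d)^[r] x = x} := by
      rintro x ⟨hxY, hx⟩
      rw [Set.mem_iUnion]
      exact ⟨van f (prj x), ⟨hxY, rfl⟩, hx⟩
    exact Set.Finite.subset (Set.finite_iUnion fun I => (hcov I).niceA.fin r hr) this
  have hniceY : Nice (frobP k K σ) Y := nice_proj Y hY
  -- the base
  have b1 : IsEul (nOrb (frobP k K σ) Y) (∏ I : Finset Unit,
      eul (ZMod ℓ) (nOrb (frobP k K σ) (strat Y f I))) := by
    refine (IsEul.prod (R := ZMod ℓ) Finset.univ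
      (b := fun I => nOrb (frobP k K σ) (strat Y f I)) fun I _ => isEul_eul _).congr fun D hD => ?_
    rw [nOrb_sum hniceY (van f) (fun P _ => van_frob hf P) hD]
    rfl
  have b2 : IsEul (nOrb (frobX k K f m d) (prj ⁻¹' Y)) (∏ I : Finset Unit,
      (eul (ZMod ℓ) (nOrb (frobP k K σ) (strat Y f I))) ^ (m ^ Iᶜ.card)) := by
    refine (IsEul.prod (R := ZMod ℓ) Finset.univ
      (b := fun I => nOrb (frobX k K f m d) (prj ⁻¹' strat Y f I)) fun I _ => ?_).congr fun D hD => ?_
    · have h2 := (hcov I).eul_eq (Fact.out : ℓ.Prime) (R := ZMod ℓ) (isEul_eul _) (isEul_eul _)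
      rw [← h2]
      exact isEul_eul _
    · rw [nOrb_sum hnice (fun x => van f (prj x)) (fun x _ => hprj x) hD]
      rfl
  have huniv : (Finset.univ : Finset (Finset Unit)) = {∅, Finset.univ} := by decide
  have hne : (∅ : Finset Unit) ≠ Finset.univ := by decide
  rw [huniv, Finset.prod_pair hne] at b1 b2
  have c1 : HasOrd (eul (ZMod ℓ) (nOrb (frobP k K σ) (strat Y f Finset.univ))) c := by
    rw [e0, ← hH.unique (isEul_eul _)]
    exact hH'
  have c2 : HasOrd (eul (ZMod ℓ) (nOrb (frobP k K σ) (strat Y f ∅))) (s - c) := by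
    refine HasOrd.div ?_ c1
    rw [← hG.unique b1]
    exact hG'
  rw [hQ.unique b2]
  have c3 := (c2.pow (m ^ (∅ : Finset Unit)ᶜ.card)).mul (c1.pow (m ^ (Finset.univ : Finset Unit)ᶜ.card))
  convert c3 using 1
  rw [Finset.compl_empty, Finset.card_univ, Fintype.card_unit, Finset.compl_univ, Finset.card_empty,
    pow_one, pow_zero]
  push_cast
  ring

end

end Pool.Agent.K9h8.Kum
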