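import Pool.Agent.K9h8.Kum.Twist

/-!
# Double covers and their twists
-/

set_option autoImplicit false

namespace Pool.Agent.K9h8.Kum

open Function
open scoped LinearAlgebra.Projectivization

section

variable {k : Type*} [Field k] [Fintype k] {K : Type*} [Field K] [Algebra k K] [IsAlgClosed K]
  {σ : Type*} [Fintype σ] {f : Unit → MvPolynomial σ k} {d : Unit → ℕ}

/-- The involution `(a, b) ↦ (a, -b)`. -/
def negX : Pt K f 2 d → Pt K f 2 d :=
  Quotient.map (sa := tupSetoid K f 2 d) (sb := tupSetoid K f 2 d)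
    (fun x => ⟨x.a, fun i => -x.b i, x.ne, fun i => by rw [neg_sq, x.eq i]⟩) (by
      rintro x y ⟨t, ht, h1, h2⟩
      refine ⟨t, ht, h1, fun i => ?_⟩
      change -y.b i = t ^ d i * -x.b i
      rw [h2]; ring)

omit [Fintype k] [IsAlgClosed K] [Fintype σ] in
theorem negX_mk (x : Tup K f 2) : negX (Pt.mk d x) =
    Pt.mk d ⟨x.a, fun i => -x.b i, x.ne, fun i => by rw [neg_sq, x.eq i]⟩ := rfl

omit [IsAlgClosed K] [Fintype σ] in
theorem odd_card (h2 : (2 : K) ≠ 0) : Odd (Fintype.card k) := by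
  obtain ⟨p, hp⟩ := CharP.exists k
  have hp' : Fact p.Prime := ⟨CharP.char_is_prime k p⟩
  have hK : CharP K p := charP_of_injective_algebraMap (algebraMap k K).injective p
  obtain ⟨r, hr⟩ := FiniteField.card k p
  rw [hr.2]
  apply Odd.pow
  rw [← Nat.not_even_iff_odd, hp'.out.even_iff]
  rintro rfl
  exact h2 (by exact_mod_cast CharP.cast_eq_zero K 2)

/-- The map `(a, b) ↦ (a, s b)` to the twist. -/
def scaleX {g : Unit → MvPolynomial σ k} (s : K) (c : k) (hs : s ^ 2 = algebraMap k K c)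
    (hg : ∀ i, g i = MvPolynomial.C c * f i) : Pt K f 2 d → Pt K g 2 d :=
  Quotient.map (sa := tupSetoid K f 2 d) (sb := tupSetoid K g 2 d)
    (fun x => ⟨x.a, fun i => s * x.b i, x.ne, fun i => by
      rw [mul_pow, x.eq i, hs, hg, map_mul, MvPolynomial.aeval_C]⟩) (by
      rintro x y ⟨t, ht, h1, h2⟩
      refine ⟨t, ht, h1, fun i => ?_⟩
      change s * y.b i = t ^ d i * (s * x.b i)
      rw [h2]; ring)

omit [Fintype k] [IsAlgClosed K] [Fintype σ] in
theorem scaleX_mk {g : Unit → MvPolynomial σ k} (s : K) (c : k) (hs : s ^ 2 = algebraMap k K c)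
    (hg : ∀ i, g i = MvPolynomial.C c * f i) (x : Tup K f 2) :
    scaleX (d := d) s c hs hg (Pt.mk d x) = Pt.mk d ⟨x.a, fun i => s * x.b i, x.ne, fun i => by
      rw [mul_pow, x.eq i, hs, hg, map_mul, MvPolynomial.aeval_C]⟩ := rfl

variable {Y : Set (ℙ K (σ → K))}

theorem nice_cyc (hY : ∀ P ∈ Y, frobP k K σ P ∈ Y) (h2 : (2 : K) ≠ 0)
    (hf : ∀ i, (f i).IsHomogeneous (d i)) (hd : ∀ i, 2 ∣ d i) :
    Nice (frobX k K f 2 d) (prj ⁻¹' Y : Set (Pt K f 2 d)) := by
  classical
  have hcov := fun I => isCov_strat_cyc (K := K) (k := k) (m := 2) hY (by exact_mod_cast h2) hf hd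
    Nat.prime_two (n := 1) (by norm_num) (by
      have := odd_card (k := k) (K := K) h2
      obtain ⟨j, hj⟩ := this
      rw [hj]
      push_cast
      exact ⟨j, by ring⟩) I
  refine ⟨fun x hx => ?_, fun r hr => ?_⟩
  · change prj (frobX k K f 2 d x) ∈ Y
    rw [prj_frob]
    exact hY _ hx
  have : {x : Pt K f 2 d | x ∈ (prj ⁻¹' Y : Set (Pt K f 2 d)) ∧ (frobX k K f 2 d)^[r] x = x} ⊆
      ⋃ I : Finset Unit, {x : Pt K f 2 d | x ∈ prj ⁻¹' strat Y f I ∧ (frobX k K f 2 d)^[r] x = x} := by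
    rintro x ⟨hxY, hx⟩
    rw [Set.mem_iUnion]
    exact ⟨van f (prj x), ⟨hxY, rfl⟩, hx⟩
  exact Set.Finite.subset (Set.finite_iUnion fun I => (hcov I).niceA.fin r hr) this

theorem isDbl (hY : ∀ P ∈ Y, frobP k K σ P ∈ Y) (h2 : (2 : K) ≠ 0)
    (hf : ∀ i, (f i).IsHomogeneous (d i)) (hd : ∀ i, 2 ∣ d i) :
    IsDbl (frobX k K f 2 d) negX (frobP k K σ) (prj ⁻¹' Y : Set (Pt K f 2 d)) Y prj := by
  refine ⟨nice_cyc hY h2 hf hd, nice_proj Y hY, ?_, ?_, ?_, fun x hx => hx, prj_frob, ?_, ?_, ?_⟩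
  · intro x
    obtain ⟨y, rfl⟩ := Pt.mk_surj d x
    rw [negX_mk, negX_mk]
    congr 1
    simp
  · intro x hx
    obtain ⟨y, rfl⟩ := Pt.mk_surj d x
    exact hx
  · intro x
    obtain ⟨y, rfl⟩ := Pt.mk_surj d x
    rw [negX_mk, frobX_mk, frobX_mk, negX_mk]
    congr 1
    unfold Tup.frob
    congr 1
    funext i
    exact (odd_card (k := k) (K := K) h2).neg_pow _
  · intro x
    obtain ⟨y, rfl⟩ := Pt.mk_surj d x
    rfl
  · intro x y hx hy h
    obtain ⟨x, rfl⟩ := Pt.mk_surj d x
    obtain ⟨y, rfl⟩ := Pt.mk_surj d y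
    rw [prj_mk, prj_mk, Projectivization.mk_eq_mk_iff'] at h
    obtain ⟨κ, hκ⟩ := h
    have hκ' : ∀ j, x.a j = κ * y.a j := fun j => (congrFun hκ j).symm
    have hκ0 : κ ≠ 0 := by
      rintro rfl
      apply x.ne
      funext j
      rw [hκ' j, zero_mul]; rfl
    obtain ⟨t, ht⟩ := IsAlgClosed.exists_pow_nat_eq κ (by norm_num : 0 < 2)
    have ht0 : t ≠ 0 := by
      rintro rfl
      rw [zero_pow two_ne_zero] at ht
      exact hκ0 ht.symm
    have hev : ∀ i, MvPolynomial.aeval x.a (f i) = κ ^ d i * MvPolynomial.aeval y.a (f i) := by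
      intro i
      rw [← aeval_smul (hf i) κ y.a]
      congr 2
      funext j
      exact hκ' j
    have hb : ∀ i, (t ^ d i * y.b i) ^ 2 = x.b i ^ 2 := by
      intro i
      rw [mul_pow, y.eq i, x.eq i, hev i, ← pow_mul, mul_comm (d i) 2, pow_mul, ht]
    have hu : ∀ i : Unit, i = () := fun _ => rfl
    rcases sq_eq_sq_iff_eq_or_eq_neg.1 (hb ()) with h3 | h3
    · left
      symm
      rw [eq_comm, Pt.mk_eq]
      refine ⟨t, ht0, fun j => ?_, fun i => ?_⟩
      · rw [hκ' j, ht]
      · rw [hu i, h3]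
    · right
      rw [negX_mk, Pt.mk_eq]
      refine ⟨t, ht0, fun j => ?_, fun i => ?_⟩
      · change x.a j = _
        rw [hκ' j, ht]
      · change -x.b i = _
        rw [hu i, h3]
  · intro P hP
    induction P using Projectivization.ind with
    | h a ha =>
      have hroot : ∀ i, ∃ z : K, z ^ 2 = MvPolynomial.aeval a (f i) := fun i =>
        IsAlgClosed.exists_pow_nat_eq _ (by norm_num : 0 < 2)
      choose z hz using hroot
      exact ⟨Pt.mk d ⟨a, z, ha, hz⟩, hP, rfl⟩

omit [IsAlgClosed K] [Fintype σ] in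
/-- The square root of a non-square. -/
theorem root_frob {c : k} (hc : ¬ IsSquare c) [IsAlgClosed K] {s : K}
    (hs : s ^ 2 = algebraMap k K c) : s ^ Fintype.card k = -s := by
  have h1 : (s ^ Fintype.card k) ^ 2 = s ^ 2 := by
    rw [← pow_mul, mul_comm, pow_mul, hs, ← map_pow, FiniteField.pow_card]
  rcases sq_eq_sq_iff_eq_or_eq_neg.1 h1 with h3 | h3
  · exfalso
    apply hc
    -- `s` lies in `k`
    have h4 : s ∈ (Polynomial.X ^ Fintype.card k - Polynomial.X : Polynomial K).rootSet K := by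
      have hne : (Polynomial.X ^ Fintype.card k - Polynomial.X : Polynomial K) ≠ 0 :=
        FiniteField.X_pow_card_sub_X_ne_zero K Fintype.one_lt_card
      rw [Polynomial.mem_rootSet]
      refine ⟨hne, ?_⟩
      simp [h3]
    have h5 : ∃ y : k, algebraMap k K y = s := by
      by_contra hcon
      push Not at hcon
      -- the polynomial would have too many roots
      have hne : (Polynomial.X ^ Fintype.card k - Polynomial.X : Polynomial K) ≠ 0 :=
        FiniteField.X_pow_card_sub_X_ne_zero K Fintype.one_lt_card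
      classical
      have h6 : insert s (Finset.univ.image (algebraMap k K)) ⊆
          (Polynomial.X ^ Fintype.card k - Polynomial.X : Polynomial K).roots.toFinset := by
        intro x hx
        rw [Finset.mem_insert, Finset.mem_image] at hx
        rw [Multiset.mem_toFinset, Polynomial.mem_roots hne, Polynomial.IsRoot.def,
          Polynomial.eval_sub, Polynomial.eval_pow, Polynomial.eval_X]
        rcases hx with rfl | ⟨y, -, rfl⟩
        · rw [h3, sub_self]
        · rw [← map_pow, FiniteField.pow_card, sub_self]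
      have h7 := Finset.card_le_card h6
      rw [Finset.card_insert_of_notMem (by
        rw [Finset.mem_image]
        rintro ⟨y, -, hy⟩
        exact hcon y hy), Finset.card_image_of_injective _ (algebraMap k K).injective,
        Finset.card_univ] at h7
      have h8 := (Multiset.toFinset_card_le _).trans (Polynomial.card_roots'
        (Polynomial.X ^ Fintype.card k - Polynomial.X : Polynomial K))
      rw [FiniteField.X_pow_card_sub_X_natDegree_eq K Fintype.one_lt_card] at h8
      omega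
    obtain ⟨y, rfl⟩ := h5
    refine ⟨y, ?_⟩
    rw [← map_pow] at hs
    rw [← (algebraMap k K).injective hs, sq]
  · exact h3

/-- The closed points of the twist. -/
theorem nOrb_twist (h2 : (2 : K) ≠ 0) {g : Unit → MvPolynomial σ k}
    (c : k) (hc : ¬ IsSquare c) (hg : ∀ i, g i = MvPolynomial.C c * f i) (D : ℕ) :
    nOrb (frobX k K g 2 d) (prj ⁻¹' Y : Set (Pt K g 2 d)) D =
      nOrb (fun x => negX (frobX k K f 2 d x)) (prj ⁻¹' Y : Set (Pt K f 2 d)) D := by
  obtain ⟨s, hs⟩ := IsAlgClosed.exists_pow_nat_eq (algebraMap k K c) (by norm_num : 0 < 2)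
  have hc0 : c ≠ 0 := by
    rintro rfl
    exact hc ⟨0, by simp⟩
  have hs0 : s ≠ 0 := by
    rintro rfl
    rw [zero_pow two_ne_zero] at hs
    exact hc0 ((map_eq_zero _).1 hs.symm)
  have hsq := root_frob hc hs
  have heq : ∀ x, scaleX (d := d) s c hs hg (negX (frobX k K f 2 d x)) =
      frobX k K g 2 d (scaleX s c hs hg x) := by
    intro x
    obtain ⟨x, rfl⟩ := Pt.mk_surj d x
    rw [frobX_mk, negX_mk, scaleX_mk, scaleX_mk, frobX_mk]
    congr 1
    unfold Tup.frob
    congr 1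
    funext i
    change s * -(x.b i ^ Fintype.card k) = (s * x.b i) ^ Fintype.card k
    rw [mul_pow, hsq]
    ring
  have hinj : Injective (scaleX (d := d) (K := K) s c hs hg) := by
    intro x y h
    obtain ⟨x, rfl⟩ := Pt.mk_surj d x
    obtain ⟨y, rfl⟩ := Pt.mk_surj d y
    rw [scaleX_mk, scaleX_mk, Pt.mk_eq] at h
    obtain ⟨t, ht, h1, h3⟩ := h
    rw [Pt.mk_eq]
    refine ⟨t, ht, h1, fun i => ?_⟩
    have h4 : s * y.b i = t ^ d i * (s * x.b i) := h3 i
    apply mul_left_cancel₀ hs0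
    rw [h4]; ring
  have himg : scaleX (d := d) s c hs hg '' (prj ⁻¹' Y) = (prj ⁻¹' Y : Set (Pt K g 2 d)) := by
    ext x
    constructor
    · rintro ⟨y, hy, rfl⟩
      obtain ⟨y, rfl⟩ := Pt.mk_surj d y
      exact hy
    · intro hx
      obtain ⟨x, rfl⟩ := Pt.mk_surj d x
      refine ⟨Pt.mk d ⟨x.a, fun i => s⁻¹ * x.b i, x.ne, fun i => ?_⟩, hx, ?_⟩
      · rw [mul_pow, x.eq i, hg, map_mul, MvPolynomial.aeval_C, ← hs, inv_pow,
          inv_mul_cancel_left₀ (pow_ne_zero _ hs0)]
      · rw [scaleX_mk]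
        congr 1
        congr 1
        funext i
        exact mul_inv_cancel_left₀ hs0 _
  rw [← himg]
  exact nOrb_image heq hinj _ D

end

end Pool.Agent.K9h8.Kum
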