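import Mathlib

/-!
# Definitions: closed points, zeta functions, Kummer covers of projective space
-/

set_option autoImplicit false

namespace Pool.Agent.K9h8.Kum

open Function
open scoped LinearAlgebra.Projectivization

/-! ### Closed points and zeta functions -/

/-- The forward orbit of `x` under `F`. -/
def orb {S : Type*} (F : S → S) (x : S) : Set S := {y | ∃ k : ℕ, F^[k] x = y}

/-- The number of orbits of `F` in `A` with `d` elements (`d ≥ 1`). If `S` is the set of points of a variety over an
algebraic closure of the field with `q` elements and `F` the Frobenius map, this is the number of closed points of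
degree `d` in `A`. -/
noncomputable def nOrb {S : Type*} (F : S → S) (A : Set S) (d : ℕ) : ℕ :=
  {O : Set S | ∃ x, x ∈ A ∧ minimalPeriod F x = d ∧ O = orb F x}.ncard

/-- The product of the `(1 - T ^ d) ^ (b d)` over `1 ≤ d ≤ M`. -/
noncomputable def eulM (R : Type*) [CommRing R] (b : ℕ → ℕ) (M : ℕ) : PowerSeries R :=
  ∏ d ∈ Finset.Icc 1 M, (1 - (PowerSeries.X : PowerSeries R) ^ d) ^ (b d)

/-- The power series `Q` is the infinite product of the `(1 - T ^ d) ^ (b d)`, `d ≥ 1`. If `b d` is the number of
closed points of degree `d` of a variety, `Q` is the inverse `1 / Z(T)` of its zeta function. -/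
def IsEul {R : Type*} [CommRing R] (b : ℕ → ℕ) (Q : PowerSeries R) : Prop :=
  ∀ M : ℕ, (PowerSeries.X : PowerSeries R) ^ (M + 1) ∣ Q - eulM R b M

/-! ### Projective space -/

section proj

variable (k : Type*) [Field k] [Fintype k] (K : Type*) [Field K] [Algebra k K] (σ : Type*)

/-- The Frobenius map `v ↦ (v i ^ q)` on coordinates, `q` the number of elements of `k`. -/
noncomputable def frobLin :
    (σ → K) →ₛₗ[(FiniteField.frobeniusAlgHom k K : K →+* K)] (σ → K) where
  toFun v := fun i => v i ^ Fintype.card k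
  map_add' v w := by
    funext i
    exact map_add (FiniteField.frobeniusAlgHom k K) (v i) (w i)
  map_smul' c v := by
    funext i
    exact map_mul (FiniteField.frobeniusAlgHom k K) c (v i)

theorem frobLin_inj : Function.Injective (frobLin k K σ) := by
  intro v w h
  funext i
  have h1 : v i ^ Fintype.card k = w i ^ Fintype.card k := congrFun h i
  exact (FiniteField.frobeniusAlgHom k K : K →+* K).injective h1

/-- The Frobenius map of the projective space over `K`. -/
noncomputable def frobP : ℙ K (σ → K) → ℙ K (σ → K) :=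
  Projectivization.map (frobLin k K σ) (frobLin_inj k K σ)

end proj

/-! ### Kummer covers -/

/-- A tuple `(a, b)`, `a ≠ 0`, with `b i ^ m = f i (a)`. -/
structure Tup {k : Type*} [Field k] (K : Type*) [Field K] [Algebra k K] {σ ι : Type*}
    (f : ι → MvPolynomial σ k) (m : ℕ) where
  /-- coordinates of a point of projective space -/
  a : σ → K
  /-- roots of the values of the forms `f i` -/
  b : ι → K
  ne : a ≠ 0
  eq : ∀ i, b i ^ m = MvPolynomial.aeval a (f i)

/-- `(a, b)` and `(t ^ m a, t ^ (d i) b i)`, `t ≠ 0`, are the same point. -/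
def TupRel {k : Type*} [Field k] {K : Type*} [Field K] [Algebra k K] {σ ι : Type*}
    {f : ι → MvPolynomial σ k} {m : ℕ} (d : ι → ℕ) (x y : Tup K f m) : Prop :=
  ∃ t : K, t ≠ 0 ∧ (∀ j, y.a j = t ^ m * x.a j) ∧ ∀ i, y.b i = t ^ d i * x.b i

/-- The equivalence relation. -/
def tupSetoid {k : Type*} [Field k] (K : Type*) [Field K] [Algebra k K] {σ ι : Type*}
    (f : ι → MvPolynomial σ k) (m : ℕ) (d : ι → ℕ) : Setoid (Tup K f m) where
  r := TupRel d
  iseqv := by
    refine ⟨fun x => ⟨1, one_ne_zero, by simp, by simp⟩, ?_, ?_⟩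
    · rintro x y ⟨t, ht, h1, h2⟩
      refine ⟨t⁻¹, inv_ne_zero ht, fun j => ?_, fun i => ?_⟩
      · rw [h1, inv_pow, inv_mul_cancel_left₀ (pow_ne_zero _ ht)]
      · rw [h2, inv_pow, inv_mul_cancel_left₀ (pow_ne_zero _ ht)]
    · rintro x y z ⟨t, ht, h1, h2⟩ ⟨u, hu, h3, h4⟩
      refine ⟨u * t, mul_ne_zero hu ht, fun j => ?_, fun i => ?_⟩
      · rw [h3, h1, mul_pow, mul_assoc]
      · rw [h4, h2, mul_pow, mul_assoc]

/-- The points over `K` of the Kummer cover `b i ^ m = f i (a)` of projective space: the complete intersection given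
by these equations in weighted projective space, where the coordinates `a j` have weight `m` and `b i` has weight
`d i`, the degree of `f i`. -/
def Pt {k : Type*} [Field k] (K : Type*) [Field K] [Algebra k K] {σ ι : Type*}
    (f : ι → MvPolynomial σ k) (m : ℕ) (d : ι → ℕ) : Type _ := Quotient (tupSetoid K f m d)

section frob

variable {k : Type*} [Field k] [Fintype k] {K : Type*} [Field K] [Algebra k K] {σ ι : Type*}
  {f : ι → MvPolynomial σ k} {m : ℕ} {d : ι → ℕ}

theorem aeval_pow_card (a : σ → K) (P : MvPolynomial σ k) :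
    MvPolynomial.aeval (fun j => a j ^ Fintype.card k) P =
      (MvPolynomial.aeval a P) ^ Fintype.card k := by
  have h := MvPolynomial.comp_aeval_apply (f := a) (FiniteField.frobeniusAlgHom k K) P
  exact h.symm

/-- The Frobenius map `(a, b) ↦ (a ^ q, b ^ q)` on tuples. -/
def Tup.frob (x : Tup K f m) : Tup K f m where
  a := fun j => x.a j ^ Fintype.card k
  b := fun i => x.b i ^ Fintype.card k
  ne := by
    intro h
    apply x.ne
    funext j
    exact (pow_eq_zero_iff Fintype.card_ne_zero).1 (congrFun h j)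
  eq := fun i => by rw [aeval_pow_card, ← x.eq i, ← pow_mul, ← pow_mul, mul_comm]

variable (k K f m d) in
/-- The Frobenius map on the points of the Kummer cover. -/
def frobX : Pt K f m d → Pt K f m d :=
  Quotient.map (sa := tupSetoid K f m d) (sb := tupSetoid K f m d) Tup.frob (by
    rintro x y ⟨t, ht, h1, h2⟩
    refine ⟨t ^ Fintype.card k, pow_ne_zero _ ht, fun j => ?_, fun i => ?_⟩
    · change y.a j ^ Fintype.card k = _ * x.a j ^ Fintype.card k
      rw [h1, mul_pow, ← pow_mul, ← pow_mul, mul_comm m]
    · change y.b i ^ Fintype.card k = _ * x.b i ^ Fintype.card k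
      rw [h2, mul_pow, ← pow_mul, ← pow_mul, mul_comm (d i)])

/-- The projection `(a, b) ↦ a` to projective space. -/
noncomputable def prj : Pt K f m d → ℙ K (σ → K) :=
  Quotient.lift (s := tupSetoid K f m d) (fun x => Projectivization.mk K x.a x.ne) (by
    rintro x y ⟨t, ht, h1, h2⟩
    rw [Projectivization.mk_eq_mk_iff']
    refine ⟨(t ^ m)⁻¹, ?_⟩
    funext j
    rw [Pi.smul_apply, smul_eq_mul, h1, inv_mul_cancel_left₀ (pow_ne_zero _ ht)])

end frob

/-! ### Hypersurfaces, curves and surfaces -/

/-- The hypersurface `f = 0`. -/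
def zeros {k : Type*} [Field k] (K : Type*) [Field K] [Algebra k K] {σ : Type*}
    (f : MvPolynomial σ k) : Set (ℙ K (σ → K)) := {P | MvPolynomial.aeval P.rep f = 0}

section tri

variable (k : Type*) [Field k] [Fintype k] (K : Type*) [Field K] [Algebra k K] {σ : Type*}

/-- `L` is the numerator of the zeta function of the curve `A`: `Z(T) = L(T) / ((1 - T) (1 - q T))`. For a smooth
projective geometrically connected curve `L(1)` is the class number, the number of points of the Jacobian over
`k`. -/
def IsNumerator (A : Set (ℙ K (σ → K))) (L : Polynomial ℤ) : Prop :=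
  L.coeff 0 = 1 ∧ ∃ Q : PowerSeries ℤ, IsEul (nOrb (frobP k K σ) A) Q ∧
    Q * (L : PowerSeries ℤ) =
      (1 - PowerSeries.X) * (1 - PowerSeries.C (Fintype.card k : ℤ) * PowerSeries.X)

/-- For a surface with `b d` closed points of degree `d` and Frobenius map over the field with `q` elements:
`Z(T) = 1 / ((1 - T) (1 - q T) R(T) (1 - q ^ 2 T))`. If the surface is smooth, projective, with first Betti number
`0`, the zeta function has this form, and `R` is the characteristic polynomial `det(1 - F T)` of the Frobenius on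
the second cohomology without the class of the hyperplane section. -/
def IsPrimitivePart (q : ℕ) (b : ℕ → ℕ) (R : Polynomial ℤ) : Prop :=
  R.coeff 0 = 1 ∧ IsEul b
    ((1 - PowerSeries.X) * (1 - PowerSeries.C (q : ℤ) * PowerSeries.X) *
      (R : PowerSeries ℤ) * (1 - PowerSeries.C ((q : ℤ) ^ 2) * PowerSeries.X))

end tri

/-! ### Pole orders modulo `ℓ` -/

/-- The zeta function `∏ (1 - T ^ d) ^ (-b d)` modulo `ℓ` is a rational function with a pole of order exactly `r`
at `T = 1`: its inverse is `(1 - T) ^ r A / B` with polynomials `A`, `B` modulo `ℓ` that do not vanish at `1`. -/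
def PoleOrder (ℓ : ℕ) (b : ℕ → ℕ) (r : ℕ) : Prop :=
  ∃ (Q : PowerSeries (ZMod ℓ)) (A B : Polynomial (ZMod ℓ)), IsEul b Q ∧ A.eval 1 ≠ 0 ∧ B.eval 1 ≠ 0 ∧
    Q * (B : PowerSeries (ZMod ℓ)) =
      (((1 - Polynomial.X) ^ r * A : Polynomial (ZMod ℓ)) : PowerSeries (ZMod ℓ))

/-- `N + 1` forms `f i` over `k`, of degrees `d i` prime to `ℓ`, on a Frobenius-stable subset `Y` of projective space,
without common zero on `Y`, such that each of the sets `Y ∩ {f i = 0 for i ∈ I}` has a zeta function whose reduction
modulo `ℓ` has a pole of order exactly `N + 1 - |I|` at `T = 1`. -/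
structure Simplex (k : Type*) [Field k] [Fintype k] (K : Type*) [Field K] [Algebra k K] {σ : Type*}
    (ℓ N : ℕ) (Y : Set (ℙ K (σ → K))) (f : Fin (N + 1) → MvPolynomial σ k) (d : Fin (N + 1) → ℕ) :
    Prop where
  stable : ∀ P ∈ Y, frobP k K σ P ∈ Y
  homog : ∀ i, (f i).IsHomogeneous (d i)
  coprime : ∀ i, Nat.Coprime (d i) ℓ
  empty : ∀ P ∈ Y, ∃ i, P ∉ zeros K (f i)
  pole : ∀ I : Finset (Fin (N + 1)), I ≠ Finset.univ →
    PoleOrder ℓ (nOrb (frobP k K σ) {P | P ∈ Y ∧ ∀ i ∈ I, P ∈ zeros K (f i)}) (N + 1 - I.card)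

/-! ### Tate classes -/

/-- Let `φ` be an element of a group `Γ` acting on a finite dimensional vector space `V` over a field of
characteristic `0` such that `det(1 - φ T) = R(T)`, and let `ε` be a character of `Γ` with `ε(φ) = q`. Then no nonzero
vector `v` satisfies `g v = ε(g) v` for all `g` in a subgroup that contains `φ ^ m`. -/
def NoTate (q : ℤ) (R : Polynomial ℤ) (m : ℕ) : Prop :=
  ∀ (E : Type) [Field E] [CharZero E] (V : Type) [AddCommGroup V] [Module E V] [FiniteDimensional E V]
    (Γ : Type) [Group Γ] (ρ : Representation E Γ V) (φ : Γ) (ε : Γ →* E),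
    (ρ φ).charpoly.reverse = R.map (Int.castRingHom E) → ε φ = q →
    ∀ Γ' : Subgroup Γ, φ ^ m ∈ Γ' → ∀ v : V, (∀ g ∈ Γ', ρ g v = ε g • v) → v = 0

/-- The functional equation `R(T) = s (q T) ^ D R(1 / (q ^ 2 T))`, `D` the degree of `R`, with a sign `s`. -/
def FunctionalEquation (q : ℤ) (R : Polynomial ℤ) : Prop :=
  ∃ s : ℤ, (s = 1 ∨ s = -1) ∧
    ∀ i ≤ R.natDegree, q ^ (R.natDegree - i) * R.coeff i = s * (q ^ i * R.coeff (R.natDegree - i))

/-- The numbers of closed points of the double plane `w ^ 2 = f`, `f` a form of degree `2 e` in three variables. -/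
noncomputable def doublePlane (k : Type*) [Field k] [Fintype k] (K : Type*) [Field K] [Algebra k K] (e : ℕ)
    (f : MvPolynomial (Fin 3) k) : ℕ → ℕ :=
  nOrb (frobX k K (fun _ : Unit => f) 2 (fun _ => 2 * e)) Set.univ

/-- For a variety of dimension `N` with `b d` closed points of degree `d` over the field with `q` elements:
`Z(T) ^ (-1) = R(T) ^ ((-1) ^ N) (1 - T) (1 - q T) ⋯ (1 - q ^ N T)`. If the variety is smooth and projective and its
cohomology in the degrees different from `N` is that of projective space (as for complete intersections), the zeta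
function has this form, and `R` is the characteristic polynomial `det(1 - F T)` of the Frobenius on the primitive
part of the cohomology in degree `N`. -/
def IsPrimitive (q N : ℕ) (b : ℕ → ℕ) (R : Polynomial ℤ) : Prop :=
  R.coeff 0 = 1 ∧ ∃ Q : PowerSeries ℤ, IsEul b Q ∧
    (Even N → Q = (R : PowerSeries ℤ) *
      ∏ j ∈ Finset.range (N + 1), (1 - PowerSeries.C ((q : ℤ) ^ j) * PowerSeries.X)) ∧
    (Odd N → Q * (R : PowerSeries ℤ) =
      ∏ j ∈ Finset.range (N + 1), (1 - PowerSeries.C ((q : ℤ) ^ j) * PowerSeries.X))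

end Pool.Agent.K9h8.Kum
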