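import Pool.Agent.K9h8.Kum.Orb

/-!
# Euler products as power series
-/

set_option autoImplicit false

namespace Pool.Agent.K9h8.Kum

open PowerSeries

section basic

variable {R : Type*} [CommRing R]

theorem one_sub_pow_cong (D b : ℕ) : (X : PowerSeries R) ^ D ∣ (1 - X ^ D) ^ b - 1 := by
  have h := sub_dvd_pow_sub_pow (1 - (X : PowerSeries R) ^ D) 1 b
  rw [one_pow] at h
  refine Dvd.dvd.trans ?_ h
  rw [sub_sub_cancel_left]
  exact (dvd_neg).2 dvd_rfl

theorem eulM_succ (b : ℕ → ℕ) (M : ℕ) :
    eulM R b (M + 1) = eulM R b M * (1 - X ^ (M + 1)) ^ (b (M + 1)) := by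
  unfold eulM
  rw [Finset.prod_Icc_succ_top (by omega)]

theorem eulM_le (b : ℕ → ℕ) {M M' : ℕ} (h : M ≤ M') :
    (X : PowerSeries R) ^ (M + 1) ∣ eulM R b M' - eulM R b M := by
  induction M', h using Nat.le_induction with
  | base => simp
  | succ k hk ih =>
    have h1 : eulM R b (k + 1) - eulM R b M = eulM R b k * ((1 - X ^ (k + 1)) ^ (b (k + 1)) - 1) +
        (eulM R b k - eulM R b M) := by
      rw [eulM_succ]; ring
    rw [h1]
    refine dvd_add ?_ ih
    refine Dvd.dvd.mul_left ?_ _
    exact (pow_dvd_pow _ (by omega)).trans (one_sub_pow_cong (k + 1) (b (k + 1)))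

/-- The infinite product. -/
noncomputable def eul (R : Type*) [CommRing R] (b : ℕ → ℕ) : PowerSeries R :=
  PowerSeries.mk fun n => coeff n (eulM R b n)

theorem coeff_eq_of_dvd {f g : PowerSeries R} {M n : ℕ} (h : (X : PowerSeries R) ^ M ∣ f - g)
    (hn : n < M) : coeff n f = coeff n g := by
  have := (PowerSeries.X_pow_dvd_iff.1 h) n hn
  rw [map_sub, sub_eq_zero] at this
  exact this

theorem isEul_eul (b : ℕ → ℕ) : IsEul b (eul R b) := by
  intro M
  rw [PowerSeries.X_pow_dvd_iff]
  intro m hm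
  rw [map_sub, eul, PowerSeries.coeff_mk, sub_eq_zero]
  exact (coeff_eq_of_dvd (eulM_le b (show m ≤ M by omega)) (Nat.lt_succ_self m)).symm

theorem IsEul.unique {b : ℕ → ℕ} {Q Q' : PowerSeries R} (h : IsEul b Q) (h' : IsEul b Q') :
    Q = Q' := by
  ext n
  have h1 : (X : PowerSeries R) ^ (n + 1) ∣ Q - Q' := by
    have := dvd_sub (h n) (h' n)
    rwa [sub_sub_sub_cancel_right] at this
  exact coeff_eq_of_dvd h1 (Nat.lt_succ_self n)

theorem IsEul.congr {b b' : ℕ → ℕ} {Q : PowerSeries R} (h : IsEul b Q)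
    (hb : ∀ d, 1 ≤ d → b d = b' d) : IsEul b' Q := by
  intro M
  have : eulM R b' M = eulM R b M := by
    unfold eulM
    refine Finset.prod_congr rfl fun d hd => ?_
    rw [hb d (Finset.mem_Icc.1 hd).1]
  rw [this]
  exact h M

theorem IsEul.mul {b b' : ℕ → ℕ} {Q Q' : PowerSeries R} (h : IsEul b Q) (h' : IsEul b' Q') :
    IsEul (fun d => b d + b' d) (Q * Q') := by
  intro M
  have h1 : eulM R (fun d => b d + b' d) M = eulM R b M * eulM R b' M := by
    unfold eulM
    rw [← Finset.prod_mul_distrib]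
    refine Finset.prod_congr rfl fun d _ => ?_
    rw [pow_add]
  rw [h1]
  have h2 : Q * Q' - eulM R b M * eulM R b' M = (Q - eulM R b M) * Q' +
      eulM R b M * (Q' - eulM R b' M) := by ring
  rw [h2]
  exact dvd_add ((h M).mul_right _) ((h' M).mul_left _)

theorem isEul_zero : IsEul (fun _ => 0) (1 : PowerSeries R) := by
  intro M
  simp [eulM]

theorem IsEul.prod {ι : Type*} (s : Finset ι) {b : ι → ℕ → ℕ} {Q : ι → PowerSeries R}
    (h : ∀ i ∈ s, IsEul (b i) (Q i)) : IsEul (fun d => ∑ i ∈ s, b i d) (∏ i ∈ s, Q i) := by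
  classical
  induction s using Finset.induction_on with
  | empty => simpa using isEul_zero
  | insert a s ha ih =>
    rw [Finset.prod_insert ha]
    refine (IsEul.mul (h a (Finset.mem_insert_self _ _))
      (ih fun i hi => h i (Finset.mem_insert_of_mem hi))).congr fun d _ => ?_
    rw [Finset.sum_insert ha]

theorem IsEul.map {R' : Type*} [CommRing R'] (f : R →+* R') {b : ℕ → ℕ} {Q : PowerSeries R}
    (h : IsEul b Q) : IsEul b (PowerSeries.map f Q) := by
  intro M
  obtain ⟨c, hc⟩ := h M
  refine ⟨PowerSeries.map f c, ?_⟩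
  have h1 : PowerSeries.map f (eulM R b M) = eulM R' b M := by
    unfold eulM
    rw [map_prod]
    refine Finset.prod_congr rfl fun d _ => ?_
    rw [map_pow, map_sub, map_one, map_pow, PowerSeries.map_X]
  rw [← h1, ← map_sub, hc, map_mul, map_pow, PowerSeries.map_X]

end basic

/-! ### the logarithmic derivative -/

section log

variable {R : Type*} [CommRing R]

/-- `X d/dX`. -/
noncomputable def th (Q : PowerSeries R) : PowerSeries R := PowerSeries.mk fun n => (n : R) * coeff n Q

theorem th_mul (P Q : PowerSeries R) : th (P * Q) = th P * Q + P * th Q := by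
  ext n
  rw [th, PowerSeries.coeff_mk, map_add, PowerSeries.coeff_mul, PowerSeries.coeff_mul,
    PowerSeries.coeff_mul, Finset.mul_sum, ← Finset.sum_add_distrib]
  refine Finset.sum_congr rfl fun ij hij => ?_
  rw [th, th, PowerSeries.coeff_mk, PowerSeries.coeff_mk]
  have : (n : R) = ij.1 + ij.2 := by
    rw [← Finset.HasAntidiagonal.mem_antidiagonal.1 hij]; push_cast; ring
  rw [this]; ring

theorem th_one : th (1 : PowerSeries R) = 0 := by
  ext n
  rw [th, PowerSeries.coeff_mk, PowerSeries.coeff_one, map_zero]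
  split_ifs with h
  · subst h; simp
  · simp

/-- `Q` has the logarithmic derivative `- C`. -/
def LD (Q C : PowerSeries R) : Prop := th Q = -(Q * C)

theorem LD.mul {Q C Q' C' : PowerSeries R} (h : LD Q C) (h' : LD Q' C') : LD (Q * Q') (C + C') := by
  unfold LD at *
  rw [th_mul, h, h']; ring

theorem LD.one : LD (1 : PowerSeries R) 0 := by
  unfold LD
  rw [th_one]; simp

theorem LD.pow {Q C : PowerSeries R} (h : LD Q C) (n : ℕ) : LD (Q ^ n) ((n : PowerSeries R) * C) := by
  induction n with
  | zero => simpa using LD.one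
  | succ n ih =>
    have := ih.mul h
    rw [pow_succ]
    convert this using 1
    push_cast; ring

theorem LD.prod {ι : Type*} (s : Finset ι) {Q C : ι → PowerSeries R} (h : ∀ i ∈ s, LD (Q i) (C i)) :
    LD (∏ i ∈ s, Q i) (∑ i ∈ s, C i) := by
  classical
  induction s using Finset.induction_on with
  | empty => simpa using LD.one
  | insert a s ha ih =>
    rw [Finset.prod_insert ha, Finset.sum_insert ha]
    exact (h a (Finset.mem_insert_self _ _)).mul (ih fun i hi => h i (Finset.mem_insert_of_mem hi))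

theorem LD_basic {d : ℕ} (hd : 1 ≤ d) : LD (1 - (X : PowerSeries R) ^ d)
    (PowerSeries.mk fun n => if 1 ≤ n ∧ d ∣ n then (d : R) else 0) := by
  unfold LD
  ext n
  rw [th, PowerSeries.coeff_mk, map_neg, sub_mul, one_mul, map_sub, map_sub, PowerSeries.coeff_one,
    PowerSeries.coeff_X_pow, PowerSeries.coeff_mk, PowerSeries.coeff_X_pow_mul']
  by_cases h1 : d ≤ n
  · rw [if_pos h1, PowerSeries.coeff_mk]
    have hn0 : n ≠ 0 := by omega
    by_cases h2 : n = d
    · subst h2
      simp [hn0, hd]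
    · have h3 : 1 ≤ n - d := by omega
      have h4 : d ∣ n - d ↔ d ∣ n := by
        constructor
        · intro h
          have := dvd_add h (dvd_refl d)
          rwa [Nat.sub_add_cancel h1] at this
        · intro h
          exact Nat.dvd_sub h (dvd_refl d)
      simp only [hn0, h2, if_false, h3, true_and, h4, show 1 ≤ n by omega]
      simp
  · rw [if_neg h1]
    by_cases h0 : n = 0
    · subst h0
      simp
    · have h2 : n ≠ d := by omega
      have h3 : ¬ d ∣ n := fun h => h1 (Nat.le_of_dvd (by omega) h)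
      simp [h0, h2, h3]

theorem LD_one_sub_mul (a : R) : LD (1 - PowerSeries.C a * (X : PowerSeries R))
    (PowerSeries.mk fun n => if 1 ≤ n then a ^ n else 0) := by
  unfold LD
  ext n
  rw [th, PowerSeries.coeff_mk, map_neg, sub_mul, one_mul, map_sub, map_sub, PowerSeries.coeff_one,
    PowerSeries.coeff_C_mul, PowerSeries.coeff_X, PowerSeries.coeff_mk, mul_assoc,
    PowerSeries.coeff_C_mul]
  rcases n with _ | _ | n
  · simp
  · rw [PowerSeries.coeff_succ_X_mul]
    simp
  · rw [PowerSeries.coeff_succ_X_mul, PowerSeries.coeff_mk]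
    simp [pow_succ]
    ring

theorem LD_eulM (b : ℕ → ℕ) (M : ℕ) : LD (eulM R b M)
    (PowerSeries.mk fun n => if 1 ≤ n then
      ∑ d ∈ n.divisors.filter (· ≤ M), (d : R) * b d else 0) := by
  have h := LD.prod (Finset.Icc 1 M) (Q := fun d => (1 - (X : PowerSeries R) ^ d) ^ (b d))
    (C := fun d => (b d : PowerSeries R) *
      (PowerSeries.mk fun n => if 1 ≤ n ∧ d ∣ n then (d : R) else 0))
    (fun d hd => (LD_basic (Finset.mem_Icc.1 hd).1).pow (b d))
  unfold eulM
  convert h using 1
  ext n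
  rw [PowerSeries.coeff_mk, map_sum]
  have hb : ∀ d : ℕ, (b d : PowerSeries R) = PowerSeries.C (b d : R) := by
    intro d
    rw [map_natCast]
  simp only [hb, PowerSeries.coeff_C_mul, PowerSeries.coeff_mk]
  split_ifs with hn
  · have : ∀ d ∈ Finset.Icc 1 M, ((b d : R) * if 1 ≤ n ∧ d ∣ n then (d : R) else 0) =
        if d ∣ n then (d : R) * b d else 0 := by
      intro d _
      by_cases h1 : d ∣ n
      · simp [hn, h1, mul_comm]
      · simp [h1]
    rw [Finset.sum_congr rfl this, ← Finset.sum_filter]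
    refine Finset.sum_congr ?_ fun _ _ => rfl
    ext d
    rw [Finset.mem_filter, Finset.mem_filter, Finset.mem_Icc, Nat.mem_divisors]
    constructor
    · rintro ⟨⟨h1, h2⟩, h3⟩
      exact ⟨⟨Nat.pos_of_dvd_of_pos h1 (by omega), h3⟩, h1⟩
    · rintro ⟨⟨h1, h2⟩, h3⟩
      exact ⟨⟨h3, by omega⟩, h2⟩
  · symm
    refine Finset.sum_eq_zero fun d _ => ?_
    simp [hn]

theorem th_cong {P Q : PowerSeries R} {M : ℕ} (h : (X : PowerSeries R) ^ M ∣ P - Q) :
    (X : PowerSeries R) ^ M ∣ th P - th Q := by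
  rw [PowerSeries.X_pow_dvd_iff] at *
  intro m hm
  have := h m hm
  rw [map_sub, sub_eq_zero] at *
  rw [th, th, PowerSeries.coeff_mk, PowerSeries.coeff_mk, this]

theorem LD_eul (b : ℕ → ℕ) : LD (eul R b)
    (PowerSeries.mk fun n => if 1 ≤ n then ∑ d ∈ n.divisors, (d : R) * b d else 0) := by
  unfold LD
  ext n
  have h1 := isEul_eul (R := R) b n
  rw [coeff_eq_of_dvd (th_cong h1) (Nat.lt_succ_self n), LD_eulM, map_neg, map_neg, neg_inj]
  have h2 : (X : PowerSeries R) ^ (n + 1) ∣ eul R b * (PowerSeries.mk fun n => if 1 ≤ n then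
      ∑ d ∈ n.divisors, (d : R) * b d else 0) - eulM R b n * (PowerSeries.mk fun k => if 1 ≤ k then
      ∑ d ∈ k.divisors.filter (· ≤ n), (d : R) * b d else 0) := by
    have h3 : ∀ a a' c c' : PowerSeries R, a * c - a' * c' = (a - a') * c + a' * (c - c') := by
      intros; ring
    rw [h3]
    refine dvd_add (h1.mul_right _) (Dvd.dvd.mul_left ?_ _)
    rw [PowerSeries.X_pow_dvd_iff]
    intro m hm
    rw [map_sub, PowerSeries.coeff_mk, PowerSeries.coeff_mk, sub_eq_zero]
    split_ifs with h4
    · refine Finset.sum_congr ?_ fun _ _ => rfl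
      ext d
      rw [Finset.mem_filter, Nat.mem_divisors]
      constructor
      · rintro ⟨h5, h6⟩
        exact ⟨⟨h5, h6⟩, (Nat.le_of_dvd (by omega) h5).trans (by omega)⟩
      · rintro ⟨h5, -⟩
        exact h5
    · rfl
  exact (coeff_eq_of_dvd h2 (Nat.lt_succ_self n)).symm

/-- A series with constant term `1` is determined by its logarithmic derivative. -/
theorem LD.unique {Q Q' C : PowerSeries ℤ} (h : LD Q C) (h' : LD Q' C) (hC : coeff 0 C = 0)
    (h0 : coeff 0 Q = 1) (h0' : coeff 0 Q' = 1) : Q = Q' := by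
  ext n
  induction n using Nat.strong_induction_on with
  | _ n ih =>
    rcases Nat.eq_zero_or_pos n with h1 | h1
    · subst h1
      rw [h0, h0']
    · have k : coeff n (Q * C) = coeff n (Q' * C) := by
        rw [PowerSeries.coeff_mul, PowerSeries.coeff_mul]
        refine Finset.sum_congr rfl fun ij hij => ?_
        have h2 := Finset.HasAntidiagonal.mem_antidiagonal.1 hij
        rcases Nat.eq_zero_or_pos ij.2 with h3 | h3
        · rw [h3, hC, mul_zero, mul_zero]
        · rw [ih ij.1 (by omega)]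
      have e1 := congrArg (coeff n) h
      have e2 := congrArg (coeff n) h'
      rw [th, PowerSeries.coeff_mk, map_neg] at e1 e2
      rw [k, ← e2] at e1
      have hn : (n : ℤ) ≠ 0 := by exact_mod_cast h1.ne'
      exact mul_left_cancel₀ hn e1

theorem coeff_zero_eul (b : ℕ → ℕ) : coeff 0 (eul R b) = 1 := by
  rw [eul, PowerSeries.coeff_mk]
  simp [eulM]

/-- The Euler product from the numbers of points. -/
theorem isEul_of_counts {b : ℕ → ℕ} {Q : PowerSeries ℤ} {c : ℕ → ℤ} (h0 : coeff 0 Q = 1)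
    (hc : ∀ n, 1 ≤ n → ((∑ d ∈ n.divisors, d * b d : ℕ) : ℤ) = c n)
    (h : LD Q (PowerSeries.mk fun n => if 1 ≤ n then c n else 0)) : IsEul b Q := by
  have h1 := LD_eul (R := ℤ) b
  have h2 : (PowerSeries.mk fun n => if 1 ≤ n then ∑ d ∈ n.divisors, ((d : ℕ) : ℤ) * b d else 0) =
      PowerSeries.mk fun n => if 1 ≤ n then c n else 0 := by
    ext n
    rw [PowerSeries.coeff_mk, PowerSeries.coeff_mk]
    split_ifs with h3
    · rw [← hc n h3]
      push_cast
      rfl
    · rfl
  rw [h2] at h1
  have := LD.unique h h1 (by rw [PowerSeries.coeff_mk]; simp) h0 (coeff_zero_eul b)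
  rw [this]
  exact isEul_eul b

end log

end Pool.Agent.K9h8.Kum
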