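import Pool.Agent.K9h8.Kum.Main
import Pool.Agent.K9h8.Kum.Root

/-!
# Three plane curves
-/

set_option autoImplicit false

namespace Pool.Agent.K9h8.Kum

open Function
open scoped LinearAlgebra.Projectivization

section tri

variable (k : Type*) [Field k] [Fintype k] (K : Type*) [Field K] [Algebra k K] {σ : Type*}

/-- `Y` is a surface in projective space over `k`, and the three forms `f i` over `k`, of degrees `d i` prime to `ℓ`,
have no common zero on `Y`; `ℓ` divides neither the value at `1` of the primitive part of the zeta function of `Y`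
nor the class numbers of the curves `f i = 0` on `Y`; and each two of these curves meet in exactly one closed point,
whose degree is prime to `ℓ`. -/
structure Triangle (ℓ : ℕ) (Y : Set (ℙ K (σ → K))) (f : Fin 3 → MvPolynomial σ k) (d : Fin 3 → ℕ) :
    Prop where
  stable : ∀ P ∈ Y, frobP k K σ P ∈ Y
  homog : ∀ i, (f i).IsHomogeneous (d i)
  coprime : ∀ i, Nat.Coprime (d i) ℓ
  empty : ∀ P ∈ Y, ∃ i, P ∉ zeros K (f i)
  surface : ∃ R : Polynomial ℤ, IsPrimitivePart (Fintype.card k) (nOrb (frobP k K σ) Y) R ∧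
    ¬ (ℓ : ℤ) ∣ R.eval 1
  class_number : ∀ i, ∃ L : Polynomial ℤ, IsNumerator k K (Y ∩ zeros K (f i)) L ∧
    ¬ (ℓ : ℤ) ∣ L.eval 1
  meet : ∀ i j, i ≠ j → ∃ P : ℙ K (σ → K), 1 ≤ minimalPeriod (frobP k K σ) P ∧
    Nat.Coprime (minimalPeriod (frobP k K σ) P) ℓ ∧
    Y ∩ (zeros K (f i) ∩ zeros K (f j)) = orb (frobP k K σ) P

end tri

section ring

variable {ℓ : ℕ} [Fact ℓ.Prime]

/-- The image of `1 - q ^ j T` modulo `ℓ`. -/
theorem map_factor {q : ℤ} (hq : (ℓ : ℤ) ∣ q - 1) (j : ℕ) :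
    PowerSeries.map (Int.castRingHom (ZMod ℓ)) (1 - PowerSeries.C (q ^ j) * PowerSeries.X) =
      (((1 - Polynomial.X : Polynomial (ZMod ℓ))) : PowerSeries (ZMod ℓ)) := by
  have h1 : ((q : ℤ) : ZMod ℓ) = 1 := by
    have h2 := (ZMod.intCast_zmod_eq_zero_iff_dvd (q - 1) ℓ).2 hq
    push_cast at h2
    exact sub_eq_zero.1 h2
  rw [map_sub, map_one, map_mul, PowerSeries.map_C, PowerSeries.map_X, Polynomial.coe_sub,
    Polynomial.coe_one, Polynomial.coe_X]
  simp [h1]

theorem map_factor_one {q : ℤ} (hq : (ℓ : ℤ) ∣ q - 1) :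
    PowerSeries.map (Int.castRingHom (ZMod ℓ)) (1 - PowerSeries.C q * PowerSeries.X) =
      (((1 - Polynomial.X : Polynomial (ZMod ℓ))) : PowerSeries (ZMod ℓ)) := by
  have := map_factor hq 1
  rwa [pow_one] at this

theorem map_factor_zero :
    PowerSeries.map (Int.castRingHom (ZMod ℓ)) (1 - PowerSeries.X) =
      (((1 - Polynomial.X : Polynomial (ZMod ℓ))) : PowerSeries (ZMod ℓ)) := by
  rw [map_sub, map_one, PowerSeries.map_X, Polynomial.coe_sub, Polynomial.coe_one,
    Polynomial.coe_X]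

theorem map_coe (R : Polynomial ℤ) :
    PowerSeries.map (Int.castRingHom (ZMod ℓ)) (R : PowerSeries ℤ) =
      ((R.map (Int.castRingHom (ZMod ℓ)) : Polynomial (ZMod ℓ)) : PowerSeries (ZMod ℓ)) := by
  rw [Polynomial.polynomial_map_coe]

theorem eval_map_ne {R : Polynomial ℤ} (h : ¬ (ℓ : ℤ) ∣ R.eval 1) :
    (R.map (Int.castRingHom (ZMod ℓ))).eval 1 ≠ 0 := by
  intro h0
  apply h
  rw [← ZMod.intCast_zmod_eq_zero_iff_dvd]
  have h1 : (R.map (Int.castRingHom (ZMod ℓ))).eval (Int.castRingHom (ZMod ℓ) 1) =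
      Int.castRingHom (ZMod ℓ) (R.eval 1) := Polynomial.eval_intCast_map _ _ _
  rw [map_one] at h1
  rw [h1] at h0
  exact h0

theorem not_dvd_of_eval_map_ne {R : Polynomial ℤ}
    (h : (R.map (Int.castRingHom (ZMod ℓ))).eval 1 ≠ 0) : ¬ (ℓ : ℤ) ∣ R.eval 1 := by
  intro h0
  apply h
  rw [← ZMod.intCast_zmod_eq_zero_iff_dvd] at h0
  have h1 : (R.map (Int.castRingHom (ZMod ℓ))).eval (Int.castRingHom (ZMod ℓ) 1) =
      Int.castRingHom (ZMod ℓ) (R.eval 1) := Polynomial.eval_intCast_map _ _ _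
  rw [map_one] at h1
  rw [h1]
  exact h0

/-- The inverse zeta function of a closed point of degree `e`. -/
theorem isEul_point {R : Type*} [CommRing R] {e : ℕ} (he : 1 ≤ e) :
    IsEul (R := R) (fun d => if d = e then 1 else 0) (1 - PowerSeries.X ^ e) := by
  classical
  intro M
  have h1 : eulM R (fun d => if d = e then 1 else 0) M =
      if e ≤ M then 1 - PowerSeries.X ^ e else 1 := by
    unfold eulM
    have h2 : ∀ d ∈ Finset.Icc 1 M, ((1 : PowerSeries R) - PowerSeries.X ^ d) ^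
        (if d = e then 1 else 0) = if d = e then (1 - PowerSeries.X ^ e) else 1 := by
      intro d _
      split_ifs with h
      · rw [h, pow_one]
      · rw [pow_zero]
    rw [Finset.prod_congr rfl h2, Finset.prod_ite_eq']
    simp only [Finset.mem_Icc, he, true_and]
  rw [h1]
  split_ifs with h
  · simp
  · rw [sub_sub_cancel_left, dvd_neg]
    exact pow_dvd_pow _ (by omega)

theorem hasOrd_point {e : ℕ} (he : Nat.Coprime e ℓ) :
    HasOrd ((1 : PowerSeries (ZMod ℓ)) - PowerSeries.X ^ e) 1 := by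
  have h1 : ((1 : PowerSeries (ZMod ℓ)) - PowerSeries.X ^ e) =
      (((1 - Polynomial.X : Polynomial (ZMod ℓ))) : PowerSeries (ZMod ℓ)) *
        ((∑ i ∈ Finset.range e, Polynomial.X ^ i : Polynomial (ZMod ℓ)) : PowerSeries (ZMod ℓ)) := by
    rw [← Polynomial.coe_mul]
    have h2 : (1 - Polynomial.X : Polynomial (ZMod ℓ)) * ∑ i ∈ Finset.range e, Polynomial.X ^ i =
        1 - Polynomial.X ^ e := by
      rw [mul_comm, ← neg_sub Polynomial.X 1, mul_neg, geom_sum_mul]
      ring
    rw [h2, Polynomial.coe_sub, Polynomial.coe_one, Polynomial.coe_pow, Polynomial.coe_X]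
  rw [h1]
  have h3 : HasOrd ((∑ i ∈ Finset.range e, Polynomial.X ^ i : Polynomial (ZMod ℓ)) :
      PowerSeries (ZMod ℓ)) 0 := by
    apply hasOrd_poly
    rw [Polynomial.eval_finsetSum]
    simp only [Polynomial.eval_pow, Polynomial.eval_X, one_pow, Finset.sum_const, Finset.card_range,
      nsmul_eq_mul, mul_one]
    intro h
    rw [ZMod.natCast_eq_zero_iff] at h
    have h4 := Nat.dvd_gcd h (dvd_refl ℓ)
    rw [Nat.Coprime.gcd_eq_one he] at h4
    exact (Fact.out : ℓ.Prime).one_lt.ne' (Nat.dvd_one.1 h4)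
  simpa using hasOrd_one_sub.mul h3

end ring

section

variable {k : Type*} [Field k] [Fintype k] {K : Type*} [Field K] [Algebra k K] [IsAlgClosed K]

variable {σ : Type*} [Fintype σ]

omit [Fintype k] [IsAlgClosed K] in
theorem mem_zeros {f : Fin 3 → MvPolynomial σ k} (i : Fin 3) (P : ℙ K (σ → K)) :
    P ∈ zeros K (f i) ↔ i ∈ van f P := by
  classical
  unfold zeros van
  rw [Set.mem_ofPred_eq, Finset.mem_filter]
  simp

/-- **Main theorem for three curves on a surface.** -/
theorem Triangle.main {ℓ : ℕ} [Fact ℓ.Prime] {Y : Set (ℙ K (σ → K))} {f : Fin 3 → MvPolynomial σ k}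
    {d : Fin 3 → ℕ} (h : Triangle k K ℓ Y f d) (hℓ : (ℓ : ℤ) ∣ (Fintype.card k : ℤ) - 1) (n : ℕ)
    {R : Polynomial ℤ}
    (hR : IsPrimitivePart (Fintype.card k) (nOrb (frobX k K f (ℓ ^ n) d) (prj ⁻¹' Y)) R) :
    ¬ (ℓ : ℤ) ∣ R.eval 1 := by
  classical
  have hℓp : ℓ.Prime := Fact.out
  -- `ℓ` is invertible in `K`
  have hℓK : (ℓ : K) ≠ 0 := by
    obtain ⟨p, hp⟩ := CharP.exists k
    have hp' : Fact p.Prime := ⟨CharP.char_is_prime k p⟩
    have hK : CharP K p := charP_of_injective_algebraMap (algebraMap k K).injective p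
    obtain ⟨r, hr⟩ := FiniteField.card k p
    intro h0
    have h1 : p ∣ ℓ := (CharP.cast_eq_zero_iff K p ℓ).1 h0
    have h2 : p = ℓ := (Nat.prime_dvd_prime_iff_eq hp'.out hℓp).1 h1
    have h3 : (ℓ : ℤ) ∣ (Fintype.card k : ℤ) := by
      rw [hr.2, h2]
      push_cast
      exact dvd_pow_self _ r.2.ne'
    have h4 : (ℓ : ℤ) ∣ 1 := by
      have := dvd_sub h3 hℓ
      rwa [sub_sub_cancel] at this
    exact hℓp.one_lt.ne' (by exact_mod_cast Int.eq_one_of_dvd_one (by positivity) h4)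
  have hm : ((ℓ ^ n : ℕ) : K) ≠ 0 := by
    push_cast
    exact pow_ne_zero _ hℓK
  have hd : ∀ i, Nat.Coprime (d i) (ℓ ^ n) := fun i => Nat.Coprime.pow_right n (h.coprime i)
  have hempty : strat Y f Finset.univ = ∅ := by
    rw [Set.eq_empty_iff_forall_notMem]
    rintro P ⟨hP1, hP2⟩
    obtain ⟨i, hi⟩ := h.empty P hP1
    apply hi
    rw [mem_zeros, hP2]
    exact Finset.mem_univ i
  have hprim : ∀ {b : ℕ → ℕ} {R : Polynomial ℤ} {G : PowerSeries (ZMod ℓ)},
      IsPrimitivePart (Fintype.card k) b R → IsEul b G →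
      G = ((R.map (Int.castRingHom (ZMod ℓ)) : Polynomial (ZMod ℓ)) : PowerSeries (ZMod ℓ)) *
        ((((1 - Polynomial.X : Polynomial (ZMod ℓ))) : PowerSeries (ZMod ℓ)) *
        (((1 - Polynomial.X : Polynomial (ZMod ℓ))) : PowerSeries (ZMod ℓ)) *
        (((1 - Polynomial.X : Polynomial (ZMod ℓ))) : PowerSeries (ZMod ℓ))) := by
    intro b R G hR hG
    rw [hG.unique (hR.2.map (Int.castRingHom (ZMod ℓ)))]
    rw [map_mul, map_mul, map_mul, map_coe, map_factor_zero, map_factor_one hℓ, map_factor hℓ]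
    ring
  have h3X : HasOrd ((((1 - Polynomial.X : Polynomial (ZMod ℓ))) : PowerSeries (ZMod ℓ)) *
      (((1 - Polynomial.X : Polynomial (ZMod ℓ))) : PowerSeries (ZMod ℓ)) *
      (((1 - Polynomial.X : Polynomial (ZMod ℓ))) : PowerSeries (ZMod ℓ))) (1 + 1 + 1) :=
    (hasOrd_one_sub.mul hasOrd_one_sub).mul hasOrd_one_sub
  have hB : ∀ I : Finset (Fin 3), I ≠ Finset.univ → ∀ G : PowerSeries (ZMod ℓ),
      IsEul (nOrb (frobP k K σ) (clos Y f I)) G → HasOrd G (((2 : ℕ) : ℤ) + 1 - I.card) := by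
    intro I hI G hG
    have hcard : I.card ≤ 2 := by
      by_contra hcon
      push Not at hcon
      apply hI
      apply Finset.eq_univ_of_card
      have := Finset.card_le_univ I
      rw [Fintype.card_fin] at *
      omega
    obtain h0 | h0 | h0 : I.card = 0 ∨ I.card = 1 ∨ I.card = 2 := by omega
    · -- the surface
      have hI0 : I = ∅ := Finset.card_eq_zero.1 h0
      subst hI0
      obtain ⟨R', hR', hR'1⟩ := h.surface
      have h2 : clos Y f ∅ = Y := by
        ext P
        simp [clos]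
      rw [h2] at hG
      rw [hprim hR' hG]
      convert (hasOrd_poly (eval_map_ne hR'1)).mul h3X using 1
      simp
    · -- a curve
      obtain ⟨i, rfl⟩ := Finset.card_eq_one.1 h0
      obtain ⟨L, ⟨-, Q, hQ1, hQ2⟩, hL⟩ := h.class_number i
      have h2 : clos Y f {i} = Y ∩ zeros K (f i) := by
        ext P
        simp [clos, mem_zeros]
      rw [h2] at hG
      rw [hG.unique (hQ1.map (Int.castRingHom (ZMod ℓ)))]
      have h3 := congrArg (PowerSeries.map (Int.castRingHom (ZMod ℓ))) hQ2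
      rw [map_mul, map_mul, map_coe, map_factor_zero, map_factor_one hℓ] at h3
      have h4 : HasOrd (PowerSeries.map (Int.castRingHom (ZMod ℓ)) Q *
          ((L.map (Int.castRingHom (ZMod ℓ)) : Polynomial (ZMod ℓ)) : PowerSeries (ZMod ℓ)))
          (1 + 1) := by
        rw [h3]
        exact hasOrd_one_sub.mul hasOrd_one_sub
      have h5 := h4.div (hasOrd_poly (eval_map_ne hL))
      convert h5 using 1
      rw [h0]
      norm_num
    · -- a point
      obtain ⟨i, j, hij, rfl⟩ := Finset.card_eq_two.1 h0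
      obtain ⟨P, hP1, hP2, hP3⟩ := h.meet i j hij
      have h2 : clos Y f {i, j} = orb (frobP k K σ) P := by
        rw [← hP3]
        ext P
        simp [clos, Finset.insert_subset_iff, mem_zeros]
        tauto
      rw [h2] at hG
      have h3 := hG.unique ((isEul_point (R := ZMod ℓ) hP1).congr fun D hD => by
        rw [nOrb_single hP1 rfl rfl])
      rw [h3]
      convert hasOrd_point hP2 using 1
      rw [h0]
      norm_num
  have hQ := isEul_eul (R := ZMod ℓ) (nOrb (frobX k K f (ℓ ^ n) d) (prj ⁻¹' Y))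
  have h1 := hasOrd_cover (N := 2) (k := k) (K := K) h.stable (by simp) hm h.homog hd rfl hℓ hempty
    hB hQ
  rw [hprim hR hQ] at h1
  apply not_dvd_of_eval_map_ne
  exact (h1.div h3X).eval_ne (by norm_num)

/-- The plane. -/
theorem isPrimitivePart_plane :
    IsPrimitivePart (Fintype.card k) (nOrb (frobP k K (Fin 3)) Set.univ) 1 := by
  refine ⟨by simp, ?_⟩
  have h := isEul_proj (k := k) (K := K) (σ := Fin 3)
  convert h using 1
  rw [Fintype.card_fin, Finset.prod_range_succ, Finset.prod_range_succ, Finset.prod_range_one]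
  simp

end

end Pool.Agent.K9h8.Kum
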