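import Pool.Agent.K9h8.Kum.Lin
import Pool.Agent.K9h8.Kum.Tri

/-!
# Two lines and a conic form a triangle (written by helper21)
-/

set_option autoImplicit false

namespace Pool.Agent.K9h8.Kum

open Function
open scoped LinearAlgebra.Projectivization

namespace Ex

variable {k : Type*} [Field k] [Fintype k] {K : Type*} [Field K] [Algebra k K]

/-- the linear form -/
noncomputable def Ln (a b c : k) : MvPolynomial (Fin 3) k :=
  MvPolynomial.C a * MvPolynomial.X 0 + MvPolynomial.C b * MvPolynomial.X 1 +
    MvPolynomial.C c * MvPolynomial.X 2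

/-- the conic -/
noncomputable def Cn (k : Type*) [Field k] : MvPolynomial (Fin 3) k :=
  MvPolynomial.X 1 ^ 2 - MvPolynomial.X 0 * MvPolynomial.X 2

omit [Fintype k] in
theorem ev_ln (a b c : k) (v : Fin 3 → K) : MvPolynomial.aeval v (Ln a b c) =
    algebraMap k K a * v 0 + algebraMap k K b * v 1 + algebraMap k K c * v 2 := by
  simp [Ln]

omit [Fintype k] in
theorem ev_cn (v : Fin 3 → K) : MvPolynomial.aeval v (Cn k) = v 1 ^ 2 - v 0 * v 2 := by
  simp [Cn]

omit [Fintype k] in
theorem hom_ln (a b c : k) : (Ln a b c).IsHomogeneous 1 := by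
  have h : ∀ (x : k) (i : Fin 3),
      (MvPolynomial.C x * MvPolynomial.X i : MvPolynomial (Fin 3) k).IsHomogeneous 1 := fun x i => by
    simpa using (MvPolynomial.isHomogeneous_C (Fin 3) x).mul (MvPolynomial.isHomogeneous_X k i)
  exact ((h a 0).add (h b 1)).add (h c 2)

omit [Fintype k] in
theorem hom_cn : (Cn k).IsHomogeneous 2 := by
  have h1 := (MvPolynomial.isHomogeneous_X k (1 : Fin 3)).pow 2
  have h2 := (MvPolynomial.isHomogeneous_X k (0 : Fin 3)).mul (MvPolynomial.isHomogeneous_X k (2 : Fin 3))
  exact h1.sub h2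

omit [Fintype k] in
theorem mem_zer {f : MvPolynomial (Fin 3) k} {d : ℕ} (hf : f.IsHomogeneous d) (v : Fin 3 → K) (hv : v ≠ 0) :
    Projectivization.mk K v hv ∈ zeros K f ↔ MvPolynomial.aeval v f = 0 := by
  unfold zeros
  show MvPolynomial.aeval (Projectivization.mk K v hv).rep f = 0 ↔ _
  obtain ⟨u, hu⟩ := Projectivization.exists_smul_eq_mk_rep K v hv
  have h1 : (Projectivization.mk K v hv).rep = fun j => (u : K) * v j := by
    rw [← hu]
    rfl
  rw [h1, aeval_smul hf]
  constructor
  · intro h
    rcases mul_eq_zero.1 h with h | h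
    · exact absurd h (pow_ne_zero _ u.ne_zero)
    · exact h
  · intro h
    rw [h, mul_zero]

/-! ### Frobenius -/

theorem fr_add (x y : K) : (x + y) ^ Fintype.card k = x ^ Fintype.card k + y ^ Fintype.card k :=
  map_add (FiniteField.frobeniusAlgHom k K) x y

theorem fr_neg (x : K) : (-x) ^ Fintype.card k = -x ^ Fintype.card k :=
  map_neg (FiniteField.frobeniusAlgHom k K) x

theorem fr_alg (x : k) : (algebraMap k K x) ^ Fintype.card k = algebraMap k K x :=
  (FiniteField.frobeniusAlgHom k K).commutes x

theorem fix_k [IsAlgClosed K] {x : K} (hx : x ^ Fintype.card k = x) : ∃ y : k, algebraMap k K y = x := by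
  have h1 := ncard_fix (k := k) (K := K) (n := 1) le_rfl
  have hfin : {x : K | x ^ (Fintype.card k ^ 1) = x}.Finite := by
    apply Set.finite_of_ncard_ne_zero
    rw [h1]
    exact pow_ne_zero _ Fintype.card_ne_zero
  have h2 : Set.range (algebraMap k K) ⊆ {x : K | x ^ (Fintype.card k ^ 1) = x} := by
    rintro _ ⟨y, rfl⟩
    show (algebraMap k K y) ^ (Fintype.card k ^ 1) = algebraMap k K y
    rw [pow_one]
    exact fr_alg y
  have h3 : (Set.range (algebraMap k K)).ncard = Fintype.card k := by
    rw [← Set.image_univ, Set.ncard_image_of_injective _ (algebraMap k K).injective, Set.ncard_univ,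
      Nat.card_eq_fintype_card]
  have h4 := Set.eq_of_subset_of_ncard_le h2 (by rw [h1, h3, pow_one]) hfin
  have h5 : x ∈ Set.range (algebraMap k K) := by
    rw [h4]
    show x ^ (Fintype.card k ^ 1) = x
    rw [pow_one]
    exact hx
  exact h5

/-! ### Parametrisation of a line -/

/-- the parametrisation -/
noncomputable def cL (K : Type*) [Field K] [Algebra k K] (a b c : k) (v : Fin 2 → K) : Fin 3 → K :=
  ![-(algebraMap k K b * v 0) + -(algebraMap k K c * v 1), algebraMap k K a * v 0, algebraMap k K a * v 1]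

omit [Fintype k] in
theorem cL_smul (a b c : k) (t : K) (v : Fin 2 → K) :
    cL K a b c (fun i => t * v i) = fun j => t ^ 1 * cL K a b c v j := by
  funext j
  fin_cases j
  · show -(algebraMap k K b * (t * v 0)) + -(algebraMap k K c * (t * v 1)) =
      t ^ 1 * (-(algebraMap k K b * v 0) + -(algebraMap k K c * v 1))
    ring
  · show algebraMap k K a * (t * v 0) = t ^ 1 * (algebraMap k K a * v 0)
    ring
  · show algebraMap k K a * (t * v 1) = t ^ 1 * (algebraMap k K a * v 1)
    ring

omit [Fintype k] in
theorem cL_ne {a : k} (ha : a ≠ 0) (b c : k) (v : Fin 2 → K) (hv : v ≠ 0) : cL K a b c v ≠ 0 := by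
  have hA : algebraMap k K a ≠ 0 := by
    rw [Ne, map_eq_zero]
    exact ha
  intro h
  apply hv
  have h1 : algebraMap k K a * v 0 = 0 := congrFun h 1
  have h2 : algebraMap k K a * v 1 = 0 := congrFun h 2
  funext i
  fin_cases i
  · exact (mul_eq_zero.1 h1).resolve_left hA
  · exact (mul_eq_zero.1 h2).resolve_left hA

theorem cL_frob (a b c : k) (v : Fin 2 → K) : cL K a b c (fun i => v i ^ Fintype.card k) =
    fun j => cL K a b c v j ^ Fintype.card k := by
  funext j
  fin_cases j
  · show -(algebraMap k K b * v 0 ^ Fintype.card k) + -(algebraMap k K c * v 1 ^ Fintype.card k) =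
      (-(algebraMap k K b * v 0) + -(algebraMap k K c * v 1)) ^ Fintype.card k
    rw [fr_add, fr_neg, fr_neg, mul_pow, mul_pow, fr_alg, fr_alg]
  · show algebraMap k K a * v 0 ^ Fintype.card k = (algebraMap k K a * v 0) ^ Fintype.card k
    rw [mul_pow, fr_alg]
  · show algebraMap k K a * v 1 ^ Fintype.card k = (algebraMap k K a * v 1) ^ Fintype.card k
    rw [mul_pow, fr_alg]

theorem line_num [IsAlgClosed K] {a : k} (ha : a ≠ 0) (b c : k) :
    IsEul (nOrb (frobP k K (Fin 3)) (zeros K (Ln a b c)))
      ((1 - PowerSeries.X) * (1 - PowerSeries.C (Fintype.card k : ℤ) * PowerSeries.X) : PowerSeries ℤ) := by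
  have hA : algebraMap k K a ≠ 0 := by
    rw [Ne, map_eq_zero]
    exact ha
  refine isEul_of_param (pmap (cL K a b c) 1 (cL_smul a b c) (cL_ne ha b c))
    (pmap_frob _ _ _ _ (cL_frob a b c)) ?_ _ ?_
  · intro P Q h
    induction P using Projectivization.ind with
    | h u hu =>
      induction Q using Projectivization.ind with
      | h v hv =>
        rw [pmap_mk, pmap_mk, Projectivization.mk_eq_mk_iff'] at h
        obtain ⟨t, ht⟩ := h
        rw [Projectivization.mk_eq_mk_iff']
        refine ⟨t, ?_⟩
        have h1 : t * (algebraMap k K a * v 0) = algebraMap k K a * u 0 := congrFun ht 1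
        have h2 : t * (algebraMap k K a * v 1) = algebraMap k K a * u 1 := congrFun ht 2
        funext i
        fin_cases i
        · show t * v 0 = u 0
          exact mul_left_cancel₀ hA (by linear_combination h1)
        · show t * v 1 = u 1
          exact mul_left_cancel₀ hA (by linear_combination h2)
  · ext P
    constructor
    · intro hP
      induction P using Projectivization.ind with
      | h v hv =>
        rw [mem_zer (hom_ln a b c), ev_ln] at hP
        have hne : (fun i : Fin 2 => v i.succ) ≠ 0 := by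
          intro h0
          have h1 : v 1 = 0 := congrFun h0 0
          have h2 : v 2 = 0 := congrFun h0 1
          apply hv
          rw [h1, h2, mul_zero, mul_zero, add_zero, add_zero] at hP
          have h3 := (mul_eq_zero.1 hP).resolve_left hA
          funext i
          fin_cases i
          · exact h3
          · exact h1
          · exact h2
        refine ⟨Projectivization.mk K (fun i : Fin 2 => v i.succ) hne, ?_⟩
        rw [pmap_mk, Projectivization.mk_eq_mk_iff']
        refine ⟨algebraMap k K a, ?_⟩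
        funext i
        fin_cases i
        · show algebraMap k K a * v 0 = -(algebraMap k K b * v 1) + -(algebraMap k K c * v 2)
          linear_combination hP
        · rfl
        · rfl
    · rintro ⟨Q, rfl⟩
      induction Q using Projectivization.ind with
      | h v hv =>
        rw [pmap_mk, mem_zer (hom_ln a b c), ev_ln]
        show algebraMap k K a * (-(algebraMap k K b * v 0) + -(algebraMap k K c * v 1)) +
          algebraMap k K b * (algebraMap k K a * v 0) + algebraMap k K c * (algebraMap k K a * v 1) = 0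
        ring

/-! ### Parametrisation of the conic -/

/-- the parametrisation -/
def cC (K : Type*) [Field K] (v : Fin 2 → K) : Fin 3 → K := ![v 0 ^ 2, v 0 * v 1, v 1 ^ 2]

theorem cC_smul (K : Type*) [Field K] (t : K) (v : Fin 2 → K) :
    cC K (fun i => t * v i) = fun j => t ^ 2 * cC K v j := by
  funext j
  fin_cases j
  · show (t * v 0) ^ 2 = t ^ 2 * v 0 ^ 2
    ring
  · show (t * v 0) * (t * v 1) = t ^ 2 * (v 0 * v 1)
    ring
  · show (t * v 1) ^ 2 = t ^ 2 * v 1 ^ 2
    ring

theorem cC_ne (K : Type*) [Field K] (v : Fin 2 → K) (hv : v ≠ 0) : cC K v ≠ 0 := by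
  intro h
  apply hv
  have h1 : v 0 ^ 2 = 0 := congrFun h 0
  have h2 : v 1 ^ 2 = 0 := congrFun h 2
  funext i
  fin_cases i
  · exact pow_eq_zero_iff two_ne_zero |>.1 h1
  · exact pow_eq_zero_iff two_ne_zero |>.1 h2

theorem cC_frob (k : Type*) [Field k] [Fintype k] (K : Type*) [Field K] [Algebra k K] (v : Fin 2 → K) :
    cC K (fun i => v i ^ Fintype.card k) = fun j => cC K v j ^ Fintype.card k := by
  funext j
  fin_cases j
  · show (v 0 ^ Fintype.card k) ^ 2 = (v 0 ^ 2) ^ Fintype.card k
    rw [← pow_mul, ← pow_mul, mul_comm]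
  · show v 0 ^ Fintype.card k * v 1 ^ Fintype.card k = (v 0 * v 1) ^ Fintype.card k
    rw [mul_pow]
  · show (v 1 ^ Fintype.card k) ^ 2 = (v 1 ^ 2) ^ Fintype.card k
    rw [← pow_mul, ← pow_mul, mul_comm]

theorem conic_num [IsAlgClosed K] :
    IsEul (nOrb (frobP k K (Fin 3)) (zeros K (Cn k)))
      ((1 - PowerSeries.X) * (1 - PowerSeries.C (Fintype.card k : ℤ) * PowerSeries.X) : PowerSeries ℤ) := by
  refine isEul_of_param (pmap (cC K) 2 (cC_smul K) (cC_ne K)) (pmap_frob _ _ _ _ (cC_frob k K)) ?_ _ ?_
  · intro P Q h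
    induction P using Projectivization.ind with
    | h u hu =>
      induction Q using Projectivization.ind with
      | h v hv =>
        rw [pmap_mk, pmap_mk, Projectivization.mk_eq_mk_iff'] at h
        obtain ⟨t, ht⟩ := h
        have h0 : t * v 0 ^ 2 = u 0 ^ 2 := congrFun ht 0
        have h1 : t * (v 0 * v 1) = u 0 * u 1 := congrFun ht 1
        have h2 : t * v 1 ^ 2 = u 1 ^ 2 := congrFun ht 2
        have ht0 : t ≠ 0 := by
          rintro rfl
          rw [zero_smul] at ht
          exact cC_ne K u hu ht.symm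
        rw [Projectivization.mk_eq_mk_iff']
        by_cases hv1 : v 1 = 0
        · have hv0 : v 0 ≠ 0 := by
            intro hv0
            apply hv
            funext i
            fin_cases i
            · exact hv0
            · exact hv1
          have hu1 : u 1 = 0 := by
            rw [hv1] at h2
            have : u 1 ^ 2 = 0 := by rw [← h2]; ring
            exact pow_eq_zero_iff two_ne_zero |>.1 this
          refine ⟨u 0 / v 0, ?_⟩
          funext i
          fin_cases i
          · show u 0 / v 0 * v 0 = u 0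
            field_simp
          · show u 0 / v 0 * v 1 = u 1
            rw [hv1, hu1, mul_zero]
        · have hu1 : u 1 ≠ 0 := by
            intro hu1
            rw [hu1] at h2
            have : t * v 1 ^ 2 = 0 := by rw [h2]; ring
            rcases mul_eq_zero.1 this with h3 | h3
            · exact ht0 h3
            · exact hv1 (pow_eq_zero_iff two_ne_zero |>.1 h3)
          refine ⟨u 1 / v 1, ?_⟩
          funext i
          fin_cases i
          · show u 1 / v 1 * v 0 = u 0
            rw [div_mul_eq_mul_div, div_eq_iff hv1]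
            apply mul_left_cancel₀ hu1
            linear_combination v 1 * h1 - v 0 * h2
          · show u 1 / v 1 * v 1 = u 1
            field_simp
  · ext P
    constructor
    · intro hP
      induction P using Projectivization.ind with
      | h v hv =>
        rw [mem_zer hom_cn, ev_cn, sub_eq_zero] at hP
        by_cases h2 : v 2 = 0
        · have h1 : v 1 = 0 := by
            rw [h2, mul_zero] at hP
            exact pow_eq_zero_iff two_ne_zero |>.1 hP
          have h0 : v 0 ≠ 0 := by
            intro h0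
            apply hv
            funext i
            fin_cases i
            · exact h0
            · exact h1
            · exact h2
          have hne : (![v 0, 0] : Fin 2 → K) ≠ 0 := fun h => h0 (congrFun h 0)
          refine ⟨Projectivization.mk K ![v 0, 0] hne, ?_⟩
          rw [pmap_mk, Projectivization.mk_eq_mk_iff']
          refine ⟨v 0, ?_⟩
          funext i
          fin_cases i
          · show v 0 * v 0 = v 0 ^ 2
            ring
          · show v 0 * v 1 = v 0 * 0
            rw [h1]
          · show v 0 * v 2 = 0 ^ 2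
            rw [h2]; ring
        · have hne : (![v 1, v 2] : Fin 2 → K) ≠ 0 := fun h => h2 (congrFun h 1)
          refine ⟨Projectivization.mk K ![v 1, v 2] hne, ?_⟩
          rw [pmap_mk, Projectivization.mk_eq_mk_iff']
          refine ⟨v 2, ?_⟩
          funext i
          fin_cases i
          · show v 2 * v 0 = v 1 ^ 2
            rw [hP]; ring
          · show v 2 * v 1 = v 1 * v 2
            ring
          · show v 2 * v 2 = v 2 ^ 2
            ring
    · rintro ⟨Q, rfl⟩
      induction Q using Projectivization.ind with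
      | h v hv =>
        rw [pmap_mk, mem_zer hom_cn, ev_cn]
        show (v 0 * v 1) ^ 2 - v 0 ^ 2 * v 1 ^ 2 = 0
        ring

/-! ### The points of intersection -/

omit [Fintype k] in
theorem ne_of {a b c : k} (h : ∀ s t : k, a * s ^ 2 + b * s * t + c * t ^ 2 = 0 → s = 0 ∧ t = 0) : a ≠ 0 := by
  intro ha
  have := (h 1 0 (by rw [ha]; ring)).1
  exact one_ne_zero this

/-- the orbit of a fixed point -/
theorem orb_fix {S : Type*} {F : S → S} {P : S} (h : F P = P) : orb F P = {P} := by
  ext x
  constructor
  · rintro ⟨n, rfl⟩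
    exact Function.iterate_fixed h n
  · intro hx
    rw [Set.mem_singleton_iff] at hx
    exact ⟨0, hx.symm⟩

theorem orb_two {S : Type*} {F : S → S} {P : S} (h : F (F P) = P) : orb F P = {P, F P} := by
  have key : ∀ n : ℕ, F^[n] P = P ∨ F^[n] P = F P := by
    intro n
    induction n with
    | zero => exact Or.inl rfl
    | succ n ih =>
      rw [Function.iterate_succ_apply']
      rcases ih with ih | ih
      · rw [ih]; exact Or.inr rfl
      · rw [ih, h]; exact Or.inl rfl
  ext x
  rw [Set.mem_insert_iff, Set.mem_singleton_iff]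
  constructor
  · rintro ⟨n, rfl⟩
    exact key n
  · rintro (rfl | rfl)
    · exact ⟨0, rfl⟩
    · exact ⟨1, rfl⟩

theorem meet_lines {a b c a' b' c' : k}
    (hne : a * b' - a' * b ≠ 0 ∨ a * c' - a' * c ≠ 0 ∨ b * c' - b' * c ≠ 0) :
    ∃ P : ℙ K (Fin 3 → K), minimalPeriod (frobP k K (Fin 3)) P = 1 ∧
      zeros K (Ln a b c) ∩ zeros K (Ln a' b' c') = orb (frobP k K (Fin 3)) P := by
  obtain ⟨w, hw⟩ : ∃ w : Fin 3 → k, w = ![b * c' - b' * c, -(a * c' - a' * c), a * b' - a' * b] := ⟨_, rfl⟩
  have hw0 : w 0 = b * c' - b' * c := by rw [hw]; rfl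
  have hw1 : w 1 = -(a * c' - a' * c) := by rw [hw]; rfl
  have hw2 : w 2 = a * b' - a' * b := by rw [hw]; rfl
  obtain ⟨j, hj⟩ : ∃ j, w j ≠ 0 := by
    rcases hne with h | h | h
    · exact ⟨2, by rw [hw2]; exact h⟩
    · exact ⟨1, by rw [hw1]; exact neg_ne_zero.2 h⟩
    · exact ⟨0, by rw [hw0]; exact h⟩
  have hjK : algebraMap k K (w j) ≠ 0 := by
    rw [Ne, map_eq_zero]
    exact hj
  have hne' : (fun i => algebraMap k K (w i)) ≠ 0 := fun h => hjK (congrFun h j)
  obtain ⟨P, hP⟩ : ∃ P, P = Projectivization.mk K (fun i => algebraMap k K (w i)) hne' := ⟨_, rfl⟩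
  have hfix : frobP k K (Fin 3) P = P := by
    rw [hP, frobP_mk]
    congr 1
    funext i
    exact fr_alg (w i)
  refine ⟨P, Function.minimalPeriod_eq_one_iff_isFixedPt.2 hfix, ?_⟩
  rw [orb_fix hfix]
  ext Q
  rw [Set.mem_singleton_iff]
  constructor
  · rintro ⟨h1, h2⟩
    induction Q using Projectivization.ind with
    | h v hv =>
      rw [mem_zer (hom_ln _ _ _), ev_ln] at h1 h2
      rw [hP, Projectivization.mk_eq_mk_iff']
      have key : ∀ i, v i * algebraMap k K (w j) = v j * algebraMap k K (w i) := by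
        have e01 : v 0 * algebraMap k K (w 1) = v 1 * algebraMap k K (w 0) := by
          rw [hw0, hw1]
          simp only [map_neg, map_sub, map_mul]
          linear_combination (algebraMap k K c) * h2 - (algebraMap k K c') * h1
        have e02 : v 0 * algebraMap k K (w 2) = v 2 * algebraMap k K (w 0) := by
          rw [hw0, hw2]
          simp only [map_sub, map_mul]
          linear_combination (algebraMap k K b') * h1 - (algebraMap k K b) * h2
        have e12 : v 1 * algebraMap k K (w 2) = v 2 * algebraMap k K (w 1) := by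
          rw [hw1, hw2]
          simp only [map_neg, map_sub, map_mul]
          linear_combination (algebraMap k K a) * h2 - (algebraMap k K a') * h1
        intro i
        fin_cases i <;> fin_cases j
        · rfl
        · exact e01
        · exact e02
        · exact e01.symm
        · rfl
        · exact e12
        · exact e02.symm
        · exact e12.symm
        · rfl
      refine ⟨v j / algebraMap k K (w j), ?_⟩
      funext i
      show v j / algebraMap k K (w j) * algebraMap k K (w i) = v i
      rw [div_mul_eq_mul_div, div_eq_iff hjK]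
      exact (key i).symm
  · rintro rfl
    rw [hP]
    constructor
    · rw [mem_zer (hom_ln _ _ _), ev_ln, hw0, hw1, hw2]
      simp only [map_neg, map_sub, map_mul]
      ring
    · rw [mem_zer (hom_ln _ _ _), ev_ln, hw0, hw1, hw2]
      simp only [map_neg, map_sub, map_mul]
      ring

theorem meet_conic [IsAlgClosed K] {a b c : k}
    (h : ∀ s t : k, a * s ^ 2 + b * s * t + c * t ^ 2 = 0 → s = 0 ∧ t = 0) :
    ∃ P : ℙ K (Fin 3 → K), minimalPeriod (frobP k K (Fin 3)) P = 2 ∧
      zeros K (Ln a b c) ∩ zeros K (Cn k) = orb (frobP k K (Fin 3)) P := by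
  have ha := ne_of h
  obtain ⟨A, hA⟩ : ∃ A, A = algebraMap k K a := ⟨_, rfl⟩
  obtain ⟨B, hB⟩ : ∃ B, B = algebraMap k K b := ⟨_, rfl⟩
  obtain ⟨C, hC⟩ : ∃ C, C = algebraMap k K c := ⟨_, rfl⟩
  have hA0 : A ≠ 0 := by
    rw [hA, Ne, map_eq_zero]
    exact ha
  have hnk : ∀ x : K, A * x ^ 2 + B * x + C = 0 → x ^ Fintype.card k ≠ x := by
    intro x hx hx2
    obtain ⟨y, rfl⟩ := fix_k hx2
    have h1 : algebraMap k K (a * y ^ 2 + b * y * 1 + c * 1 ^ 2) = 0 := by
      rw [← hx, hA, hB, hC]
      simp
    rw [map_eq_zero] at h1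
    exact one_ne_zero (h y 1 h1).2
  obtain ⟨θ, hθ⟩ : ∃ θ : K, A * θ ^ 2 + B * θ + C = 0 := by
    have hdeg : (Polynomial.C A * Polynomial.X ^ 2 + Polynomial.C B * Polynomial.X + Polynomial.C C).degree ≠ 0 := by
      rw [Polynomial.degree_quadratic hA0]
      norm_num
    obtain ⟨θ, hθ⟩ := IsAlgClosed.exists_root _ hdeg
    refine ⟨θ, ?_⟩
    simpa [Polynomial.IsRoot] using hθ
  have hfr : ∀ x : K, A * x ^ 2 + B * x + C = 0 →
      A * (x ^ Fintype.card k) ^ 2 + B * x ^ Fintype.card k + C = 0 := by
    intro x hx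
    have h1 : (A * x ^ 2 + B * x + C) ^ Fintype.card k = 0 := by
      rw [hx]
      exact zero_pow Fintype.card_ne_zero
    rw [fr_add, fr_add, mul_pow, mul_pow, hA, hB, hC, fr_alg, fr_alg, fr_alg, ← pow_mul, mul_comm 2,
      pow_mul] at h1
    rw [hA, hB, hC]
    exact h1
  obtain ⟨θ', hθ'⟩ : ∃ θ', θ' = θ ^ Fintype.card k := ⟨_, rfl⟩
  have hr' : A * θ' ^ 2 + B * θ' + C = 0 := by rw [hθ']; exact hfr θ hθ
  have hne : θ' ≠ θ := by rw [hθ']; exact hnk θ hθ
  have hsum : A * (θ + θ') + B = 0 := by
    have h1 : (θ' - θ) * (A * (θ + θ') + B) = 0 := by linear_combination hr' - hθ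
    exact (mul_eq_zero.1 h1).resolve_left (sub_ne_zero.2 hne)
  have hroots : ∀ x : K, A * x ^ 2 + B * x + C = 0 → x = θ ∨ x = θ' := by
    intro x hx
    have h1 : A * ((x - θ) * (x - θ')) = 0 := by
      linear_combination hx - hθ - (x - θ) * hsum
    rcases mul_eq_zero.1 ((mul_eq_zero.1 h1).resolve_left hA0) with h2 | h2
    · exact Or.inl (sub_eq_zero.1 h2)
    · exact Or.inr (sub_eq_zero.1 h2)
  have hθ'' : θ' ^ Fintype.card k = θ := by
    rcases hroots _ (hfr θ' hr') with h1 | h1
    · exact h1
    · exact absurd h1 (hnk θ' hr')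
  have hvne : ∀ x : K, (![x ^ 2, x, 1] : Fin 3 → K) ≠ 0 := fun x h0 => one_ne_zero (congrFun h0 2 : (1 : K) = 0)
  have hfrob : ∀ x : K, frobP k K (Fin 3) (Projectivization.mk K ![x ^ 2, x, 1] (hvne x)) =
      Projectivization.mk K ![(x ^ Fintype.card k) ^ 2, x ^ Fintype.card k, 1] (hvne _) := by
    intro x
    rw [frobP_mk]
    congr 1
    funext i
    fin_cases i
    · show (x ^ 2) ^ Fintype.card k = (x ^ Fintype.card k) ^ 2
      rw [← pow_mul, ← pow_mul, mul_comm]
    · rfl
    · show (1 : K) ^ Fintype.card k = 1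
      exact one_pow _
  obtain ⟨P, hP⟩ : ∃ P, P = Projectivization.mk K ![θ ^ 2, θ, 1] (hvne θ) := ⟨_, rfl⟩
  obtain ⟨P', hP'⟩ : ∃ P', P' = Projectivization.mk K ![θ' ^ 2, θ', 1] (hvne θ') := ⟨_, rfl⟩
  have hFP : frobP k K (Fin 3) P = P' := by
    rw [hP, hfrob, hP']
    congr 1
    rw [← hθ']
  have hFP' : frobP k K (Fin 3) P' = P := by
    rw [hP', hfrob, hP]
    congr 1
    rw [hθ'']
  have hPP' : P' ≠ P := by
    intro h0
    rw [hP, hP', Projectivization.mk_eq_mk_iff'] at h0
    obtain ⟨t, ht⟩ := h0
    have h1 : t * θ = θ' := congrFun ht 1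
    have h2 : t * 1 = 1 := congrFun ht 2
    rw [mul_one] at h2
    rw [h2, one_mul] at h1
    exact hne h1.symm
  refine ⟨P, ?_, ?_⟩
  · have h1 : minimalPeriod (frobP k K (Fin 3)) P ∣ 2 := by
      apply IsPeriodicPt.minimalPeriod_dvd
      show frobP k K (Fin 3) (frobP k K (Fin 3) P) = P
      rw [hFP, hFP']
    rcases (Nat.dvd_prime Nat.prime_two).1 h1 with h2 | h2
    · exfalso
      rw [Function.minimalPeriod_eq_one_iff_isFixedPt] at h2
      apply hPP'
      rw [← hFP]
      exact h2
    · exact h2
  · rw [orb_two (by rw [hFP, hFP']), hFP]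
    have hmem : ∀ x : K, A * x ^ 2 + B * x + C = 0 →
        Projectivization.mk K ![x ^ 2, x, 1] (hvne x) ∈ zeros K (Ln a b c) ∩ zeros K (Cn k) := by
      intro x hx
      constructor
      · rw [mem_zer (hom_ln _ _ _), ev_ln, ← hA, ← hB, ← hC]
        show A * x ^ 2 + B * x + C * 1 = 0
        linear_combination hx
      · rw [mem_zer hom_cn, ev_cn]
        show x ^ 2 - x ^ 2 * 1 = 0
        ring
    ext Q
    rw [Set.mem_insert_iff, Set.mem_singleton_iff]
    constructor
    · rintro ⟨h1, h2⟩
      induction Q using Projectivization.ind with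
      | h v hv =>
        rw [mem_zer (hom_ln _ _ _), ev_ln, ← hA, ← hB, ← hC] at h1
        rw [mem_zer hom_cn, ev_cn, sub_eq_zero] at h2
        have hv2 : v 2 ≠ 0 := by
          intro hv2
          rw [hv2, mul_zero] at h2
          have hv1 := pow_eq_zero_iff two_ne_zero |>.1 h2
          rw [hv1, hv2, mul_zero, mul_zero, add_zero, add_zero] at h1
          have hv0 := (mul_eq_zero.1 h1).resolve_left hA0
          apply hv
          funext i
          fin_cases i
          · exact hv0
          · exact hv1
          · exact hv2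
        have hx2 : (v 1 / v 2) ^ 2 = v 0 / v 2 := by
          rw [div_pow, h2]
          field_simp
        have hx : A * (v 1 / v 2) ^ 2 + B * (v 1 / v 2) + C = 0 := by
          rw [hx2]
          field_simp
          linear_combination h1
        have hmk : Projectivization.mk K v hv =
            Projectivization.mk K ![(v 1 / v 2) ^ 2, v 1 / v 2, 1] (hvne _) := by
          rw [Projectivization.mk_eq_mk_iff']
          refine ⟨v 2, ?_⟩
          funext i
          fin_cases i
          · show v 2 * (v 1 / v 2) ^ 2 = v 0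
            rw [hx2]
            field_simp
          · show v 2 * (v 1 / v 2) = v 1
            field_simp
          · show v 2 * 1 = v 2
            rw [mul_one]
        rw [hmk]
        rcases hroots _ hx with h3 | h3
        · left
          rw [hP]
          congr 1
          rw [h3]
        · right
          rw [hP']
          congr 1
          rw [h3]
    · rintro (rfl | rfl)
      · rw [hP]; exact hmem θ hθ
      · rw [hP']; exact hmem θ' hr'

omit [Fintype k] in
theorem empty {a b c a' b' c' : k}
    (h : ∀ s t : k, a * s ^ 2 + b * s * t + c * t ^ 2 = 0 → s = 0 ∧ t = 0)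
    (hne : a * b' - a' * b ≠ 0 ∨ a * c' - a' * c ≠ 0 ∨ b * c' - b' * c ≠ 0) {v : Fin 3 → K} (hv : v ≠ 0)
    (h1 : MvPolynomial.aeval v (Ln a b c) = 0) (h2 : MvPolynomial.aeval v (Ln a' b' c') = 0)
    (h3 : MvPolynomial.aeval v (Cn k) = 0) : False := by
  have ha := ne_of h
  have hA0 : algebraMap k K a ≠ 0 := by
    rw [Ne, map_eq_zero]
    exact ha
  rw [ev_ln] at h1 h2
  rw [ev_cn, sub_eq_zero] at h3
  have hv2 : v 2 ≠ 0 := by
    intro hv2
    rw [hv2, mul_zero] at h3
    have hv1 := pow_eq_zero_iff two_ne_zero |>.1 h3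
    rw [hv1, hv2, mul_zero, mul_zero, add_zero, add_zero] at h1
    have hv0 := (mul_eq_zero.1 h1).resolve_left hA0
    apply hv
    funext i
    fin_cases i
    · exact hv0
    · exact hv1
    · exact hv2
  by_cases hab : a * b' - a' * b = 0
  · -- then the forms are proportional
    have e1 : algebraMap k K (a * c' - a' * c) * v 2 = 0 := by
      have e2 : algebraMap k K (a * b' - a' * b) = 0 := by rw [hab, map_zero]
      simp only [map_sub, map_mul] at e2 ⊢
      linear_combination (algebraMap k K a) * h2 - (algebraMap k K a') * h1 - v 1 * e2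
    have e3 : a * c' - a' * c = 0 := by
      have := (mul_eq_zero.1 e1).resolve_right hv2
      rwa [map_eq_zero] at this
    have e4 : a * (b * c' - b' * c) = 0 := by linear_combination b * e3 - c * hab
    rcases hne with h | h | h
    · exact h hab
    · exact h e3
    · exact h ((mul_eq_zero.1 e4).resolve_left ha)
  · -- then `v 1 / v 2` is in `k`
    obtain ⟨y, hy⟩ : ∃ y : k, y = -(a * c' - a' * c) / (a * b' - a' * b) := ⟨_, rfl⟩
    have hyk : (a * b' - a' * b) * y = -(a * c' - a' * c) := by
      rw [hy, mul_div_cancel₀ _ hab]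
    have hE : algebraMap k K (a * b' - a' * b) ≠ 0 := by
      rw [Ne, map_eq_zero]
      exact hab
    have e1 : algebraMap k K y * v 2 = v 1 := by
      apply mul_left_cancel₀ hE
      have e2 := congrArg (algebraMap k K) hyk
      simp only [map_neg, map_sub, map_mul] at e2 ⊢
      linear_combination v 2 * e2 - (algebraMap k K a) * h2 + (algebraMap k K a') * h1
    have e3 : algebraMap k K (a * y ^ 2 + b * y * 1 + c * 1 ^ 2) * v 2 ^ 2 = 0 := by
      simp only [map_add, map_mul, map_pow, map_one]
      rw [← e1] at h1 h3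
      linear_combination (v 2) * h1 + (algebraMap k K a) * h3
    have e4 := (mul_eq_zero.1 e3).resolve_right (pow_ne_zero 2 hv2)
    rw [map_eq_zero] at e4
    exact one_ne_zero (h y 1 e4).2

end Ex

open Ex in
/-- Two lines and the conic `y² = x z` -/
theorem triangle_conic {k : Type*} [Field k] [Fintype k] {K : Type*} [Field K] [Algebra k K] [IsAlgClosed K]
    {l : ℕ} (hl : l.Prime) (h2 : l ≠ 2) (a b c a' b' c' : k)
    (h : ∀ s t : k, a * s ^ 2 + b * s * t + c * t ^ 2 = 0 → s = 0 ∧ t = 0)
    (h' : ∀ s t : k, a' * s ^ 2 + b' * s * t + c' * t ^ 2 = 0 → s = 0 ∧ t = 0)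
    (hne : a * b' - a' * b ≠ 0 ∨ a * c' - a' * c ≠ 0 ∨ b * c' - b' * c ≠ 0) :
    Triangle k K l (Set.univ : Set (ℙ K (Fin 3 → K)))
      ![MvPolynomial.C a * MvPolynomial.X 0 + MvPolynomial.C b * MvPolynomial.X 1 +
          MvPolynomial.C c * MvPolynomial.X 2,
        MvPolynomial.C a' * MvPolynomial.X 0 + MvPolynomial.C b' * MvPolynomial.X 1 +
          MvPolynomial.C c' * MvPolynomial.X 2,
        MvPolynomial.X 1 ^ 2 - MvPolynomial.X 0 * MvPolynomial.X 2] ![1, 1, 2] := by
  have hc1 : Nat.Coprime 1 l := Nat.coprime_one_left l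
  have hc2 : Nat.Coprime 2 l := (Nat.coprime_primes Nat.prime_two hl).2 h2.symm
  have hl1 : ¬ (l : ℤ) ∣ (1 : Polynomial ℤ).eval 1 := by
    rw [Polynomial.eval_one]
    intro hd
    have h1 : l ∣ 1 := by exact_mod_cast hd
    exact hl.one_lt.ne' (Nat.dvd_one.1 h1)
  have hnum : ∀ A : Set (ℙ K (Fin 3 → K)), IsEul (nOrb (frobP k K (Fin 3)) A)
      ((1 - PowerSeries.X) * (1 - PowerSeries.C (Fintype.card k : ℤ) * PowerSeries.X) : PowerSeries ℤ) →
      ∃ L : Polynomial ℤ, IsNumerator k K (Set.univ ∩ A) L ∧ ¬ (l : ℤ) ∣ L.eval 1 := by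
    intro A hA
    rw [Set.univ_inter]
    exact ⟨1, ⟨by simp, _, hA, by simp⟩, hl1⟩
  obtain ⟨P01, p01, m01⟩ := meet_lines (K := K) hne
  obtain ⟨P02, p02, m02⟩ := meet_conic (K := K) h
  obtain ⟨P12, p12, m12⟩ := meet_conic (K := K) h'
  refine ⟨fun _ _ => Set.mem_univ _, ?_, ?_, ?_, ⟨1, isPrimitivePart_plane, hl1⟩, ?_, ?_⟩
  · intro i
    fin_cases i
    · exact hom_ln a b c
    · exact hom_ln a' b' c'
    · exact hom_cn
  · intro i
    fin_cases i
    · exact hc1
    · exact hc1
    · exact hc2
  · intro P _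
    by_contra hcon
    push Not at hcon
    induction P using Projectivization.ind with
    | h v hv =>
      exact empty h hne hv ((mem_zer (hom_ln a b c) v hv).1 (hcon 0))
        ((mem_zer (hom_ln a' b' c') v hv).1 (hcon 1)) ((mem_zer hom_cn v hv).1 (hcon 2))
  · intro i
    fin_cases i
    · exact hnum _ (line_num (ne_of h) b c)
    · exact hnum _ (line_num (ne_of h') b' c')
    · exact hnum _ conic_num
  · intro i j hij
    rw [Set.univ_inter]
    fin_cases i <;> fin_cases j
    · exact absurd rfl hij
    · exact ⟨P01, by rw [p01], by rw [p01]; exact hc1, m01⟩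
    · exact ⟨P02, by rw [p02]; norm_num, by rw [p02]; exact hc2, m02⟩
    · exact ⟨P01, by rw [p01], by rw [p01]; exact hc1, by rw [Set.inter_comm]; exact m01⟩
    · exact absurd rfl hij
    · exact ⟨P12, by rw [p12]; norm_num, by rw [p12]; exact hc2, m12⟩
    · exact ⟨P02, by rw [p02]; norm_num, by rw [p02]; exact hc2, by rw [Set.inter_comm]; exact m02⟩
    · exact ⟨P12, by rw [p12]; norm_num, by rw [p12]; exact hc2, by rw [Set.inter_comm]; exact m12⟩
    · exact absurd rfl hij

end Pool.Agent.K9h8.Kum
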