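import Pool.Agent.K9h8.Kum.Pts

/-!
# Fibres and periods for the Kummer covers
-/

set_option autoImplicit false

namespace Pool.Agent.K9h8.Kum

open Function
open scoped LinearAlgebra.Projectivization

/-! ### Roots -/

section roots

variable {K : Type*} [Field K] [IsAlgClosed K] {m : ℕ}

theorem ncard_roots (hm : (m : K) ≠ 0) {c : K} (hc : c ≠ 0) : {z : K | z ^ m = c}.ncard = m := by
  classical
  have hm0 : m ≠ 0 := by
    rintro rfl
    simp at hm
  have hsep : (Polynomial.X ^ m - Polynomial.C c : Polynomial K).Separable :=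
    Polynomial.separable_X_pow_sub_C c hm hc
  have hne : (Polynomial.X ^ m - Polynomial.C c : Polynomial K) ≠ 0 :=
    Polynomial.X_pow_sub_C_ne_zero (Nat.pos_of_ne_zero hm0) c
  have h1 : {z : K | z ^ m = c} =
      ((Polynomial.X ^ m - Polynomial.C c : Polynomial K).roots.toFinset : Set K) := by
    ext z
    rw [Finset.mem_coe, Multiset.mem_toFinset, Polynomial.mem_roots hne]
    simp [sub_eq_zero]
  rw [h1, Set.ncard_coe_finset, Multiset.toFinset_card_of_nodup (Polynomial.nodup_roots hsep),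
    IsAlgClosed.card_roots_eq_natDegree, Polynomial.natDegree_X_pow_sub_C]

omit [IsAlgClosed K] in
theorem ncard_roots_zero (hm : m ≠ 0) : {z : K | z ^ m = 0}.ncard = 1 := by
  have : {z : K | z ^ m = 0} = {0} := by
    ext z
    simp [hm]
  rw [this, Set.ncard_singleton]

end roots

/-! ### Geometric sums -/

theorem dvd_geom (ℓ n : ℕ) : ∀ Q : ℤ, 1 < Q → (ℓ : ℤ) ∣ Q - 1 →
    ((ℓ : ℤ) ^ n) ∣ ∑ j ∈ Finset.range (ℓ ^ n), Q ^ j := by
  induction n with
  | zero => intro Q _ _; simp
  | succ n ih =>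
    intro Q hQ h
    rcases Nat.eq_zero_or_pos ℓ with h0 | h0
    · subst h0
      simp
    have h1 : (1 : ℤ) < Q ^ ℓ := one_lt_pow₀ hQ h0.ne'
    have h2 : (ℓ : ℤ) ∣ Q ^ ℓ - 1 := by
      have := sub_dvd_pow_sub_pow Q 1 ℓ
      rw [one_pow] at this
      exact h.trans this
    have h3 := ih (Q ^ ℓ) h1 h2
    have h4 : ∑ j ∈ Finset.range (ℓ ^ (n + 1)), Q ^ j =
        (∑ j ∈ Finset.range ℓ, Q ^ j) * ∑ j ∈ Finset.range (ℓ ^ n), (Q ^ ℓ) ^ j := by
      have hne : Q - 1 ≠ 0 := by omega
      apply mul_right_cancel₀ hne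
      rw [geom_sum_mul, mul_right_comm, geom_sum_mul, mul_comm (Q ^ ℓ - 1), geom_sum_mul,
        ← pow_mul, pow_succ, mul_comm ℓ]
    have h5 : (ℓ : ℤ) ∣ ∑ j ∈ Finset.range ℓ, Q ^ j := by
      have e1 : (∑ j ∈ Finset.range ℓ, Q ^ j) = (∑ j ∈ Finset.range ℓ, (Q ^ j - 1)) + ℓ := by
        rw [Finset.sum_sub_distrib]
        simp
      rw [e1]
      refine dvd_add (Finset.dvd_sum fun j _ => ?_) dvd_rfl
      have := sub_dvd_pow_sub_pow Q 1 j
      rw [one_pow] at this
      exact h.trans this
    rw [h4, pow_succ, mul_comm ((ℓ : ℤ) ^ n)]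
    exact mul_dvd_mul h5 h3

section

variable {k : Type*} [Field k] [Fintype k] {K : Type*} [Field K] [Algebra k K] [IsAlgClosed K]
  {σ ι : Type*} [Fintype σ] [Fintype ι] {f : ι → MvPolynomial σ k} {m : ℕ} {d : ι → ℕ}

/-- A power of a root of unity can be corrected. -/
theorem exists_root_pow {m e : ℕ} (hco : Nat.Coprime e m) (ζ : K) (hζ : ζ ^ m = 1) :
    ∃ μ : K, μ ^ m = 1 ∧ μ ^ e = ζ := by
  rcases Nat.lt_or_ge 1 m with h0 | h0
  · obtain ⟨u, -, hu⟩ := Nat.exists_mul_mod_eq_one_of_coprime hco h0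
    refine ⟨ζ ^ u, ?_, ?_⟩
    · rw [← pow_mul, mul_comm, pow_mul, hζ, one_pow]
    · rw [← pow_mul, mul_comm u e, ← Nat.div_add_mod (e * u) m, pow_add, pow_mul, hζ, one_pow,
        one_mul, hu, pow_one]
  · interval_cases m
    · rw [Nat.coprime_zero_right] at hco
      subst hco
      exact ⟨ζ, by simp, by simp⟩
    · rw [pow_one] at hζ
      exact ⟨1, by simp, by simp [hζ]⟩

open scoped Classical in
/-- The number of points in a fibre. -/
theorem ncard_fibre (hm : (m : K) ≠ 0) (hf : ∀ i, (f i).IsHomogeneous (d i))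
    (hd : ∀ i, Nat.Coprime (d i) m) (a : σ → K) (ha : a ≠ 0) (i0 : ι)
    (hi0 : MvPolynomial.aeval a (f i0) ≠ 0) :
    {x : Pt K f m d | prj x = Projectivization.mk K a ha}.ncard =
      m ^ ((Finset.univ.filter fun i => MvPolynomial.aeval a (f i) ≠ 0).card - 1) := by
  classical
  have hm0 : m ≠ 0 := by
    rintro rfl
    simp at hm
  obtain ⟨β, hβ⟩ := IsAlgClosed.exists_pow_nat_eq (MvPolynomial.aeval a (f i0))
    (Nat.pos_of_ne_zero hm0)
  have hβ0 : β ≠ 0 := by
    rintro rfl
    rw [zero_pow hm0] at hβ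
    exact hi0 hβ.symm
  set T : Set (ι → K) := {b | b i0 = β ∧ ∀ i, b i ^ m = MvPolynomial.aeval a (f i)} with hT
  have hTcard : T.ncard =
      m ^ ((Finset.univ.filter fun i => MvPolynomial.aeval a (f i) ≠ 0).card - 1) := by
    have hR : ∀ i, ∃ s : Finset K, (∀ z, z ∈ s ↔ z ^ m = MvPolynomial.aeval a (f i)) ∧
        s.card = if MvPolynomial.aeval a (f i) = 0 then 1 else m := by
      intro i
      have h1 : {z : K | z ^ m = MvPolynomial.aeval a (f i)}.ncard =
          if MvPolynomial.aeval a (f i) = 0 then 1 else m := by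
        split_ifs with h
        · rw [h]; exact ncard_roots_zero hm0
        · exact ncard_roots hm h
      have h2 : {z : K | z ^ m = MvPolynomial.aeval a (f i)}.Finite := by
        apply Set.finite_of_ncard_ne_zero
        rw [h1]
        split_ifs <;> omega
      refine ⟨h2.toFinset, fun z => by simp, ?_⟩
      rw [← h1, Set.ncard_eq_toFinset_card _ h2]
    choose R hR1 hR2 using hR
    have h3 : T = ((Fintype.piFinset fun i => if i = i0 then {β} else R i : Finset (ι → K)) :
        Set (ι → K)) := by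
      ext b
      rw [Finset.mem_coe, Fintype.mem_piFinset]
      constructor
      · rintro ⟨h4, h5⟩ i
        split_ifs with h6
        · rw [h6, h4]; simp
        · rw [hR1]; exact h5 i
      · intro h4
        have h5 : b i0 = β := by
          have := h4 i0
          rw [if_pos rfl, Finset.mem_singleton] at this
          exact this
        refine ⟨h5, fun i => ?_⟩
        by_cases h6 : i = i0
        · rw [h6, h5, hβ]
        · have := h4 i
          rw [if_neg h6, hR1] at this
          exact this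
    rw [h3, Set.ncard_coe_finset, Fintype.card_piFinset]
    have h4 : ∀ i, (if i = i0 then ({β} : Finset K) else R i).card =
        if i ∈ (Finset.univ.filter fun i => MvPolynomial.aeval a (f i) ≠ 0).erase i0 then m else 1 := by
      intro i
      by_cases h5 : i = i0
      · simp [h5]
      · rw [if_neg h5, hR2]
        by_cases h6 : MvPolynomial.aeval a (f i) = 0
        · simp [h6]
        · simp [h5, h6]
    simp only [h4]
    rw [Finset.prod_ite_mem, Finset.univ_inter, Finset.prod_const, Finset.card_erase_of_mem]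
    simp [hi0]
  rw [← hTcard]
  symm
  refine Set.ncard_congr (fun b hb => Pt.mk d ⟨a, b, ha, hb.2⟩) ?_ ?_ ?_
  · intro b hb
    rfl
  · intro b b' hb hb' h
    rw [Pt.mk_eq] at h
    obtain ⟨t, ht, h1, h2⟩ := h
    simp only at h1 h2
    obtain ⟨j, hj⟩ : ∃ j, a j ≠ 0 := by
      by_contra hcon
      push Not at hcon
      exact ha (funext hcon)
    have h3 : t ^ m = 1 := by
      have := h1 j
      exact mul_right_cancel₀ hj (by rw [one_mul]; exact this.symm)
    have h4 : t ^ d i0 = 1 := by
      have := h2 i0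
      rw [hb.1, hb'.1] at this
      exact mul_right_cancel₀ hβ0 (by rw [one_mul]; exact this.symm)
    have h5 : t = 1 := by
      have h6 := Nat.Coprime.gcd_eq_one (hd i0)
      have h7 : orderOf t ∣ 1 := by
        rw [← h6]
        exact Nat.dvd_gcd (orderOf_dvd_of_pow_eq_one h4) (orderOf_dvd_of_pow_eq_one h3)
      exact orderOf_eq_one_iff.1 (Nat.dvd_one.1 h7)
    funext i
    rw [h2 i, h5, one_pow, one_mul]
  · intro x hx
    obtain ⟨y, rfl⟩ := Pt.mk_surj d x
    have h1 : Projectivization.mk K y.a y.ne = Projectivization.mk K a ha := hx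
    rw [Projectivization.mk_eq_mk_iff'] at h1
    obtain ⟨κ, hκ⟩ := h1
    -- y.a = κ a
    have hκ' : ∀ j, y.a j = κ * a j := fun j => (congrFun hκ j).symm
    have hκ0 : κ ≠ 0 := by
      rintro rfl
      apply y.ne
      funext j
      rw [hκ' j, zero_mul]; rfl
    obtain ⟨t, ht⟩ := IsAlgClosed.exists_pow_nat_eq κ (Nat.pos_of_ne_zero hm0)
    have ht0 : t ≠ 0 := by
      rintro rfl
      rw [zero_pow hm0] at ht
      exact hκ0 ht.symm
    have hev : ∀ i, MvPolynomial.aeval y.a (f i) = κ ^ d i * MvPolynomial.aeval a (f i) := by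
      intro i
      have := aeval_smul (hf i) κ a
      rw [← this]
      congr 2
      funext j
      exact hκ' j
    -- normalise
    set b1 : ι → K := fun i => (t ^ d i)⁻¹ * y.b i with hb1
    have hb1m : ∀ i, b1 i ^ m = MvPolynomial.aeval a (f i) := by
      intro i
      rw [hb1]
      simp only
      rw [mul_pow, y.eq i, hev i, inv_pow, ← pow_mul, mul_comm (d i) m, pow_mul, ht]
      rw [inv_mul_cancel_left₀ (pow_ne_zero _ hκ0)]
    have hb10 : b1 i0 ≠ 0 := by
      intro h
      have := hb1m i0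
      rw [h, zero_pow hm0] at this
      exact hi0 this.symm
    obtain ⟨μ, hμ1, hμ2⟩ := exists_root_pow (hd i0) (β / b1 i0) (by
      rw [div_pow, hβ, hb1m i0, div_self hi0])
    have hμ0 : μ ≠ 0 := by
      rintro rfl
      rw [zero_pow hm0] at hμ1
      exact zero_ne_one hμ1
    refine ⟨fun i => μ ^ d i * b1 i, ⟨?_, ?_⟩, ?_⟩
    · simp only
      rw [hμ2, div_mul_cancel₀ _ hb10]
    · intro i
      simp only
      rw [mul_pow, hb1m i, ← pow_mul, mul_comm (d i) m, pow_mul, hμ1, one_pow, one_mul]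
    · rw [Pt.mk_eq]
      refine ⟨t * μ⁻¹, mul_ne_zero ht0 (inv_ne_zero hμ0), fun j => ?_, fun i => ?_⟩
      · simp only
        rw [hκ' j, mul_pow, ht, inv_pow, hμ1, inv_one, mul_one]
      · simp only
        rw [hb1]
        simp only
        rw [mul_pow, inv_pow]
        field_simp

end

end Pool.Agent.K9h8.Kum
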