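import Pool.Agent.K9h8.Kum.Sx

/-!
# The congruence for the primitive part in all dimensions
-/

set_option autoImplicit false

namespace Pool.Agent.K9h8.Kum

open Function
open scoped LinearAlgebra.Projectivization

section units

variable {κ : Type*} [Field κ]

theorem isUnit_of_coeff {Q : PowerSeries κ} (h : PowerSeries.coeff 0 Q = 1) : IsUnit Q := by
  rw [PowerSeries.isUnit_iff_constantCoeff, ← PowerSeries.coeff_zero_eq_constantCoeff_apply, h]
  exact isUnit_one

/-- A power series with constant term `1` as a unit. -/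
noncomputable def un {Q : PowerSeries κ} (h : PowerSeries.coeff 0 Q = 1) : (PowerSeries κ)ˣ :=
  (isUnit_of_coeff h).unit

theorem val_un {Q : PowerSeries κ} (h : PowerSeries.coeff 0 Q = 1) : ((un h : (PowerSeries κ)ˣ) : PowerSeries κ) = Q :=
  (isUnit_of_coeff h).unit_spec

end units

section comb

/-- The exponents. -/
def yexp (m : ℤ) (N j : ℕ) : ℤ := (-(m - 1)) ^ j * m ^ (N - j)

theorem sum_yexp {ι : Type*} [DecidableEq ι] (m : ℤ) (N : ℕ) (K : Finset ι) (hK : K.card ≤ N) :
    ∑ J ∈ K.powerset, yexp m N J.card = m ^ (N - K.card) := by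
  have h := Finset.sum_pow_mul_eq_add_pow (-(m - 1)) m K
  have h1 : -(m - 1) + m = 1 := by ring
  rw [h1, one_pow] at h
  rw [← mul_one (m ^ (N - K.card)), ← h, Finset.mul_sum]
  refine Finset.sum_congr rfl fun J hJ => ?_
  have hJK : J.card ≤ K.card := Finset.card_le_card (Finset.mem_powerset.1 hJ)
  unfold yexp
  have h2 : N - J.card = (N - K.card) + (K.card - J.card) := by omega
  rw [h2, pow_add]
  ring

theorem zpow_sum' {G ι : Type*} [CommGroup G] (g : G) (s : Finset ι) (f : ι → ℤ) :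
    ∏ a ∈ s, g ^ f a = g ^ ∑ a ∈ s, f a := by
  classical
  induction s using Finset.induction_on with
  | empty => simp
  | insert a s ha ih => rw [Finset.prod_insert ha, Finset.sum_insert ha, zpow_add, ih]

variable {G : Type*} [CommGroup G] {ι : Type*} [Fintype ι] [DecidableEq ι]

theorem filter_erase {K : Finset ι} (hK' : K ≠ Finset.univ) :
    (Finset.univ.erase (Finset.univ : Finset ι)).filter (fun a => a ⊆ K) = K.powerset := by
  ext a
  rw [Finset.mem_filter, Finset.mem_erase, Finset.mem_powerset]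
  constructor
  · rintro ⟨-, h⟩
    exact h
  · intro h
    refine ⟨⟨?_, Finset.mem_univ _⟩, h⟩
    rintro rfl
    exact hK' (Finset.univ_subset_iff.1 h)

theorem card_le_of_ne {N : ℕ} (hN : Fintype.card ι = N + 1) {K : Finset ι} (hK' : K ≠ Finset.univ) :
    K.card ≤ N := by
  have := Finset.card_lt_card (Finset.ssubset_univ_iff.2 hK')
  rw [Finset.card_univ, hN] at this
  omega

/-- Moebius inversion for the exponents. -/
theorem prod_moebius {N : ℕ} (hN : Fintype.card ι = N + 1) (m : ℤ) (e c : Finset ι → G)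
    (he : e Finset.univ = 1) (hc : ∀ I, I ≠ Finset.univ → c I = ∏ J ∈ Finset.univ.filter (fun J => I ⊆ J), e J) :
    ∏ I ∈ Finset.univ.erase (Finset.univ : Finset ι), e I ^ (m ^ (N - I.card)) =
      ∏ J ∈ Finset.univ.erase (Finset.univ : Finset ι), c J ^ (yexp m N J.card) := by
  have h1 : ∀ J ∈ Finset.univ.erase (Finset.univ : Finset ι), c J ^ (yexp m N J.card) =
      ∏ K ∈ Finset.univ.erase (Finset.univ : Finset ι), if J ⊆ K then e K ^ (yexp m N J.card) else 1 := by
    intro J hJ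
    rw [hc J (Finset.ne_of_mem_erase hJ), ← Finset.prod_zpow, Finset.prod_filter]
    rw [← Finset.mul_prod_erase Finset.univ _ (Finset.mem_univ (Finset.univ : Finset ι))]
    rw [if_pos (Finset.subset_univ J), he, one_zpow, one_mul]
  rw [Finset.prod_congr rfl h1, Finset.prod_comm]
  refine Finset.prod_congr rfl fun K hK => ?_
  have hK' : K ≠ Finset.univ := Finset.ne_of_mem_erase hK
  rw [← Finset.prod_filter, zpow_sum', filter_erase hK', sum_yexp m N K (card_le_of_ne hN hK')]

/-- The exponent of `1 - T`. -/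
theorem sum_card_yexp {N : ℕ} (hN : Fintype.card ι = N + 1) (m : ℤ) :
    ∑ J ∈ Finset.univ.erase (Finset.univ : Finset ι), ((N + 1 - J.card : ℕ) : ℤ) * yexp m N J.card =
      N + 1 := by
  have h1 : ∀ J ∈ Finset.univ.erase (Finset.univ : Finset ι), ((N + 1 - J.card : ℕ) : ℤ) * yexp m N J.card =
      ∑ x : ι, if x ∈ J then 0 else yexp m N J.card := by
    intro J _
    have h0 : ∀ x : ι, (if x ∈ J then (0 : ℤ) else yexp m N J.card) =
        if x ∈ Jᶜ then yexp m N J.card else 0 := by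
      intro x
      by_cases hx : x ∈ J
      · simp [hx]
      · simp [hx]
    rw [Finset.sum_congr rfl fun x _ => h0 x, ← Finset.sum_filter, Finset.sum_const, nsmul_eq_mul]
    congr 2
    rw [← hN, ← Finset.card_compl]
    congr 1
    ext x
    simp
  rw [Finset.sum_congr rfl h1, Finset.sum_comm]
  have h2 : ∀ x : ι, ∑ J ∈ Finset.univ.erase (Finset.univ : Finset ι), (if x ∈ J then 0 else yexp m N J.card) =
      1 := by
    intro x
    have hK' : ({x} : Finset ι)ᶜ ≠ Finset.univ := by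
      intro h
      have := Finset.mem_univ x
      rw [← h, Finset.mem_compl, Finset.mem_singleton] at this
      exact this rfl
    have h3 := sum_yexp m N (({x} : Finset ι)ᶜ) (card_le_of_ne hN hK')
    rw [Finset.card_compl, Finset.card_singleton, hN, Nat.add_sub_cancel, Nat.sub_self, pow_zero] at h3
    have h0 : ∀ J : Finset ι, (if x ∈ J then (0 : ℤ) else yexp m N J.card) =
        if x ∉ J then yexp m N J.card else 0 := by
      intro J
      by_cases hx : x ∈ J
      · simp [hx]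
      · simp [hx]
    rw [← h3, ← filter_erase hK', Finset.sum_congr rfl fun J _ => h0 J, ← Finset.sum_filter]
    refine Finset.sum_congr ?_ fun _ _ => rfl
    ext J
    rw [Finset.mem_filter, Finset.mem_filter]
    refine and_congr_right fun _ => ?_
    constructor
    · intro h y hy
      rw [Finset.mem_compl, Finset.mem_singleton]
      rintro rfl
      exact h hy
    · intro h hx
      have := h hx
      rw [Finset.mem_compl, Finset.mem_singleton] at this
      exact this rfl
  rw [Finset.sum_congr rfl fun x _ => h2 x]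
  simp [hN]

end comb

section prim

variable {ℓ : ℕ} [Fact ℓ.Prime]

theorem coeff_zero_map {R : Polynomial ℤ} (h : R.coeff 0 = 1) :
    PowerSeries.coeff 0 (((R.map (Int.castRingHom (ZMod ℓ)) : Polynomial (ZMod ℓ)) :
      PowerSeries (ZMod ℓ))) = 1 := by
  rw [Polynomial.coeff_coe, Polynomial.coeff_map, h, map_one]

theorem coeff_zero_one_sub : PowerSeries.coeff 0 (((1 - Polynomial.X : Polynomial (ZMod ℓ))) :
    PowerSeries (ZMod ℓ)) = 1 := by
  rw [Polynomial.coeff_coe]
  simp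

theorem map_range_prod {q : ℕ} (hℓ : (ℓ : ℤ) ∣ (q : ℤ) - 1) (M : ℕ) :
    PowerSeries.map (Int.castRingHom (ZMod ℓ))
      (∏ j ∈ Finset.range (M + 1), (1 - PowerSeries.C ((q : ℤ) ^ j) * PowerSeries.X)) =
      (((1 - Polynomial.X : Polynomial (ZMod ℓ))) : PowerSeries (ZMod ℓ)) ^ (M + 1) := by
  rw [map_prod, Finset.prod_congr rfl fun j _ => map_factor hℓ j, Finset.prod_const, Finset.card_range]

theorem IsPrimitive.coeff {q M : ℕ} {b : ℕ → ℕ} {R : Polynomial ℤ} (hR : IsPrimitive q M b R) :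
    R.coeff 0 = 1 := hR.1

/-- The form of the zeta function modulo `ℓ`, in units. -/
theorem IsPrimitive.unit {q M : ℕ} (hℓ : (ℓ : ℤ) ∣ (q : ℤ) - 1) {b : ℕ → ℕ} {R : Polynomial ℤ}
    (hR : IsPrimitive q M b R) {G : PowerSeries (ZMod ℓ)} (hG : IsEul b G)
    (hG0 : PowerSeries.coeff 0 G = 1) :
    un hG0 = (un (coeff_zero_map (ℓ := ℓ) hR.coeff)) ^ ((-1 : ℤ) ^ M) *
      (un (coeff_zero_one_sub (ℓ := ℓ))) ^ (M + 1) := by
  obtain ⟨hR0, Q, hQ, heven, hodd⟩ := hR
  have hGQ : G = PowerSeries.map (Int.castRingHom (ZMod ℓ)) Q := hG.unique (hQ.map _)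
  rcases Nat.even_or_odd M with hM | hM
  · rw [hM.neg_one_pow, zpow_one]
    apply Units.ext
    rw [Units.val_mul, Units.val_pow_eq_pow_val, val_un, val_un, val_un, hGQ, heven hM, map_mul,
      map_range_prod hℓ, map_coe]
  · rw [hM.neg_one_pow, zpow_neg_one]
    have h1 : un hG0 * un (coeff_zero_map (ℓ := ℓ) hR0) =
        (un (coeff_zero_one_sub (ℓ := ℓ))) ^ (M + 1) := by
      apply Units.ext
      rw [Units.val_mul, Units.val_pow_eq_pow_val, val_un, val_un, val_un, hGQ, ← map_range_prod hℓ,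
        ← hodd hM, map_mul, map_coe]
    rw [← h1]
    rw [mul_comm (un hG0), inv_mul_cancel_left]

end prim

section main

variable {k : Type*} [Field k] [Fintype k] {K : Type*} [Field K] [Algebra k K] [IsAlgClosed K]
  {σ ι : Type*} [Fintype σ] [Fintype ι] [DecidableEq ι] {f : ι → MvPolynomial σ k} {m : ℕ} {d : ι → ℕ}
  {Y : Set (ℙ K (σ → K))}

/-- The Euler product of the cover. -/
theorem isEul_cover (hY : ∀ P ∈ Y, frobP k K σ P ∈ Y) (hm : (m : K) ≠ 0)
    (hf : ∀ i, (f i).IsHomogeneous (d i)) (hd : ∀ i, Nat.Coprime (d i) m) {ℓ n : ℕ} [Fact ℓ.Prime]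
    (hmn : m = ℓ ^ n) (hℓ : (ℓ : ℤ) ∣ (Fintype.card k : ℤ) - 1) (hempty : strat Y f Finset.univ = ∅) :
    IsEul (nOrb (frobX k K f m d) (prj ⁻¹' Y)) (∏ I : Finset ι,
      (if I = Finset.univ then (1 : PowerSeries (ZMod ℓ)) else
        (eul (ZMod ℓ) (nOrb (frobP k K σ) (strat Y f I))) ^ (m ^ (Iᶜ.card - 1)))) := by
  have hprj : ∀ x : Pt K f m d, van f (prj (frobX k K f m d x)) = van f (prj x) := by
    intro x
    rw [prj_frob, van_frob hf]
  have hcov := fun I hI => isCov_strat (K := K) (k := k) hY hm hf hd (Fact.out : ℓ.Prime) hmn hℓ I hI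
  have hempty' : (prj ⁻¹' strat Y f Finset.univ : Set (Pt K f m d)) = ∅ := by
    rw [hempty, Set.preimage_empty]
  have hnice : Nice (frobX k K f m d) (prj ⁻¹' Y : Set (Pt K f m d)) := by
    refine ⟨fun x hx => ?_, fun r hr => ?_⟩
    · change prj (frobX k K f m d x) ∈ Y
      rw [prj_frob]
      exact hY _ hx
    have : {x : Pt K f m d | x ∈ (prj ⁻¹' Y : Set (Pt K f m d)) ∧ (frobX k K f m d)^[r] x = x} ⊆
        ⋃ I : Finset ι, {x : Pt K f m d | x ∈ prj ⁻¹' strat Y f I ∧ (frobX k K f m d)^[r] x = x} := by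
      rintro x ⟨hxY, hx⟩
      rw [Set.mem_iUnion]
      exact ⟨van f (prj x), ⟨hxY, rfl⟩, hx⟩
    refine Set.Finite.subset (Set.finite_iUnion fun I => ?_) this
    by_cases hI : I = Finset.univ
    · rw [hI, hempty']
      simp
    · exact (hcov I hI).niceA.fin r hr
  refine (IsEul.prod (R := ZMod ℓ) Finset.univ
    (b := fun I => nOrb (frobX k K f m d) (prj ⁻¹' strat Y f I)) fun I _ => ?_).congr fun D hD => ?_
  · split_ifs with hI
    · refine isEul_zero.congr fun D _ => ?_
      rw [hI, hempty', nOrb_empty]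
    · have h2 := (hcov I hI).eul_eq (Fact.out : ℓ.Prime) (R := ZMod ℓ) (isEul_eul _) (isEul_eul _)
      rw [← h2]
      exact isEul_eul _
  · rw [nOrb_sum hnice (fun x => van f (prj x)) (fun x _ => hprj x) hD]
    refine Finset.sum_congr rfl fun I _ => ?_
    rfl

/-- **The congruence.** -/
theorem full_formula (hY : ∀ P ∈ Y, frobP k K σ P ∈ Y) {N : ℕ} (hN : Fintype.card ι = N + 1)
    (hm : (m : K) ≠ 0) (hf : ∀ i, (f i).IsHomogeneous (d i)) (hd : ∀ i, Nat.Coprime (d i) m) {ℓ n : ℕ}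
    [Fact ℓ.Prime] (hmn : m = ℓ ^ n) (hℓ : (ℓ : ℤ) ∣ (Fintype.card k : ℤ) - 1)
    (hempty : strat Y f Finset.univ = ∅) (R : Finset ι → Polynomial ℤ)
    (hR : ∀ J, J ≠ Finset.univ → IsPrimitive (Fintype.card k) (N - J.card)
      (nOrb (frobP k K σ) (clos Y f J)) (R J))
    {Rn : Polynomial ℤ}
    (hRn : IsPrimitive (Fintype.card k) N (nOrb (frobX k K f m d) (prj ⁻¹' Y)) Rn) :
    Rn.map (Int.castRingHom (ZMod ℓ)) = ∏ J ∈ Finset.univ.erase (Finset.univ : Finset ι),
      ((R J).map (Int.castRingHom (ZMod ℓ))) ^ (m ^ (N - J.card) * (m - 1) ^ J.card) := by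
  classical
  have hm1 : 1 ≤ m := by
    rw [hmn]
    exact Nat.one_le_pow _ _ (Fact.out : ℓ.Prime).pos
  -- units
  set e : Finset ι → (PowerSeries (ZMod ℓ))ˣ := fun J =>
    un (coeff_zero_eul (R := ZMod ℓ) (nOrb (frobP k K σ) (strat Y f J))) with he
  set c : Finset ι → (PowerSeries (ZMod ℓ))ˣ := fun J =>
    un (coeff_zero_eul (R := ZMod ℓ) (nOrb (frobP k K σ) (clos Y f J))) with hc
  set t : (PowerSeries (ZMod ℓ))ˣ := un (coeff_zero_one_sub (ℓ := ℓ)) with ht
  have he1 : e Finset.univ = 1 := by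
    apply Units.ext
    rw [he, val_un, Units.val_one]
    refine (isEul_eul _).unique (isEul_zero.congr fun D _ => ?_)
    rw [hempty, nOrb_empty]
  have hce : ∀ I, I ≠ Finset.univ → c I = ∏ J ∈ Finset.univ.filter (fun J => I ⊆ J), e J := by
    intro I _
    apply Units.ext
    rw [Units.coe_prod, hc, val_un]
    refine (isEul_eul _).unique ?_
    refine (IsEul.prod (R := ZMod ℓ) (Finset.univ.filter (fun J => I ⊆ J))
      (b := fun J => nOrb (frobP k K σ) (strat Y f J)) fun J _ => ?_).congr fun D hD => ?_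
    · rw [he, val_un]
      exact isEul_eul _
    · rw [nOrb_clos hY hf I hD]
  have hmob := prod_moebius hN (m : ℤ) e c he1 hce
  -- the cover
  have hX0 := coeff_zero_eul (R := ZMod ℓ) (nOrb (frobX k K f m d) (prj ⁻¹' Y))
  have hX : un hX0 = ∏ I ∈ Finset.univ.erase (Finset.univ : Finset ι), e I ^ ((m : ℤ) ^ (N - I.card)) := by
    apply Units.ext
    rw [Units.coe_prod, val_un]
    have h1 := (isEul_eul (R := ZMod ℓ) (nOrb (frobX k K f m d) (prj ⁻¹' Y))).unique
      (isEul_cover (K := K) (k := k) hY hm hf hd hmn hℓ hempty)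
    rw [h1, ← Finset.mul_prod_erase Finset.univ _ (Finset.mem_univ (Finset.univ : Finset ι)), if_pos rfl,
      one_mul]
    refine Finset.prod_congr rfl fun I hI => ?_
    have hI' : I ≠ Finset.univ := Finset.ne_of_mem_erase hI
    rw [if_neg hI']
    have h2 : Iᶜ.card - 1 = N - I.card := by
      rw [Finset.card_compl, hN]
      omega
    rw [h2]
    have h3 : ((m : ℤ) ^ (N - I.card)) = ((m ^ (N - I.card) : ℕ) : ℤ) := by push_cast; rfl
    rw [h3, zpow_natCast, Units.val_pow_eq_pow_val, he, val_un]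
  have hXr := hRn.unit (ℓ := ℓ) hℓ (isEul_eul _) hX0
  have hcr : ∀ J ∈ Finset.univ.erase (Finset.univ : Finset ι), c J ^ (yexp m N J.card) =
      (if h : J ≠ Finset.univ then (un (coeff_zero_map (ℓ := ℓ) (hR J h).coeff)) ^
        ((-1 : ℤ) ^ N * ((m ^ (N - J.card) * (m - 1) ^ J.card : ℕ) : ℤ)) else 1) *
      t ^ (((N + 1 - J.card : ℕ) : ℤ) * yexp m N J.card) := by
    intro J hJ
    have hJ' : J ≠ Finset.univ := Finset.ne_of_mem_erase hJ
    have hJc := card_le_of_ne hN hJ'
    have hu : c J = (un (coeff_zero_map (ℓ := ℓ) (hR J hJ').coeff)) ^ ((-1 : ℤ) ^ (N - J.card)) *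
        t ^ (N - J.card + 1) := (hR J hJ').unit (ℓ := ℓ) hℓ (isEul_eul _) _
    rw [dif_pos hJ', hu, mul_zpow, ← zpow_mul, ← zpow_natCast, ← zpow_mul]
    congr 2
    · unfold yexp
      push_cast [Nat.cast_sub hm1]
      have h5 : (-1 : ℤ) ^ N = (-1) ^ (N - J.card) * (-1) ^ J.card := by
        rw [← pow_add, Nat.sub_add_cancel hJc]
      rw [h5, neg_pow ((m : ℤ) - 1)]
      ring
    · congr 1
      push_cast
      omega
  rw [hX, hmob, Finset.prod_congr rfl hcr, Finset.prod_mul_distrib, zpow_sum', sum_card_yexp hN] at hXr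
  -- cancel
  have h6 : (un (coeff_zero_map (ℓ := ℓ) hRn.coeff)) ^ ((-1 : ℤ) ^ N) =
      ∏ J ∈ Finset.univ.erase (Finset.univ : Finset ι),
        (if h : J ≠ Finset.univ then (un (coeff_zero_map (ℓ := ℓ) (hR J h).coeff)) ^
        ((-1 : ℤ) ^ N * ((m ^ (N - J.card) * (m - 1) ^ J.card : ℕ) : ℤ)) else 1) := by
    have h7 : t ^ ((N : ℤ) + 1) = t ^ (N + 1) := by
      rw [← zpow_natCast]
      push_cast
      rfl
    rw [h7] at hXr
    exact (mul_right_cancel hXr).symm
  have h8 := congrArg (fun u => u ^ ((-1 : ℤ) ^ N)) h6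
  beta_reduce at h8
  have hsq : ((-1 : ℤ) ^ N) * ((-1 : ℤ) ^ N) = 1 := by
    rw [← mul_pow]
    simp
  rw [← zpow_mul, hsq, zpow_one, ← Finset.prod_zpow] at h8
  have h9 := congrArg Units.val h8
  rw [val_un, Units.coe_prod] at h9
  apply Polynomial.coe_injective (ZMod ℓ)
  rw [h9]
  have hcoe : ∀ (s : Finset (Finset ι)) (g : Finset ι → Polynomial (ZMod ℓ)),
      ((∏ J ∈ s, g J : Polynomial (ZMod ℓ)) : PowerSeries (ZMod ℓ)) =
        ∏ J ∈ s, (g J : PowerSeries (ZMod ℓ)) := fun s g =>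
    map_prod (Polynomial.coeToPowerSeries.ringHom (R := ZMod ℓ)) g s
  rw [hcoe]
  refine Finset.prod_congr rfl fun J hJ => ?_
  have hJ' : J ≠ Finset.univ := Finset.ne_of_mem_erase hJ
  rw [dif_pos hJ', ← zpow_mul, mul_right_comm, hsq, one_mul, zpow_natCast,
    Units.val_pow_eq_pow_val, val_un, Polynomial.coe_pow]

end main

end Pool.Agent.K9h8.Kum
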