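import Pool.Agent.K9h8.Kum.Sy

/-!
# Tate classes in representations
-/

set_option autoImplicit false

namespace Pool.Agent.K9h8.Kum

theorem noTate_of {ℓ : ℕ} (hℓ : ℓ.Prime) {q : ℤ} (hq : (ℓ : ℤ) ∣ q - 1) (hq0 : q ≠ 0)
    {R : Polynomial ℤ} (hR : ¬ (ℓ : ℤ) ∣ R.eval 1) (a : ℕ) : NoTate q R (ℓ ^ a) := by
  intro E _ _ V _ _ _ Γ _ ρ φ ε hφ hε Γ' ha v hv
  refine no_classes hℓ hq hR (ρ φ) hφ hq0 a v ?_
  have h1 := hv _ ha
  rw [map_pow, map_pow, hε] at h1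
  exact h1

theorem noTate_one {q : ℤ} (hq0 : q ≠ 0) {R : Polynomial ℤ}
    (hR : (R.map (Int.castRingHom ℚ)).eval (1 / (q : ℚ)) ≠ 0) : NoTate q R 1 := by
  intro E _ _ V _ _ _ Γ _ ρ φ ε hφ hε Γ' ha v hv
  by_contra hne
  have h1 := hv _ ha
  rw [pow_one, hε] at h1
  have hqE : (q : E) ≠ 0 := by exact_mod_cast hq0
  have h2 : Module.End.HasEigenvalue (ρ φ) (q : E) :=
    Module.End.hasEigenvalue_of_hasEigenvector ⟨Module.End.mem_eigenspace_iff.2 h1, hne⟩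
  have h3 : (ρ φ).charpoly.eval (q : E) = 0 := by
    have := (Module.End.hasEigenvalue_iff_isRoot_charpoly (ρ φ) (q : E)).1 h2
    exact this
  let _ : Invertible (q : E) := invertibleOfNonzero hqE
  have h4 : Polynomial.eval₂ (RingHom.id E) (⅟(q : E)) (ρ φ).charpoly.reverse = 0 := by
    rw [Polynomial.eval₂_reverse_eq_zero_iff]
    simpa [Polynomial.eval₂_id] using h3
  rw [hφ, Polynomial.eval₂_map, invOf_eq_inv] at h4
  apply hR
  have h5 : (algebraMap ℚ E) ((R.map (Int.castRingHom ℚ)).eval (1 / (q : ℚ))) = 0 := by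
    rw [Polynomial.eval_map, Polynomial.hom_eval₂, ← h4]
    have e1 : (algebraMap ℚ E).comp (Int.castRingHom ℚ) = (RingHom.id E).comp (Int.castRingHom E) :=
      RingHom.ext_int _ _
    rw [e1]
    congr 1
    simp
  exact (map_eq_zero _).1 h5

end Pool.Agent.K9h8.Kum
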