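import Pool.Agent.K9h8.Kum.Sx

/-!
# The number of special zeros, and the sign of the functional equation
-/

set_option autoImplicit false

namespace Pool.Agent.K9h8.Kum

open Polynomial

theorem reflect_prod {A : Type*} [CommRing A] (s : Multiset A) :
    reflect (Multiset.card s) (s.map fun z => X - C z).prod = (s.map fun z => 1 - C z * X).prod := by
  induction s using Multiset.induction_on with
  | empty => simp
  | cons z s ih =>
    rw [Multiset.map_cons, Multiset.prod_cons, Multiset.map_cons, Multiset.prod_cons,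
      Multiset.card_cons, add_comm (Multiset.card s) 1, reflect_mul, ih]
    · congr 1
      rw [reflect_sub, reflect_C, ← pow_one (X : A[X]), reflect_monomial]
      simp
    · refine (natDegree_sub_le _ _).trans ?_
      simp [natDegree_X_le]
    · refine (natDegree_multiset_prod_le _).trans ?_
      rw [Multiset.map_map]
      refine (Multiset.sum_le_card_nsmul _ 1 ?_).trans ?_
      · intro x hx
        rw [Multiset.mem_map] at hx
        obtain ⟨y, -, rfl⟩ := hx
        refine (natDegree_sub_le _ _).trans ?_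
        simp [natDegree_X_le]
      · simp

theorem reflect_map' {A B : Type*} [CommRing A] [CommRing B] (g : A →+* B) (N : ℕ) (P : A[X]) :
    reflect N (P.map g) = (reflect N P).map g := by
  ext n
  rw [coeff_reflect, coeff_map, coeff_map, coeff_reflect]

theorem le_of_dvd_ord {κ : Type*} [Field κ] {R : κ[X]} {r w : ℕ} (h : HasOrd (R : PowerSeries κ) r)
    {κ' : Type*} [CommRing κ'] [IsDomain κ'] (g : κ →+* κ') (hw : (1 - X) ^ w ∣ R.map g) : w ≤ r := by
  obtain ⟨A, B, hA, hB, e⟩ := h.nat
  rw [← coe_mul] at e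
  have e1 : R * B = (1 - X) ^ r * A := Polynomial.coe_injective κ e
  by_contra hcon
  push Not at hcon
  obtain ⟨c, rfl⟩ := Nat.exists_eq_add_of_lt hcon
  obtain ⟨N, hN⟩ := hw
  have e2 := congrArg (Polynomial.map g) e1
  rw [Polynomial.map_mul, hN, Polynomial.map_mul, Polynomial.map_pow, Polynomial.map_sub,
    Polynomial.map_one, Polynomial.map_X] at e2
  have h0 : ((1 - X) ^ r : κ'[X]) ≠ 0 := by
    apply pow_ne_zero
    intro h
    have := congrArg (eval 0) h
    simp at this
  have e3 : (1 - X) ^ (c + 1) * (N * B.map g) = A.map g := by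
    apply mul_left_cancel₀ h0
    rw [← e2]; ring
  have e4 := congrArg (eval 1) e3
  rw [eval_mul, eval_pow] at e4
  have hA1 : (A.map g).eval 1 = g (A.eval 1) := by
    have := Polynomial.eval_map_apply (f := g) (p := A) (1 : κ)
    rwa [map_one] at this
  rw [hA1] at e4
  simp only [eval_sub, eval_one, eval_X, sub_self, ne_eq, Nat.add_eq_zero_iff, one_ne_zero, and_false,
    not_false_eq_true, zero_pow, zero_mul] at e4
  exact hA ((map_eq_zero g).1 e4.symm)

/-- **The number of special zeros is at most the order modulo `ℓ`.** -/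
theorem card_special_le {ℓ : ℕ} [hℓ : Fact ℓ.Prime] {q : ℤ} (hq : (ℓ : ℤ) ∣ q - 1) {R : ℤ[X]}
    (hR0 : R.coeff 0 = 1) {r : ℕ}
    (hr : HasOrd ((R.map (Int.castRingHom (ZMod ℓ)) : (ZMod ℓ)[X]) : PowerSeries (ZMod ℓ)) r)
    {E : Type*} [Field E] [CharZero E] (a : ℕ) (s : Multiset E)
    (hs : s ≤ (R.map (Int.castRingHom E)).roots) (hz : ∀ z ∈ s, (z * (q : E)) ^ (ℓ ^ a) = 1) :
    Multiset.card s ≤ r := by
  classical
  have hℓp : ℓ.Prime := hℓ.out
  set D := R.natDegree with hD
  have hRne : R ≠ 0 := by
    rintro rfl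
    simp at hR0
  have hREne : R.map (Int.castRingHom E) ≠ 0 := by
    rw [Ne, Polynomial.map_eq_zero_iff (Int.castRingHom E).injective_int]
    exact hRne
  -- the inverse zeros are integral
  have hq0 : ∀ z ∈ s, (q : E) ≠ 0 := by
    intro z hz' h
    have := hz z hz'
    rw [h, mul_zero, zero_pow (pow_ne_zero _ hℓp.ne_zero)] at this
    exact zero_ne_one this
  have hz0 : ∀ z ∈ s, z ≠ 0 := by
    rintro z hz' rfl
    have := hz 0 hz'
    rw [zero_mul, zero_pow (pow_ne_zero _ hℓp.ne_zero)] at this
    exact zero_ne_one this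
  have hint : ∀ z ∈ s, IsIntegral ℤ (z⁻¹) := by
    intro z hz'
    have h1 : IsIntegral ℤ ((z * (q : E))⁻¹) := by
      refine IsIntegral.of_pow (pow_pos hℓp.pos a) ?_
      rw [inv_pow, hz z hz', inv_one]
      exact isIntegral_one
    have h2 : z⁻¹ = (z * (q : E))⁻¹ * (q : E) := by
      rw [mul_inv, inv_mul_cancel_right₀ (hq0 z hz')]
    rw [h2]
    exact h1.mul (isIntegral_algebraMap (R := ℤ) (x := q))
  -- the ring of integers
  have hmax : (Ideal.span {(ℓ : ℤ)}).IsMaximal :=
    PrincipalIdealRing.isMaximal_of_irreducible (Nat.prime_iff_prime_int.1 hℓp).irreducible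
  obtain ⟨𝔪, h𝔪, hc⟩ := Ideal.exists_ideal_over_maximal_of_isIntegral
    (S := integralClosure ℤ E) (Ideal.span {(ℓ : ℤ)}) (by
      intro x hx
      rw [RingHom.mem_ker] at hx
      have hinj : Function.Injective (algebraMap ℤ (integralClosure ℤ E)) :=
        FaithfulSMul.algebraMap_injective ℤ (integralClosure ℤ E)
      rw [hinj (hx.trans (map_zero _).symm)]
      exact Ideal.zero_mem _)
  let π : integralClosure ℤ E →+* (integralClosure ℤ E ⧸ 𝔪) := Ideal.Quotient.mk 𝔪
  have hfield : IsField (integralClosure ℤ E ⧸ 𝔪) := Ideal.Quotient.maximal_ideal_iff_isField_quotient 𝔪 |>.1 h𝔪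
  have hdom : IsDomain (integralClosure ℤ E ⧸ 𝔪) := hfield.isDomain
  have hker : ∀ x : ℤ, π (algebraMap ℤ _ x) = 0 ↔ (ℓ : ℤ) ∣ x := by
    intro x
    rw [← Ideal.mem_span_singleton, ← hc, Ideal.mem_comap]
    exact Ideal.Quotient.eq_zero_iff_mem
  have hchar : CharP (integralClosure ℤ E ⧸ 𝔪) ℓ := by
    refine ⟨fun x => ?_⟩
    have h3 := hker (x : ℤ)
    rw [Int.natCast_dvd_natCast] at h3
    rw [← h3]
    simp
  -- the reversed polynomial
  set M : ℤ[X] := reflect D R with hM
  have hMM : reflect D M = R := by rw [hM]; exact reflect_reflect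
  have hMmonic_deg : M.natDegree ≤ D := by
    rw [hM]
    refine (natDegree_reflect_le).trans ?_
    simp [hD]
  set u : Multiset E := s.map fun z => z⁻¹ with hu
  have hcard : Multiset.card u = Multiset.card s := by rw [hu, Multiset.card_map]
  have hdvdE : (u.map fun z => X - C z).prod ∣ M.map (Int.castRingHom E) := by
    have h1 : (s.map fun z => X - C z).prod ∣ R.map (Int.castRingHom E) :=
      (Multiset.prod_X_sub_C_dvd_iff_le_roots hREne s).2 hs
    obtain ⟨N, hN⟩ := h1
    have hdegs : (s.map fun z => X - C z).prod.natDegree = Multiset.card s :=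
      natDegree_multiset_prod_X_sub_C_eq_card s
    have hmon : (s.map fun z => X - C z).prod.Monic := monic_multisetProd_X_sub_C s
    have hNne : N ≠ 0 := by
      rintro rfl
      rw [mul_zero] at hN
      exact hREne hN
    have hdegR : (R.map (Int.castRingHom E)).natDegree = D :=
      natDegree_map_eq_of_injective (Int.castRingHom E).injective_int R
    have hdegN : D = Multiset.card s + N.natDegree := by
      rw [← hdegR, hN, hmon.natDegree_mul' hNne, hdegs]
    have h2 : M.map (Int.castRingHom E) =
        (s.map fun z => 1 - C z * X).prod * reflect N.natDegree N := by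
      rw [hM, ← reflect_map', hN, hdegN, reflect_mul _ _ hdegs.le le_rfl, reflect_prod]
    rw [h2]
    refine Dvd.dvd.mul_right ?_ _
    rw [hu, Multiset.map_map]
    have h3 : (s.map fun z => 1 - C z * X) =
        s.map fun z => C (-z) * (X - C (z⁻¹)) := by
      refine Multiset.map_congr rfl fun z hz' => ?_
      rw [mul_sub, ← C_mul, neg_mul, mul_inv_cancel₀ (hz0 z hz'), C_neg, C_neg, C_1]
      ring
    rw [h3, Multiset.prod_map_mul]
    exact dvd_mul_left _ _
  -- lift to the ring of integers
  have hlift : ∃ u' : Multiset (integralClosure ℤ E), u'.map (algebraMap (integralClosure ℤ E) E) = u ∧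
      ∀ x ∈ u', π x = 1 := by
    have hall : ∀ z ∈ s, ∃ x : integralClosure ℤ E, (x : E) = z⁻¹ ∧ π x = 1 := by
      intro z hz'
      refine ⟨⟨z⁻¹, hint z hz'⟩, rfl, ?_⟩
      set x : integralClosure ℤ E := ⟨z⁻¹, hint z hz'⟩ with hx
      have h5 : π (algebraMap ℤ _ q) = 1 := by
        have h6 := (hker (q - 1)).2 hq
        rw [map_sub, map_sub, map_one, map_one] at h6
        exact sub_eq_zero.1 h6
      have h7 : x ^ (ℓ ^ a) = (algebraMap ℤ _ q) ^ (ℓ ^ a) := by
        apply Subtype.ext
        have h8 := hz z hz'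
        rw [mul_pow] at h8
        have h9 : (z⁻¹ : E) ^ (ℓ ^ a) = (q : E) ^ (ℓ ^ a) := by
          rw [inv_pow]
          exact inv_eq_of_mul_eq_one_right h8
        change ((x ^ (ℓ ^ a) : integralClosure ℤ E) : E) = _
        rw [SubmonoidClass.coe_pow]
        exact h9
      have h10 : (π x) ^ (ℓ ^ a) = 1 := by
        rw [← map_pow, h7, map_pow, h5, one_pow]
      have h11 : (π x - 1) ^ (ℓ ^ a) = 0 := by
        have : Fact ℓ.Prime := hℓ
        rw [sub_pow_char_pow, h10, one_pow, sub_self]
      exact sub_eq_zero.1 (pow_eq_zero_iff (pow_ne_zero _ hℓp.ne_zero) |>.1 h11)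
    clear hdvdE hcard
    rw [hu]
    clear hu hs hz hq0 hz0 hint
    induction s using Multiset.induction_on with
    | empty => exact ⟨0, by simp, by simp⟩
    | cons z s ih =>
      obtain ⟨u', h1, h2⟩ := ih fun z hz' => hall z (Multiset.mem_cons_of_mem hz')
      obtain ⟨x, hx1, hx2⟩ := hall z (Multiset.mem_cons_self z s)
      refine ⟨x ::ₘ u', ?_, ?_⟩
      · rw [Multiset.map_cons, Multiset.map_cons, h1]
        congr 1
      · intro y hy
        rcases Multiset.mem_cons.1 hy with rfl | hy
        · exact hx2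
        · exact h2 y hy
  obtain ⟨u', hu1, hu2⟩ := hlift
  have hinjE : Function.Injective (algebraMap (integralClosure ℤ E) E) := Subtype.val_injective
  have hdvdO : (u'.map fun z => X - C z).prod ∣ M.map (algebraMap ℤ (integralClosure ℤ E)) := by
    rw [← Polynomial.map_dvd_map _ hinjE (monic_multisetProd_X_sub_C u')]
    have h1 : ((u'.map fun z => X - C z).prod).map (algebraMap (integralClosure ℤ E) E) =
        (u.map fun z => X - C z).prod := by
      rw [Polynomial.map_multiset_prod, Multiset.map_map, ← hu1, Multiset.map_map]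
      congr 1
      refine Multiset.map_congr rfl fun z _ => ?_
      simp
    have h2 : (M.map (algebraMap ℤ (integralClosure ℤ E))).map (algebraMap (integralClosure ℤ E) E) =
        M.map (Int.castRingHom E) := by
      rw [Polynomial.map_map]
      congr 1
    rw [h1, h2]
    exact hdvdE
  -- reduce
  have hdvdκ : ((X - C 1) ^ (Multiset.card s) : (integralClosure ℤ E ⧸ 𝔪)[X]) ∣
      M.map (π.comp (algebraMap ℤ (integralClosure ℤ E))) := by
    have h1 := Polynomial.map_dvd π hdvdO
    rw [Polynomial.map_map, Polynomial.map_multiset_prod, Multiset.map_map] at h1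
    have h2 : (u'.map (Polynomial.map π ∘ fun z => X - C z)) =
        u'.map fun _ => (X - C 1 : (integralClosure ℤ E ⧸ 𝔪)[X]) := by
      refine Multiset.map_congr rfl fun z hz' => ?_
      simp [hu2 z hz']
    rw [h2, Multiset.map_const', Multiset.prod_replicate] at h1
    have h3 : Multiset.card u' = Multiset.card s := by
      rw [← hcard, ← hu1, Multiset.card_map]
    rw [h3] at h1
    exact h1
  have hdvdR : ((1 - X) ^ (Multiset.card s) : (integralClosure ℤ E ⧸ 𝔪)[X]) ∣
      R.map (π.comp (algebraMap ℤ (integralClosure ℤ E))) := by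
    obtain ⟨N, hN⟩ := hdvdκ
    have hmon : ((X - C 1) ^ (Multiset.card s) : (integralClosure ℤ E ⧸ 𝔪)[X]).Monic :=
      (monic_X_sub_C 1).pow _
    have hdeg : ((X - C 1) ^ (Multiset.card s) : (integralClosure ℤ E ⧸ 𝔪)[X]).natDegree =
        Multiset.card s := by
      rw [(monic_X_sub_C (1 : integralClosure ℤ E ⧸ 𝔪)).natDegree_pow, natDegree_X_sub_C, mul_one]
    have hRr : R.map (π.comp (algebraMap ℤ (integralClosure ℤ E))) =
        reflect D (M.map (π.comp (algebraMap ℤ (integralClosure ℤ E)))) := by
      rw [reflect_map', hMM]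
    have hrep : ((X - C 1) ^ (Multiset.card s) : (integralClosure ℤ E ⧸ 𝔪)[X]) =
        ((Multiset.replicate (Multiset.card s) (1 : integralClosure ℤ E ⧸ 𝔪)).map
          fun z => X - C z).prod := by
      rw [Multiset.map_replicate, Multiset.prod_replicate]
    have hrep' : ((Multiset.replicate (Multiset.card s) (1 : integralClosure ℤ E ⧸ 𝔪)).map
          fun z => 1 - C z * X).prod = (1 - X) ^ (Multiset.card s) := by
      rw [Multiset.map_replicate, Multiset.prod_replicate, C_1, one_mul]
    have hMκ : M.map (π.comp (algebraMap ℤ (integralClosure ℤ E))) ≠ 0 := by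
      intro h
      have h1 := congrArg (fun P => Polynomial.coeff P D) h
      simp only [coeff_map, coeff_zero] at h1
      rw [hM, coeff_reflect, revAt_le le_rfl, Nat.sub_self, hR0, map_one] at h1
      exact one_ne_zero h1
    have hNne : N ≠ 0 := by
      rintro rfl
      rw [mul_zero] at hN
      exact hMκ hN
    have hdegM : (M.map (π.comp (algebraMap ℤ (integralClosure ℤ E)))).natDegree ≤ D :=
      natDegree_map_le.trans hMmonic_deg
    have hdegN : Multiset.card s + N.natDegree ≤ D := by
      have h1 : (M.map (π.comp (algebraMap ℤ (integralClosure ℤ E)))).natDegree =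
          Multiset.card s + N.natDegree := by
        rw [hN, hmon.natDegree_mul' hNne, hdeg]
      rw [← h1]
      exact hdegM
    have hsplit : D = Multiset.card s + (D - Multiset.card s) := by omega
    rw [hRr, hN, hsplit, reflect_mul _ _ hdeg.le (by omega)]
    refine Dvd.dvd.mul_right ?_ _
    have h5 := reflect_prod (Multiset.replicate (Multiset.card s) (1 : integralClosure ℤ E ⧸ 𝔪))
    rw [hrep', Multiset.card_replicate, ← hrep] at h5
    rw [h5]
  let g : ZMod ℓ →+* (integralClosure ℤ E ⧸ 𝔪) := ZMod.castHom dvd_rfl _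
  refine le_of_dvd_ord hr g ?_
  have hg : g.comp (Int.castRingHom (ZMod ℓ)) = π.comp (algebraMap ℤ (integralClosure ℤ E)) :=
    RingHom.ext_int _ _
  rw [Polynomial.map_map, hg]
  exact hdvdR

end Pool.Agent.K9h8.Kum
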