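import Pool.Agent.K9h8.Kum.Full
import Pool.Agent.K9h8.Kum.Sgn
import Pool.Agent.K9h8.Kum.Rep

/-!
# Consequences of the congruence
-/

set_option autoImplicit false

namespace Pool.Agent.K9h8.Kum

open Function
open scoped LinearAlgebra.Projectivization

theorem hasOrd_rootMultiplicity {κ : Type*} [Field κ] {P : Polynomial κ} (hP : P ≠ 0) :
    HasOrd (P : PowerSeries κ) (P.rootMultiplicity 1) := by
  obtain ⟨A, hA⟩ := Polynomial.pow_rootMultiplicity_dvd P 1
  have hA1 : A.eval 1 ≠ 0 := by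
    intro h0
    have h1 : (Polynomial.X - Polynomial.C 1) ∣ A := Polynomial.dvd_iff_isRoot.2 h0
    obtain ⟨B, rfl⟩ := h1
    have h2 : (Polynomial.X - Polynomial.C 1) ^ (P.rootMultiplicity 1 + 1) ∣ P := by
      refine ⟨B, ?_⟩
      conv_lhs => rw [hA]
      ring
    have h3 := (Polynomial.le_rootMultiplicity_iff hP).2 h2
    omega
  have h1 := (HasOrd.pow (hasOrd_one_sub (κ := κ)) (P.rootMultiplicity 1)).mul
    (hasOrd_poly (P := Polynomial.C ((-1) ^ (P.rootMultiplicity 1)) * A) (by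
      rw [Polynomial.eval_mul, Polynomial.eval_C]
      exact mul_ne_zero (pow_ne_zero _ (neg_ne_zero.2 one_ne_zero)) hA1))
  convert h1 using 1
  · rw [← Polynomial.coe_pow, ← Polynomial.coe_mul]
    congr 1
    conv_lhs => rw [hA]
    have h2 : (Polynomial.X - Polynomial.C 1 : Polynomial κ) = -1 * (1 - Polynomial.X) := by
      rw [Polynomial.C_1]; ring
    rw [h2, mul_pow, Polynomial.C_pow, Polynomial.C_neg, Polynomial.C_1]
    ring
  · push_cast
    ring

theorem map_ne_zero' {ℓ : ℕ} [Fact ℓ.Prime] {R : Polynomial ℤ} (h : R.coeff 0 = 1) :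
    R.map (Int.castRingHom (ZMod ℓ)) ≠ 0 := by
  intro h0
  have h1 := congrArg (fun P => Polynomial.coeff P 0) h0
  simp only [Polynomial.coeff_map, Polynomial.coeff_zero] at h1
  rw [h, map_one] at h1
  exact one_ne_zero h1

theorem hasOrd_prod_pow {ℓ : ℕ} [Fact ℓ.Prime] {ι : Type*} (s : Finset ι) (R : ι → Polynomial ℤ)
    (hR : ∀ J ∈ s, (R J).coeff 0 = 1) (a : ι → ℕ) {P : Polynomial (ZMod ℓ)}
    (hP : P = ∏ J ∈ s, ((R J).map (Int.castRingHom (ZMod ℓ))) ^ a J) :
    HasOrd (P : PowerSeries (ZMod ℓ))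
      ((∑ J ∈ s, a J * ((R J).map (Int.castRingHom (ZMod ℓ))).rootMultiplicity 1 : ℕ) : ℤ) := by
  have hcoe : (P : PowerSeries (ZMod ℓ)) =
      ∏ J ∈ s, (((R J).map (Int.castRingHom (ZMod ℓ)) : Polynomial (ZMod ℓ)) : PowerSeries (ZMod ℓ)) ^ a J := by
    rw [hP]
    have := map_prod (Polynomial.coeToPowerSeries.ringHom (R := ZMod ℓ))
      (fun J => ((R J).map (Int.castRingHom (ZMod ℓ))) ^ a J) s
    refine this.trans (Finset.prod_congr rfl fun J _ => ?_)
    exact map_pow (Polynomial.coeToPowerSeries.ringHom (R := ZMod ℓ)) _ _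
  rw [hcoe]
  have h := HasOrd.prod s fun J hJ =>
    (hasOrd_rootMultiplicity (map_ne_zero' (ℓ := ℓ) (hR J hJ))).pow (a J)
  convert h using 1
  push_cast
  rfl

end Pool.Agent.K9h8.Kum
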