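import Pool.Agent.K9h8.Kum.Main

/-!
# Two lines and a conic
-/

set_option autoImplicit false

namespace Pool.Agent.K9h8.Kum

open Function
open scoped LinearAlgebra.Projectivization

/-! ### Equivariant bijections -/

section equi

variable {S T : Type*} {F : S → S} {G : T → T}

theorem iter_comm {g : S → T} (hg : ∀ x, g (F x) = G (g x)) (x : S) (n : ℕ) :
    g (F^[n] x) = G^[n] (g x) := by
  induction n with
  | zero => rfl
  | succ n ih => rw [Function.iterate_succ_apply', Function.iterate_succ_apply', hg, ih]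

theorem minimalPeriod_eq_of_inj {g : S → T} (hg : ∀ x, g (F x) = G (g x)) (hinj : Injective g) (x : S) :
    minimalPeriod G (g x) = minimalPeriod F x := by
  apply Nat.dvd_antisymm
  · apply IsPeriodicPt.minimalPeriod_dvd
    change G^[_] (g x) = g x
    rw [← iter_comm hg]
    congr 1
    exact Function.isPeriodicPt_minimalPeriod F x
  · apply IsPeriodicPt.minimalPeriod_dvd
    change F^[_] x = x
    apply hinj
    rw [iter_comm hg]
    exact Function.isPeriodicPt_minimalPeriod G (g x)

theorem nOrb_image {g : S → T} (hg : ∀ x, g (F x) = G (g x)) (hinj : Injective g) (A : Set S) (d : ℕ) :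
    nOrb G (g '' A) d = nOrb F A d := by
  have horb : ∀ x, orb G (g x) = g '' orb F x := by
    intro x
    ext y
    constructor
    · rintro ⟨n, rfl⟩
      exact ⟨F^[n] x, ⟨n, rfl⟩, iter_comm hg x n⟩
    · rintro ⟨z, ⟨n, rfl⟩, rfl⟩
      exact ⟨n, (iter_comm hg x n).symm⟩
  have h1 : {O : Set T | ∃ x, x ∈ g '' A ∧ minimalPeriod G x = d ∧ O = orb G x} =
      (fun O => g '' O) '' {O : Set S | ∃ x, x ∈ A ∧ minimalPeriod F x = d ∧ O = orb F x} := by
    ext O
    constructor
    · rintro ⟨y, ⟨x, hx, rfl⟩, h2, rfl⟩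
      refine ⟨orb F x, ⟨x, hx, ?_, rfl⟩, (horb x).symm⟩
      rw [← minimalPeriod_eq_of_inj hg hinj, h2]
    · rintro ⟨O', ⟨x, hx, h2, rfl⟩, rfl⟩
      refine ⟨g x, ⟨x, hx, rfl⟩, ?_, (horb x).symm⟩
      rw [minimalPeriod_eq_of_inj hg hinj, h2]
  unfold nOrb
  rw [h1, Set.ncard_image_of_injective _ (Set.image_injective.2 hinj)]

end equi

variable {k : Type*} [Field k] [Fintype k] {K : Type*} [Field K] [Algebra k K] [IsAlgClosed K]

/-! ### Maps between projective spaces given by formulas -/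

/-- A map of projective spaces from a map of coordinates that is compatible with scaling. -/
noncomputable def pmap {σ τ : Type*} (c : (σ → K) → (τ → K)) (e : ℕ)
    (hc : ∀ (t : K) (v : σ → K), c (fun i => t * v i) = fun j => t ^ e * c v j)
    (h0 : ∀ v, v ≠ 0 → c v ≠ 0) : ℙ K (σ → K) → ℙ K (τ → K) :=
  Quotient.map' (s₁ := projectivizationSetoid K (σ → K)) (s₂ := projectivizationSetoid K (τ → K))
    (fun v => ⟨c v.1, h0 v.1 v.2⟩) (by
      rintro ⟨u, hu⟩ ⟨v, hv⟩ ⟨a, ha⟩
      refine ⟨a ^ e, ?_⟩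
      have h1 : (fun i => (a : K) * v i) = u := ha
      change (a ^ e : Kˣ) • c v = c u
      rw [← h1, hc]
      funext j
      simp [Units.smul_def])

omit [IsAlgClosed K] in
theorem pmap_mk {σ τ : Type*} (c : (σ → K) → (τ → K)) (e : ℕ)
    (hc : ∀ (t : K) (v : σ → K), c (fun i => t * v i) = fun j => t ^ e * c v j)
    (h0 : ∀ v, v ≠ 0 → c v ≠ 0) (v : σ → K) (hv : v ≠ 0) :
    pmap c e hc h0 (Projectivization.mk K v hv) = Projectivization.mk K (c v) (h0 v hv) := rfl

omit [IsAlgClosed K] in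
theorem pmap_frob {σ τ : Type*} (c : (σ → K) → (τ → K)) (e : ℕ)
    (hc : ∀ (t : K) (v : σ → K), c (fun i => t * v i) = fun j => t ^ e * c v j)
    (h0 : ∀ v, v ≠ 0 → c v ≠ 0)
    (hF : ∀ v : σ → K, c (fun i => v i ^ Fintype.card k) = fun j => c v j ^ Fintype.card k)
    (P : ℙ K (σ → K)) : pmap c e hc h0 (frobP k K σ P) = frobP k K τ (pmap c e hc h0 P) := by
  induction P using Projectivization.ind with
  | h v hv =>
    rw [frobP_mk, pmap_mk, pmap_mk, frobP_mk]
    congr 1
    exact hF v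

/-- The inverse zeta function of the projective line and of its images. -/
theorem isEul_line : IsEul (nOrb (frobP k K (Fin 2)) Set.univ)
    ((1 - PowerSeries.X) * (1 - PowerSeries.C (Fintype.card k : ℤ) * PowerSeries.X) : PowerSeries ℤ) := by
  have h := isEul_proj (k := k) (K := K) (σ := Fin 2)
  have e1 : (∏ j ∈ Finset.range (Fintype.card (Fin 2)),
      (1 - PowerSeries.C ((Fintype.card k : ℤ) ^ j) * PowerSeries.X : PowerSeries ℤ)) =
      (1 - PowerSeries.X) * (1 - PowerSeries.C (Fintype.card k : ℤ) * PowerSeries.X) := by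
    rw [Fintype.card_fin, Finset.prod_range_succ, Finset.prod_range_one]
    simp
  rwa [e1] at h

theorem isEul_of_param (g : ℙ K (Fin 2 → K) → ℙ K (Fin 3 → K))
    (hg : ∀ x, g (frobP k K (Fin 2) x) = frobP k K (Fin 3) (g x)) (hinj : Injective g)
    (B : Set (ℙ K (Fin 3 → K))) (hB : B = Set.range g) :
    IsEul (nOrb (frobP k K (Fin 3)) B)
      ((1 - PowerSeries.X) * (1 - PowerSeries.C (Fintype.card k : ℤ) * PowerSeries.X) :
        PowerSeries ℤ) := by
  refine (isEul_line (k := k) (K := K)).congr fun D _ => ?_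
  rw [hB, ← Set.image_univ, nOrb_image hg hinj]

end Pool.Agent.K9h8.Kum
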