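import Mathlib

/-!
# The order at `X = 1` of power series which are rational functions
-/

set_option autoImplicit false

namespace Pool.Agent.K9h8.Kum

open Polynomial

variable {κ : Type*} [Field κ]

/-- `G = (1 - X) ^ k A / B` with polynomials `A`, `B` that do not vanish at `1`. -/
def HasOrd (G : PowerSeries κ) (k : ℤ) : Prop :=
  ∃ (A B : κ[X]) (r s : ℕ), A.eval 1 ≠ 0 ∧ B.eval 1 ≠ 0 ∧ (r : ℤ) - s = k ∧
    ((((1 - X) ^ s * B : κ[X])) : PowerSeries κ) * G = (((1 - X) ^ r * A : κ[X]) : PowerSeries κ)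

theorem HasOrd.mul {G G' : PowerSeries κ} {k k' : ℤ} (h : HasOrd G k) (h' : HasOrd G' k') :
    HasOrd (G * G') (k + k') := by
  obtain ⟨A, B, r, s, hA, hB, hk, e⟩ := h
  obtain ⟨A', B', r', s', hA', hB', hk', e'⟩ := h'
  refine ⟨A * A', B * B', r + r', s + s', ?_, ?_, ?_, ?_⟩
  · rw [eval_mul]; exact mul_ne_zero hA hA'
  · rw [eval_mul]; exact mul_ne_zero hB hB'
  · push_cast; omega
  · have h1 : ((1 - X) ^ (s + s') * (B * B') : κ[X]) = ((1 - X) ^ s * B) * ((1 - X) ^ s' * B') := by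
      ring
    have h2 : ((1 - X) ^ (r + r') * (A * A') : κ[X]) = ((1 - X) ^ r * A) * ((1 - X) ^ r' * A') := by
      ring
    rw [h1, h2, coe_mul ((1 - X) ^ s * B), coe_mul ((1 - X) ^ r * A), ← e, ← e']
    ring

theorem HasOrd.one : HasOrd (1 : PowerSeries κ) 0 :=
  ⟨1, 1, 0, 0, by simp, by simp, by simp, by simp⟩

theorem HasOrd.pow {G : PowerSeries κ} {k : ℤ} (h : HasOrd G k) (n : ℕ) :
    HasOrd (G ^ n) (n * k) := by
  induction n with
  | zero => simpa using HasOrd.one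
  | succ n ih =>
    rw [pow_succ]
    have := ih.mul h
    convert this using 1
    push_cast; ring

theorem HasOrd.prod {ι : Type*} (s : Finset ι) {G : ι → PowerSeries κ} {k : ι → ℤ}
    (h : ∀ i ∈ s, HasOrd (G i) (k i)) : HasOrd (∏ i ∈ s, G i) (∑ i ∈ s, k i) := by
  classical
  induction s using Finset.induction_on with
  | empty => simpa using HasOrd.one
  | insert a s ha ih =>
    rw [Finset.prod_insert ha, Finset.sum_insert ha]
    exact (h a (Finset.mem_insert_self _ _)).mul (ih fun i hi => h i (Finset.mem_insert_of_mem hi))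

theorem one_sub_X_ne : (1 - X : κ[X]) ≠ 0 := by
  intro h
  have := congrArg (eval 0) h
  simp at this

theorem coe_ne {P : κ[X]} (h : P ≠ 0) : (P : PowerSeries κ) ≠ 0 := by
  intro h1
  exact h (Polynomial.coe_injective κ (by rw [h1, Polynomial.coe_zero]))

theorem ne_zero_of_eval {P : κ[X]} (h : P.eval 1 ≠ 0) : P ≠ 0 := by
  rintro rfl
  exact h (by simp)

theorem HasOrd.div {G H : PowerSeries κ} {k j : ℤ} (h : HasOrd (G * H) k) (h' : HasOrd H j) :
    HasOrd G (k - j) := by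
  obtain ⟨A, B, r, s, hA, hB, hk, e⟩ := h
  obtain ⟨A', B', r', s', hA', hB', hk', e'⟩ := h'
  refine ⟨A * B', B * A', r + s', s + r', ?_, ?_, ?_, ?_⟩
  · rw [eval_mul]; exact mul_ne_zero hA hB'
  · rw [eval_mul]; exact mul_ne_zero hB hA'
  · push_cast; omega
  · have h1 : ((1 - X) ^ (s + r') * (B * A') : κ[X]) = ((1 - X) ^ s * B) * ((1 - X) ^ r' * A') := by
      ring
    have h2 : ((1 - X) ^ (r + s') * (A * B') : κ[X]) = ((1 - X) ^ r * A) * ((1 - X) ^ s' * B') := by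
      ring
    rw [h1, h2, coe_mul ((1 - X) ^ s * B), coe_mul ((1 - X) ^ r * A), ← e, ← e']
    ring

/-- The order of a polynomial. -/
theorem hasOrd_poly {P : κ[X]} (h : P.eval 1 ≠ 0) : HasOrd (P : PowerSeries κ) 0 :=
  ⟨P, 1, 0, 0, h, by simp, by simp, by simp⟩

theorem hasOrd_one_sub : HasOrd ((1 - X : κ[X]) : PowerSeries κ) 1 :=
  ⟨1, 1, 1, 0, by simp, by simp, by simp, by simp⟩

theorem HasOrd.eval_ne {P : κ[X]} {k : ℤ} (h : HasOrd (P : PowerSeries κ) k) (hk : k = 0) :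
    P.eval 1 ≠ 0 := by
  obtain ⟨A, B, r, s, hA, hB, hk', e⟩ := h
  have hrs : r = s := by omega
  subst hrs
  rw [← coe_mul] at e
  have e1 := Polynomial.coe_injective κ e
  have e2 : B * P = A := by
    have h0 : ((1 - X) ^ r : κ[X]) ≠ 0 := pow_ne_zero _ one_sub_X_ne
    apply mul_left_cancel₀ h0
    rw [← e1]; ring
  intro h0
  apply hA
  rw [← e2, eval_mul, h0, mul_zero]

/-- The order is unique. -/
theorem HasOrd.unique {G : PowerSeries κ} {k k' : ℤ} (h : HasOrd G k) (h' : HasOrd G k') :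
    k = k' := by
  obtain ⟨A, B, r, s, hA, hB, hk, e⟩ := h
  obtain ⟨A', B', r', s', hA', hB', hk', e'⟩ := h'
  have e1 : ((1 - X) ^ (r + s') * (A * B') : κ[X]) = (1 - X) ^ (r' + s) * (A' * B) := by
    apply Polynomial.coe_injective κ
    have h1 : ((1 - X) ^ (r + s') * (A * B') : κ[X]) = ((1 - X) ^ r * A) * ((1 - X) ^ s' * B') := by
      ring
    have h2 : ((1 - X) ^ (r' + s) * (A' * B) : κ[X]) = ((1 - X) ^ r' * A') * ((1 - X) ^ s * B) := by
      ring
    rw [h1, h2, coe_mul ((1 - X) ^ r * A), coe_mul ((1 - X) ^ r' * A'), ← e, ← e']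
    ring
  have key : ∀ (a b : ℕ) (P Q : κ[X]), P.eval 1 ≠ 0 → (1 - X) ^ a * P = (1 - X) ^ b * Q → b ≤ a := by
    intro a b P Q hP h
    by_contra hcon
    push Not at hcon
    obtain ⟨c, rfl⟩ := Nat.exists_eq_add_of_lt hcon
    have h0 : ((1 - X) ^ a : κ[X]) ≠ 0 := pow_ne_zero _ one_sub_X_ne
    have h1 : P = (1 - X) ^ (c + 1) * Q := by
      apply mul_left_cancel₀ h0
      rw [h]; ring
    apply hP
    rw [h1, eval_mul, eval_pow]
    simp
  have k1 := key _ _ _ _ (by rw [eval_mul]; exact mul_ne_zero hA hB') e1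
  have k2 := key _ _ _ _ (by rw [eval_mul]; exact mul_ne_zero hA' hB) e1.symm
  omega

end Pool.Agent.K9h8.Kum
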