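import Pool.Agent.K9h8.Kum.Per
import Pool.Agent.K9h8.Kum.Ord

/-!
# Zeta functions modulo `ℓ` of the Kummer covers
-/

set_option autoImplicit false

namespace Pool.Agent.K9h8.Kum

open Function
open scoped LinearAlgebra.Projectivization

section

variable {k : Type*} [Field k] [Fintype k] {K : Type*} [Field K] [Algebra k K] [IsAlgClosed K]
  {σ ι : Type*} [Fintype σ] [Fintype ι] [DecidableEq ι] {f : ι → MvPolynomial σ k} {m : ℕ} {d : ι → ℕ}

/-- The closed stratum. -/
def clos (Y : Set (ℙ K (σ → K))) (f : ι → MvPolynomial σ k) (I : Finset ι) :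
    Set (ℙ K (σ → K)) := {P | P ∈ Y ∧ I ⊆ van f P}

variable {Y : Set (ℙ K (σ → K))}

theorem nOrb_clos (hY : ∀ P ∈ Y, frobP k K σ P ∈ Y) (hf : ∀ i, (f i).IsHomogeneous (d i))
    (I : Finset ι) {D : ℕ} (hD : 1 ≤ D) :
    nOrb (frobP k K σ) (clos Y f I) D =
      ∑ J ∈ Finset.univ.filter (fun J => I ⊆ J), nOrb (frobP k K σ) (strat Y f J) D := by
  classical
  have hN : Nice (frobP k K σ) (clos Y f I) := by
    refine nice_proj _ fun P hP => ⟨hY P hP.1, ?_⟩
    rw [van_frob hf]
    exact hP.2
  rw [nOrb_sum hN (van f) (fun P _ => van_frob hf P) hD, Finset.sum_filter]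
  refine Finset.sum_congr rfl fun J _ => ?_
  split_ifs with h
  · congr 1
    ext P
    constructor
    · rintro ⟨h0, h1⟩
      exact ⟨h0.1, h1⟩
    · rintro ⟨h0, h1⟩
      refine ⟨⟨h0, ?_⟩, h1⟩
      rw [h1]
      exact h
  · have : clos Y f I ∩ van f ⁻¹' {J} = ∅ := by
      rw [Set.eq_empty_iff_forall_notMem]
      rintro P ⟨h1, h2⟩
      apply h
      rw [← show van f P = J from h2]
      exact h1.2
    rw [this, nOrb_empty]

theorem count_faces {N : ℕ} (hN : Fintype.card ι = N + 1) (I : Finset ι) :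
    (∑ J ∈ Finset.univ.filter (fun J => I ⊆ J), (if J.card = N then (1 : ℤ) else 0)) =
      N + 1 - I.card := by
  rw [← Finset.sum_filter, Finset.sum_const, nsmul_eq_mul, mul_one]
  have h1 : (Finset.univ.filter (fun J => I ⊆ J)).filter (fun J => J.card = N) =
      Iᶜ.image (fun x => ({x} : Finset ι)ᶜ) := by
    ext J
    rw [Finset.mem_filter, Finset.mem_filter, Finset.mem_image]
    constructor
    · rintro ⟨⟨-, h1⟩, h2⟩
      have h3 : Jᶜ.card = 1 := by
        rw [Finset.card_compl, hN, h2]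
        omega
      rw [Finset.card_eq_one] at h3
      obtain ⟨x, hx⟩ := h3
      refine ⟨x, ?_, ?_⟩
      · rw [Finset.mem_compl]
        intro hxI
        have : x ∈ Jᶜ := by rw [hx]; simp
        exact (Finset.mem_compl.1 this) (h1 hxI)
      · rw [← hx, compl_compl]
    · rintro ⟨x, hx, rfl⟩
      refine ⟨⟨Finset.mem_univ _, ?_⟩, ?_⟩
      · intro y hy
        rw [Finset.mem_compl, Finset.mem_singleton]
        rintro rfl
        exact (Finset.mem_compl.1 hx) hy
      · rw [Finset.card_compl, Finset.card_singleton, hN]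
        omega
  rw [h1, Finset.card_image_of_injective, Finset.card_compl, hN]
  · have : I.card ≤ N + 1 := by rw [← hN]; exact Finset.card_le_univ I
    push_cast [Nat.cast_sub this]
    ring
  · intro x y h
    have := compl_injective h
    exact Finset.singleton_injective this

/-- The orders of the open strata. -/
theorem hasOrd_strat (hY : ∀ P ∈ Y, frobP k K σ P ∈ Y) {N : ℕ} (hN : Fintype.card ι = N + 1) (hf : ∀ i, (f i).IsHomogeneous (d i))
    {ℓ : ℕ} [Fact ℓ.Prime] (hempty : strat Y f Finset.univ = ∅)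
    (hB : ∀ I : Finset ι, I ≠ Finset.univ → ∀ G : PowerSeries (ZMod ℓ),
      IsEul (nOrb (frobP k K σ) (clos Y f I)) G → HasOrd G (N + 1 - I.card)) :
    ∀ J : Finset ι, HasOrd (eul (ZMod ℓ) (nOrb (frobP k K σ) (strat Y f J)))
      (if J.card = N then 1 else 0) := by
  have huniv : HasOrd (eul (ZMod ℓ) (nOrb (frobP k K σ) (strat Y f Finset.univ)))
      (if (Finset.univ : Finset ι).card = N then 1 else 0) := by
    have h1 : eul (ZMod ℓ) (nOrb (frobP k K σ) (strat Y f Finset.univ)) = 1 := by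
      refine (isEul_eul _).unique (isEul_zero.congr fun D _ => ?_)
      rw [hempty, nOrb_empty]
    rw [h1, if_neg]
    · exact HasOrd.one
    · rw [Finset.card_univ, hN]
      omega
  suffices H : ∀ r : ℕ, ∀ J : Finset ι, Jᶜ.card = r →
      HasOrd (eul (ZMod ℓ) (nOrb (frobP k K σ) (strat Y f J))) (if J.card = N then 1 else 0) from
    fun J => H _ J rfl
  intro r
  induction r using Nat.strong_induction_on with
  | _ r ih =>
    intro I hI
    by_cases hIu : I = Finset.univ
    · rw [hIu]
      exact huniv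
    have h1 : IsEul (nOrb (frobP k K σ) (clos Y f I))
        (∏ J ∈ Finset.univ.filter (fun J => I ⊆ J),
          eul (ZMod ℓ) (nOrb (frobP k K σ) (strat Y f J))) := by
      refine (IsEul.prod (R := ZMod ℓ) (Finset.univ.filter (fun J => I ⊆ J))
        (b := fun J => nOrb (frobP k K σ) (strat Y f J)) fun J _ => isEul_eul _).congr fun D hD => ?_
      rw [nOrb_clos hY hf I hD]
    have h2 := hB I hIu _ h1
    have hmem : I ∈ Finset.univ.filter (fun J => I ⊆ J) := by simp
    have h3 : HasOrd (∏ J ∈ (Finset.univ.filter (fun J => I ⊆ J)).erase I,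
        eul (ZMod ℓ) (nOrb (frobP k K σ) (strat Y f J)))
        (∑ J ∈ (Finset.univ.filter (fun J => I ⊆ J)).erase I, if J.card = N then (1 : ℤ) else 0) := by
      refine HasOrd.prod _ fun J hJ => ?_
      rw [Finset.mem_erase, Finset.mem_filter] at hJ
      have h4 : I ⊂ J := Finset.ssubset_iff_subset_ne.2 ⟨hJ.2.2, hJ.1.symm⟩
      have h5 : Jᶜ.card < Iᶜ.card := Finset.card_lt_card (by
        rw [Finset.compl_ssubset_compl]; exact h4)
      exact ih _ (by omega) J rfl
    rw [← Finset.mul_prod_erase _ _ hmem] at h2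
    have h6 := h2.div h3
    have h7 := count_faces hN I
    rw [← Finset.add_sum_erase _ _ hmem] at h7
    convert h6 using 1
    linarith

/-- **The order of the cover.** -/
theorem hasOrd_cover (hY : ∀ P ∈ Y, frobP k K σ P ∈ Y) {N : ℕ} (hN : Fintype.card ι = N + 1) (hm : (m : K) ≠ 0)
    (hf : ∀ i, (f i).IsHomogeneous (d i)) (hd : ∀ i, Nat.Coprime (d i) m) {ℓ n : ℕ} [Fact ℓ.Prime]
    (hmn : m = ℓ ^ n) (hℓ : (ℓ : ℤ) ∣ (Fintype.card k : ℤ) - 1) (hempty : strat Y f Finset.univ = ∅)
    (hB : ∀ I : Finset ι, I ≠ Finset.univ → ∀ G : PowerSeries (ZMod ℓ),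
      IsEul (nOrb (frobP k K σ) (clos Y f I)) G → HasOrd G (N + 1 - I.card))
    {Q : PowerSeries (ZMod ℓ)} (hQ : IsEul (nOrb (frobX k K f m d) (prj ⁻¹' Y)) Q) :
    HasOrd Q (N + 1) := by
  classical
  have hS := hasOrd_strat hY hN hf hempty hB
  have hprj : ∀ x : Pt K f m d, van f (prj (frobX k K f m d x)) = van f (prj x) := by
    intro x
    rw [prj_frob, van_frob hf]
  -- niceness
  have hcov := fun I hI => isCov_strat (K := K) (k := k) hY hm hf hd (Fact.out : ℓ.Prime) hmn hℓ I hI
  have hempty' : (prj ⁻¹' strat Y f Finset.univ : Set (Pt K f m d)) = ∅ := by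
    rw [hempty, Set.preimage_empty]
  have hnice : Nice (frobX k K f m d) (prj ⁻¹' Y : Set (Pt K f m d)) := by
    refine ⟨fun x hx => ?_, fun r hr => ?_⟩
    · change prj (frobX k K f m d x) ∈ Y
      rw [prj_frob]
      exact hY _ hx
    have : {x : Pt K f m d | x ∈ (prj ⁻¹' Y : Set (Pt K f m d)) ∧ (frobX k K f m d)^[r] x = x} ⊆
        ⋃ I : Finset ι, {x : Pt K f m d | x ∈ prj ⁻¹' strat Y f I ∧ (frobX k K f m d)^[r] x = x} := by
      rintro x ⟨hxY, hx⟩
      rw [Set.mem_iUnion]
      exact ⟨van f (prj x), ⟨hxY, rfl⟩, hx⟩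
    refine Set.Finite.subset (Set.finite_iUnion fun I => ?_) this
    by_cases hI : I = Finset.univ
    · rw [hI, hempty']
      simp
    · exact (hcov I hI).niceA.fin r hr
  have h1 : IsEul (nOrb (frobX k K f m d) (prj ⁻¹' Y)) (∏ I : Finset ι,
      (if I = Finset.univ then (1 : PowerSeries (ZMod ℓ)) else
        (eul (ZMod ℓ) (nOrb (frobP k K σ) (strat Y f I))) ^ (m ^ (Iᶜ.card - 1)))) := by
    refine (IsEul.prod (R := ZMod ℓ) Finset.univ
      (b := fun I => nOrb (frobX k K f m d) (prj ⁻¹' strat Y f I)) fun I _ => ?_).congr fun D hD => ?_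
    · split_ifs with hI
      · refine isEul_zero.congr fun D _ => ?_
        rw [hI, hempty', nOrb_empty]
      · have h2 := (hcov I hI).eul_eq (Fact.out : ℓ.Prime) (R := ZMod ℓ) (isEul_eul _) (isEul_eul _)
        rw [← h2]
        exact isEul_eul _
    · rw [nOrb_sum hnice (fun x => van f (prj x)) (fun x _ => hprj x) hD]
      refine Finset.sum_congr rfl fun I _ => ?_
      rfl
  have h2 := hQ.unique h1
  rw [h2]
  have h3 : HasOrd (∏ I : Finset ι, (if I = Finset.univ then (1 : PowerSeries (ZMod ℓ)) else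
        (eul (ZMod ℓ) (nOrb (frobP k K σ) (strat Y f I))) ^ (m ^ (Iᶜ.card - 1))))
      (∑ I : Finset ι, if I.card = N then (1 : ℤ) else 0) := by
    refine HasOrd.prod _ fun I _ => ?_
    by_cases hI : I = Finset.univ
    · rw [if_pos hI, if_neg]
      · exact HasOrd.one
      · rw [hI, Finset.card_univ, hN]
        omega
    · rw [if_neg hI]
      have h4 := (hS I).pow (m ^ (Iᶜ.card - 1))
      convert h4 using 1
      by_cases h5 : I.card = N
      · rw [if_pos h5]
        have h6 : Iᶜ.card - 1 = 0 := by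
          rw [Finset.card_compl, hN, h5]
          omega
        rw [h6]
        simp
      · rw [if_neg h5]
        simp
  convert h3 using 1
  have h4 := count_faces hN (∅ : Finset ι)
  simp only [Finset.empty_subset, Finset.filter_true, Finset.card_empty] at h4
  rw [h4]
  simp

end

end Pool.Agent.K9h8.Kum
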