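import Pool.Agent.K9h8.Kum.Def

/-!
# Closed points: orbits of a map, and their numbers
-/

set_option autoImplicit false

namespace Pool.Agent.K9h8.Kum

open Function

/-- The points of `A` of exact period `d`. -/
def per {S : Type*} (F : S → S) (A : Set S) (d : ℕ) : Set S := {x | x ∈ A ∧ minimalPeriod F x = d}

/-- `A` is stable and has only finitely many points of every period. -/
structure Nice {S : Type*} (F : S → S) (A : Set S) : Prop where
  stab : ∀ x, x ∈ A → F x ∈ A
  fin : ∀ n : ℕ, 1 ≤ n → {x | x ∈ A ∧ F^[n] x = x}.Finite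

variable {S : Type*} {F : S → S} {A : Set S}

theorem Nice.iter (h : Nice F A) {x : S} (hx : x ∈ A) (k : ℕ) : F^[k] x ∈ A := by
  induction k with
  | zero => exact hx
  | succ k ih =>
    rw [Function.iterate_succ_apply']
    exact h.stab _ ih

theorem Nice.per_fin (h : Nice F A) {d : ℕ} (hd : 1 ≤ d) : (per F A d).Finite := by
  refine (h.fin d hd).subset ?_
  rintro x ⟨hx, h1⟩
  refine ⟨hx, ?_⟩
  have h2 := Function.isPeriodicPt_minimalPeriod F x
  rw [h1] at h2
  exact h2

theorem self_mem_orb (x : S) : x ∈ orb F x := ⟨0, rfl⟩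

theorem mem_periodicPts {x : S} {d : ℕ} (hd : 1 ≤ d) (hx : minimalPeriod F x = d) :
    x ∈ periodicPts F := by
  rw [← Function.minimalPeriod_pos_iff_mem_periodicPts]
  omega

theorem minimalPeriod_iter {x : S} {d : ℕ} (hd : 1 ≤ d) (hx : minimalPeriod F x = d) (k : ℕ) :
    minimalPeriod F (F^[k] x) = d := by
  rw [Function.minimalPeriod_apply_iterate (mem_periodicPts hd hx), hx]

theorem orb_eq {x : S} {d : ℕ} (hd : 1 ≤ d) (hx : minimalPeriod F x = d) (k : ℕ) :
    orb F (F^[k] x) = orb F x := by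
  apply Set.Subset.antisymm
  · rintro y ⟨j, rfl⟩
    exact ⟨j + k, by rw [Function.iterate_add_apply]⟩
  · rintro y ⟨j, rfl⟩
    -- choose t with t * d ≥ k
    refine ⟨j + (k * d - k), ?_⟩
    rw [← Function.iterate_add_apply]
    have h1 : j + (k * d - k) + k = j + k * d := by
      have : k ≤ k * d := Nat.le_mul_of_pos_right k hd
      omega
    rw [h1, Function.iterate_add_apply]
    congr 1
    have h2 : IsPeriodicPt F (k * d) x := by
      have h3 := Function.isPeriodicPt_minimalPeriod F x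
      rw [hx] at h3
      exact h3.const_mul k
    exact h2

theorem orb_card {x : S} {d : ℕ} (hd : 1 ≤ d) (hx : minimalPeriod F x = d) :
    (orb F x).ncard = d := by
  have h1 : orb F x = (fun k => F^[k] x) '' (Set.Iio d) := by
    apply Set.Subset.antisymm
    · rintro y ⟨k, rfl⟩
      refine ⟨k % d, Nat.mod_lt _ hd, ?_⟩
      have h2 := Function.iterate_mod_minimalPeriod_eq (f := F) (x := x) (n := k)
      rw [hx] at h2
      exact h2
    · rintro y ⟨k, -, rfl⟩
      exact ⟨k, rfl⟩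
  rw [h1, Set.InjOn.ncard_image]
  · rw [Set.ncard_eq_toFinset_card']
    simp
  · have h3 := Function.iterate_injOn_Iio_minimalPeriod (f := F) (x := x)
    rw [hx] at h3
    exact h3

/-- The number of points of exact period `d` is `d` times the number of orbits. -/
theorem Nice.ncard_per (h : Nice F A) {d : ℕ} (hd : 1 ≤ d) :
    (per F A d).ncard = d * nOrb F A d := by
  classical
  have hfin := h.per_fin hd
  obtain ⟨s, hs⟩ : ∃ s : Finset S, (s : Set S) = per F A d := ⟨hfin.toFinset, by simp⟩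
  have hset : {O : Set S | ∃ x, x ∈ A ∧ minimalPeriod F x = d ∧ O = orb F x} =
      ((s.image (orb F) : Finset (Set S)) : Set (Set S)) := by
    ext O
    rw [Finset.coe_image, hs]
    constructor
    · rintro ⟨x, hx, h1, rfl⟩
      exact ⟨x, ⟨hx, h1⟩, rfl⟩
    · rintro ⟨x, ⟨hx, h1⟩, rfl⟩
      exact ⟨x, hx, h1, rfl⟩
  unfold nOrb
  rw [hset, Set.ncard_coe_finset, ← hs, Set.ncard_coe_finset]
  rw [Finset.card_eq_sum_card_fiberwise (f := orb F) (t := s.image (orb F))
    (fun x hx => Finset.mem_coe.2 (Finset.mem_image_of_mem _ hx))]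
  rw [Finset.sum_const_nat (m := d), mul_comm]
  intro O hO
  rw [Finset.mem_image] at hO
  obtain ⟨x, hx, rfl⟩ := hO
  have hx' : x ∈ per F A d := by rw [← hs]; exact hx
  obtain ⟨hxA, hxd⟩ := hx'
  rw [← orb_card hd hxd, ← Set.ncard_coe_finset]
  congr 1
  ext y
  rw [Finset.mem_coe, Finset.mem_filter]
  constructor
  · rintro ⟨hy, h1⟩
    rw [← h1]
    exact self_mem_orb y
  · rintro ⟨k, rfl⟩
    refine ⟨?_, orb_eq hd hxd k⟩
    have : F^[k] x ∈ per F A d := ⟨h.iter hxA k, minimalPeriod_iter hd hxd k⟩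
    rw [← hs] at this
    exact this

/-- Fixed points of `F^n` are points of exact period dividing `n`. -/
theorem Nice.ncard_fix (h : Nice F A) {n : ℕ} (hn : 1 ≤ n) :
    {x | x ∈ A ∧ F^[n] x = x}.ncard = ∑ d ∈ n.divisors, d * nOrb F A d := by
  classical
  have hfin := h.fin n hn
  obtain ⟨s, hs⟩ : ∃ s : Finset S, (s : Set S) = {x | x ∈ A ∧ F^[n] x = x} :=
    ⟨hfin.toFinset, by simp⟩
  rw [← hs, Set.ncard_coe_finset]
  rw [Finset.card_eq_sum_card_fiberwise (f := fun x => minimalPeriod F x) (t := n.divisors)]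
  · apply Finset.sum_congr rfl
    intro d hd
    have hd1 : 1 ≤ d := Nat.pos_of_mem_divisors hd
    rw [← h.ncard_per hd1, ← Set.ncard_coe_finset]
    congr 1
    ext x
    rw [Finset.mem_coe, Finset.mem_filter]
    have hx : x ∈ s ↔ x ∈ A ∧ F^[n] x = x := by
      rw [← Finset.mem_coe, hs]
      rfl
    rw [hx]
    constructor
    · rintro ⟨⟨h1, -⟩, h2⟩
      exact ⟨h1, h2⟩
    · rintro ⟨h1, h2⟩
      refine ⟨⟨h1, ?_⟩, h2⟩
      have h3 : IsPeriodicPt F n x := by
        rw [Function.isPeriodicPt_iff_minimalPeriod_dvd, h2]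
        exact Nat.dvd_of_mem_divisors hd
      exact h3
  · intro x hx
    have hx' : x ∈ {x | x ∈ A ∧ F^[n] x = x} := by rw [← hs]; exact hx
    rw [Finset.mem_coe, Nat.mem_divisors]
    refine ⟨?_, by omega⟩
    rw [← Function.isPeriodicPt_iff_minimalPeriod_dvd]
    exact hx'.2

/-- Additivity for an invariant finite partition. -/
theorem nOrb_sum {ι : Type*} [Fintype ι] [DecidableEq ι] (h : Nice F A) (τ : S → ι)
    (hτ : ∀ x, x ∈ A → τ (F x) = τ x) {d : ℕ} (hd : 1 ≤ d) :
    nOrb F A d = ∑ i, nOrb F (A ∩ τ ⁻¹' {i}) d := by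
  classical
  have hN : ∀ i, Nice F (A ∩ τ ⁻¹' {i}) := by
    intro i
    refine ⟨?_, ?_⟩
    · rintro x ⟨hx, hi⟩
      exact ⟨h.stab _ hx, by rw [Set.mem_preimage, hτ x hx]; exact hi⟩
    · intro n hn
      refine (h.fin n hn).subset ?_
      rintro x ⟨⟨hx, -⟩, h2⟩
      exact ⟨hx, h2⟩
  have hfin := h.per_fin hd
  obtain ⟨s, hs⟩ : ∃ s : Finset S, (s : Set S) = per F A d := ⟨hfin.toFinset, by simp⟩
  have h1 : d * nOrb F A d = d * ∑ i, nOrb F (A ∩ τ ⁻¹' {i}) d := by
    rw [← h.ncard_per hd, Finset.mul_sum, ← hs, Set.ncard_coe_finset]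
    rw [Finset.card_eq_sum_card_fiberwise (f := τ) (t := Finset.univ)
      (fun x _ => Finset.mem_coe.2 (Finset.mem_univ _))]
    apply Finset.sum_congr rfl
    intro i _
    rw [← (hN i).ncard_per hd, ← Set.ncard_coe_finset]
    congr 1
    ext x
    rw [Finset.mem_coe, Finset.mem_filter]
    have hx : x ∈ s ↔ x ∈ A ∧ minimalPeriod F x = d := by
      rw [← Finset.mem_coe, hs]
      rfl
    rw [hx]
    constructor
    · rintro ⟨⟨h1, h2⟩, h3⟩
      exact ⟨⟨h1, h3⟩, h2⟩
    · rintro ⟨⟨h1, h3⟩, h2⟩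
      exact ⟨⟨h1, h2⟩, h3⟩
  exact Nat.eq_of_mul_eq_mul_left hd h1

/-- A single orbit of size `e`. -/
theorem nOrb_single {x : S} {e : ℕ} (he : 1 ≤ e) (hx : minimalPeriod F x = e) (hA : A = orb F x)
    {d : ℕ} : nOrb F A d = if d = e then 1 else 0 := by
  subst hA
  unfold nOrb
  split_ifs with h
  · subst h
    rw [Set.ncard_eq_one]
    refine ⟨orb F x, ?_⟩
    ext O
    rw [Set.mem_singleton_iff]
    constructor
    · rintro ⟨y, ⟨k, rfl⟩, -, rfl⟩
      exact orb_eq he hx k
    · rintro rfl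
      exact ⟨x, self_mem_orb x, hx, rfl⟩
  · have h0 : {O : Set S | ∃ y, y ∈ orb F x ∧ minimalPeriod F y = d ∧ O = orb F y} = ∅ := by
      rw [Set.eq_empty_iff_forall_notMem]
      rintro O ⟨y, ⟨k, rfl⟩, h1, -⟩
      rw [minimalPeriod_iter he hx k] at h1
      exact h h1.symm
    rw [h0, Set.ncard_empty]

/-- An empty set. -/
theorem nOrb_empty {d : ℕ} : nOrb F (∅ : Set S) d = 0 := by
  unfold nOrb
  have h0 : {O : Set S | ∃ y, y ∈ (∅ : Set S) ∧ minimalPeriod F y = d ∧ O = orb F y} = ∅ := by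
    rw [Set.eq_empty_iff_forall_notMem]
    rintro O ⟨y, h, -⟩
    exact h
  rw [h0, Set.ncard_empty]

end Pool.Agent.K9h8.Kum
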