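import Pool.Agent.K9h8.Kum.Fib

/-!
# Periods of the points of the Kummer covers, and the covering structure
-/

set_option autoImplicit false

namespace Pool.Agent.K9h8.Kum

open Function
open scoped LinearAlgebra.Projectivization

section

variable {k : Type*} [Field k] [Fintype k] {K : Type*} [Field K] [Algebra k K] [IsAlgClosed K]
  {σ ι : Type*} [Fintype σ] {f : ι → MvPolynomial σ k} {m : ℕ} {d : ι → ℕ}

theorem period_iter (hm : (m : K) ≠ 0) (hf : ∀ i, (f i).IsHomogeneous (d i)) {ℓ n : ℕ}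
    (hmn : m = ℓ ^ n) (hℓ : (ℓ : ℤ) ∣ (Fintype.card k : ℤ) - 1) {D : ℕ} (hD : 1 ≤ D) (x : Pt K f m d)
    (h : (frobP k K σ)^[D] (prj x) = prj x) : (frobX k K f m d)^[D * m] x = x := by
  classical
  have hm0 : m ≠ 0 := by
    rintro rfl
    simp at hm
  obtain ⟨y, rfl⟩ := Pt.mk_surj d x
  rw [prj_mk, frobP_fix_iff] at h
  obtain ⟨κ, hκ⟩ := h
  set Q := Fintype.card k ^ D with hQ
  have hQ0 : Q ≠ 0 := pow_ne_zero _ Fintype.card_ne_zero
  have hκ0 : κ ≠ 0 := by
    rintro rfl
    apply y.ne
    funext j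
    have := hκ j
    rw [zero_mul] at this
    exact (pow_eq_zero_iff hQ0).1 this
  obtain ⟨t, ht⟩ := IsAlgClosed.exists_pow_nat_eq κ (Nat.pos_of_ne_zero hm0)
  have ht0 : t ≠ 0 := by
    rintro rfl
    rw [zero_pow hm0] at ht
    exact hκ0 ht.symm
  have hev : ∀ i, (MvPolynomial.aeval y.a (f i)) ^ Q = κ ^ d i * MvPolynomial.aeval y.a (f i) := by
    intro i
    rw [← aeval_smul (hf i) κ y.a, ← aeval_pow_card_pow]
    congr 2
    funext j
    exact hκ j
  have hζ : ∀ i, ∃ ζ : K, ζ ^ m = 1 ∧ y.b i ^ Q = t ^ d i * (ζ * y.b i) := by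
    intro i
    by_cases hb : y.b i = 0
    · exact ⟨1, one_pow _, by rw [hb, zero_pow hQ0]; simp⟩
    · refine ⟨y.b i ^ Q / (t ^ d i * y.b i), ?_, ?_⟩
      · have h1 : MvPolynomial.aeval y.a (f i) ≠ 0 := by
          rw [← y.eq i]
          exact pow_ne_zero _ hb
        rw [div_pow, mul_pow, ← pow_mul, mul_comm Q m, pow_mul, y.eq i, hev i, ← pow_mul,
          mul_comm (d i) m, pow_mul, ht]
        exact div_self (mul_ne_zero (pow_ne_zero _ hκ0) h1)
      · have h2 : t ^ d i ≠ 0 := pow_ne_zero _ ht0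
        field_simp
  choose ζ hζ1 hζ2 using hζ
  -- the exponents
  have key : ∀ r : ℕ, ∃ z : Tup K f m, z.a = y.a ∧
      (∀ i, z.b i = ζ i ^ (∑ j ∈ Finset.range r, Q ^ j) * y.b i) ∧
      (frobX k K f m d)^[D * r] (Pt.mk d y) = Pt.mk d z := by
    intro r
    induction r with
    | zero => exact ⟨y, rfl, by simp, rfl⟩
    | succ r ih =>
      obtain ⟨z, hz1, hz2, hz3⟩ := ih
      obtain ⟨w, hw1, hw2, hw3⟩ := frobX_iter (k := k) (d := d) z D
      set e := ∑ j ∈ Finset.range r, Q ^ j with he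
      have he' : ∑ j ∈ Finset.range (r + 1), Q ^ j = Q * e + 1 := by
        rw [Finset.sum_range_succ', he, Finset.mul_sum]
        simp only [pow_succ, pow_zero]
        congr 1
        exact Finset.sum_congr rfl fun j _ => by ring
      refine ⟨⟨y.a, fun i => ζ i ^ (Q * e + 1) * y.b i, y.ne, fun i => ?_⟩, rfl, fun i => by rw [he'], ?_⟩
      · rw [mul_pow, y.eq i, ← pow_mul, mul_comm _ m, pow_mul, hζ1, one_pow, one_mul]
      · rw [mul_add, mul_one, add_comm, Function.iterate_add_apply, hz3, hw1, eq_comm, Pt.mk_eq]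
        refine ⟨t, ht0, fun j => ?_, fun i => ?_⟩
        · simp only
          rw [hw2, hz1, ht]
          exact hκ j
        · simp only
          rw [hw3, hz2, mul_pow, ← pow_mul]
          change ζ i ^ (e * Q) * y.b i ^ Q = _
          rw [hζ2, pow_succ, mul_comm e Q]
          ring
  obtain ⟨z, hz1, hz2, hz3⟩ := key m
  rw [hz3, Pt.mk_eq]
  refine ⟨1, one_ne_zero, fun j => by rw [hz1]; simp, fun i => ?_⟩
  have h1 : m ∣ ∑ j ∈ Finset.range m, Q ^ j := by
    have hq1 : 1 < Q := Nat.one_lt_pow (by omega) Fintype.one_lt_card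
    have h2 := dvd_geom ℓ n (Q : ℤ) (by exact_mod_cast hq1) (by
      have := sub_dvd_pow_sub_pow (Fintype.card k : ℤ) 1 D
      rw [one_pow] at this
      rw [hQ]
      push_cast
      exact hℓ.trans this)
    rw [← hmn] at h2
    have h3 : ((m : ℤ)) ∣ ((∑ j ∈ Finset.range m, Q ^ j : ℕ) : ℤ) := by
      push_cast
      rw [hmn] at h2 ⊢
      push_cast
      exact h2
    exact_mod_cast h3
  obtain ⟨c, hc⟩ := h1
  rw [hz2, hc, pow_mul, hζ1]
  simp

/-- The set of the `i` for which `f i` vanishes at `P`. -/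
noncomputable def van [Fintype ι] (f : ι → MvPolynomial σ k) (P : ℙ K (σ → K)) : Finset ι := by
  classical
  exact Finset.univ.filter fun i => MvPolynomial.aeval P.rep (f i) = 0

omit [Fintype k] [IsAlgClosed K] in
theorem mem_van [Fintype ι] (hf : ∀ i, (f i).IsHomogeneous (d i)) (a : σ → K) (ha : a ≠ 0) (i : ι) :
    i ∈ van f (Projectivization.mk K a ha) ↔ MvPolynomial.aeval a (f i) = 0 := by
  classical
  unfold van
  rw [Finset.mem_filter]
  simp only [Finset.mem_univ, true_and]
  obtain ⟨u, hu⟩ := Projectivization.exists_smul_eq_mk_rep K a ha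
  have h1 : (Projectivization.mk K a ha).rep = fun j => (u : K) * a j := by
    rw [← hu]
    rfl
  rw [h1, aeval_smul (hf i)]
  constructor
  · intro h
    rcases mul_eq_zero.1 h with h | h
    · exact absurd h (pow_ne_zero _ u.ne_zero)
    · exact h
  · intro h
    rw [h, mul_zero]

omit [IsAlgClosed K] in
theorem van_frob [Fintype ι] (hf : ∀ i, (f i).IsHomogeneous (d i)) (P : ℙ K (σ → K)) :
    van f (frobP k K σ P) = van f P := by
  induction P using Projectivization.ind with
  | h a ha =>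
    ext i
    rw [frobP_mk, mem_van hf, mem_van hf, aeval_pow_card]
    exact pow_eq_zero_iff Fintype.card_ne_zero

/-- The stratum of `Y`. -/
def strat [Fintype ι] (Y : Set (ℙ K (σ → K))) (f : ι → MvPolynomial σ k) (I : Finset ι) :
    Set (ℙ K (σ → K)) := {P | P ∈ Y ∧ van f P = I}

theorem nice_strat [Fintype ι] {Y : Set (ℙ K (σ → K))} (hY : ∀ P ∈ Y, frobP k K σ P ∈ Y)
    (hf : ∀ i, (f i).IsHomogeneous (d i)) (I : Finset ι) :
    Nice (frobP k K σ) (strat Y f I) := by
  refine nice_proj _ fun P hP => ⟨hY P hP.1, ?_⟩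
  rw [van_frob hf]
  exact hP.2

theorem isCov_strat [Fintype ι] [DecidableEq ι] {Y : Set (ℙ K (σ → K))}
    (hY : ∀ P ∈ Y, frobP k K σ P ∈ Y) (hm : (m : K) ≠ 0)
    (hf : ∀ i, (f i).IsHomogeneous (d i)) (hd : ∀ i, Nat.Coprime (d i) m) {ℓ n : ℕ}
    (hℓp : ℓ.Prime) (hmn : m = ℓ ^ n) (hℓ : (ℓ : ℤ) ∣ (Fintype.card k : ℤ) - 1) (I : Finset ι)
    (hI : I ≠ Finset.univ) :
    IsCov (frobX k K f m d) (frobP k K σ) (prj ⁻¹' strat Y f I) (strat Y f I) prj ℓ n
      (m ^ (Iᶜ.card - 1)) := by
  classical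
  have hm0 : m ≠ 0 := by
    rintro rfl
    simp at hm
  have hfib : ∀ y, y ∈ strat Y f I → {x : Pt K f m d | x ∈ prj ⁻¹' strat Y f I ∧ prj x = y}.ncard =
      m ^ (Iᶜ.card - 1) := by
    intro y hy
    induction y using Projectivization.ind with
    | h a ha =>
      obtain ⟨i0, hi0⟩ : ∃ i0, i0 ∉ I := by
        by_contra hcon
        push Not at hcon
        exact hI (Finset.eq_univ_of_forall hcon)
      have hy' : van f (Projectivization.mk K a ha) = I := hy.2
      have hmem : ∀ i, i ∈ I ↔ MvPolynomial.aeval a (f i) = 0 := by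
        intro i
        rw [← hy', mem_van hf]
      have h0 : MvPolynomial.aeval a (f i0) ≠ 0 := fun h => hi0 ((hmem i0).2 h)
      have h1 := ncard_fibre (k := k) hm hf hd a ha i0 h0
      have h2 : {x : Pt K f m d | x ∈ prj ⁻¹' strat Y f I ∧ prj x = Projectivization.mk K a ha} =
          {x : Pt K f m d | prj x = Projectivization.mk K a ha} := by
        ext x
        constructor
        · rintro ⟨-, h⟩
          exact h
        · intro h
          refine ⟨?_, h⟩
          change prj x ∈ strat Y f I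
          rw [show prj x = _ from h]
          exact hy
      rw [h2, h1]
      congr 3
      ext i
      rw [Finset.mem_filter, Finset.mem_compl, hmem]
      simp
  refine ⟨⟨?_, ?_⟩, nice_strat hY hf I, ?_, ?_, hfib, ?_⟩
  · intro x hx
    change prj (frobX k K f m d x) ∈ strat Y f I
    rw [prj_frob]
    exact (nice_strat hY hf I).stab _ hx
  · intro r hr
    have h1 := (nice_strat hY hf I).fin r hr
    refine Set.Finite.subset (h1.biUnion (t := fun y => {x : Pt K f m d | x ∈ prj ⁻¹' strat Y f I ∧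
      prj x = y}) fun y hy => ?_) ?_
    · apply Set.finite_of_ncard_ne_zero
      rw [hfib y hy.1]
      exact pow_ne_zero _ hm0
    · rintro x ⟨hx, h2⟩
      rw [Set.mem_iUnion₂]
      refine ⟨prj x, ⟨hx, ?_⟩, hx, rfl⟩
      have h3 : ∀ s : ℕ, prj ((frobX k K f m d)^[s] x) = (frobP k K σ)^[s] (prj x) := by
        intro s
        induction s with
        | zero => rfl
        | succ s ih => rw [Function.iterate_succ_apply', Function.iterate_succ_apply', prj_frob, ih]
      rw [← h3, h2]
  · intro x hx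
    exact hx
  · intro x _
    exact prj_frob x
  · intro x hx D hD hper
    have h0 : (frobP k K σ)^[D] (prj x) = prj x := by
      have := Function.isPeriodicPt_minimalPeriod (frobP k K σ) (prj x)
      rw [hper] at this
      exact this
    have h1 := period_iter (k := k) hm hf hmn hℓ hD x h0
    have h2 : minimalPeriod (frobX k K f m d) x ∣ D * ℓ ^ n := by
      rw [← hmn]
      exact IsPeriodicPt.minimalPeriod_dvd h1
    have h3 : D ∣ minimalPeriod (frobX k K f m d) x := by
      rw [← hper]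
      apply IsPeriodicPt.minimalPeriod_dvd
      have h4 : ∀ s : ℕ, prj ((frobX k K f m d)^[s] x) = (frobP k K σ)^[s] (prj x) := by
        intro s
        induction s with
        | zero => rfl
        | succ s ih => rw [Function.iterate_succ_apply', Function.iterate_succ_apply', prj_frob, ih]
      have h5 := Function.isPeriodicPt_minimalPeriod (frobX k K f m d) x
      change (frobP k K σ)^[_] (prj x) = prj x
      rw [← h4, h5]
    obtain ⟨c, hc⟩ := h3
    rw [hc] at h2
    have h6 : c ∣ ℓ ^ n := Nat.dvd_of_mul_dvd_mul_left hD h2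
    obtain ⟨e, he, rfl⟩ := (Nat.dvd_prime_pow hℓp).1 h6
    exact ⟨e, he, hc⟩

end

end Pool.Agent.K9h8.Kum
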