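import Pool.Agent.K9h8.Kum.DblX
import Pool.Agent.K9h8.Kum.Sgn
import Pool.Agent.K9h8.Kum.Rep

/-!
# Double planes
-/

set_option autoImplicit false

namespace Pool.Agent.K9h8.Kum

open Function Polynomial
open scoped LinearAlgebra.Projectivization

theorem coe_comp_neg (R : ℤ[X]) :
    ((R.comp (-X) : ℤ[X]) : PowerSeries ℤ) = PowerSeries.evalNegHom (R : PowerSeries ℤ) := by
  ext n
  rw [Polynomial.coeff_coe, PowerSeries.evalNegHom, PowerSeries.coeff_rescale, Polynomial.coeff_coe]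
  have : (-X : ℤ[X]) = C (-1) * X := by simp
  rw [this, comp_C_mul_X_coeff]
  ring

/-- The alternating sum in the functional equation. -/
theorem fe_sum {q : ℤ} {R : ℤ[X]} {D : ℕ} {s : ℤ}
    (h : ∀ i ≤ D, q ^ (D - i) * R.coeff i = s * (q ^ i * R.coeff (D - i)))
    {η : ℤ} (hη : η * η = 1) :
    ∑ i ∈ Finset.range (D + 1), q ^ (D - i) * R.coeff i * η ^ i =
      s * η ^ D * ∑ i ∈ Finset.range (D + 1), q ^ (D - i) * R.coeff i * η ^ i := by
  conv_lhs => rw [← Finset.sum_flip]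
  rw [Finset.mul_sum]
  refine Finset.sum_congr rfl fun i hi => ?_
  have hi' : i ≤ D := by rw [Finset.mem_range] at hi; omega
  have h1 := h (D - i) (Nat.sub_le _ _)
  rw [Nat.sub_sub_self hi'] at h1 ⊢
  have h2 : η ^ (D - i) = η ^ D * η ^ i := by
    have h3 : η ^ D = η ^ (D - i) * η ^ i := by
      rw [← pow_add, Nat.sub_add_cancel hi']
    rw [h3, mul_assoc, ← mul_pow, hη, one_pow, mul_one]
  rw [h1, h2]
  ring

theorem eval_div {q : ℤ} (hq : q ≠ 0) {R : ℤ[X]} {D : ℕ} (hD : R.natDegree ≤ D) {η : ℤ} :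
    (q : ℚ) ^ D * (R.map (Int.castRingHom ℚ)).eval ((η : ℚ) / q) =
      ((∑ i ∈ Finset.range (D + 1), q ^ (D - i) * R.coeff i * η ^ i : ℤ) : ℚ) := by
  rw [eval_map, eval₂_eq_sum_range' _ (Nat.lt_succ_of_le hD), Finset.mul_sum]
  push_cast
  refine Finset.sum_congr rfl fun i hi => ?_
  have hi' : i ≤ D := by rw [Finset.mem_range] at hi; omega
  have hq' : (q : ℚ) ≠ 0 := by exact_mod_cast hq
  rw [div_pow, eq_intCast]
  have h3 : (q : ℚ) ^ D = (q : ℚ) ^ (D - i) * (q : ℚ) ^ i := by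
    rw [← pow_add, Nat.sub_add_cancel hi']
  rw [h3]
  field_simp

theorem FunctionalEquation.zero {q : ℤ} (hq : q ≠ 0) {R : ℤ[X]} (h : FunctionalEquation q R)
    (hodd : Odd R.natDegree) :
    (R.map (Int.castRingHom ℚ)).eval (1 / (q : ℚ)) = 0 ∨
      (R.map (Int.castRingHom ℚ)).eval (-1 / (q : ℚ)) = 0 := by
  obtain ⟨s, hs, hfe⟩ := h
  have hqD : (q : ℚ) ^ R.natDegree ≠ 0 := pow_ne_zero _ (by exact_mod_cast hq)
  rcases hs with rfl | rfl
  · right
    have h1 := fe_sum hfe (η := -1) (by norm_num)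
    rw [hodd.neg_one_pow] at h1
    have h2 := eval_div hq (le_refl R.natDegree) (η := -1)
    have h3 : (∑ i ∈ Finset.range (R.natDegree + 1), q ^ (R.natDegree - i) * R.coeff i * (-1) ^ i : ℤ) = 0 := by
      linarith
    rw [h3] at h2
    push_cast at h2
    exact (mul_eq_zero.1 h2).resolve_left hqD
  · left
    have h1 := fe_sum hfe (η := 1) (by norm_num)
    rw [one_pow] at h1
    have h2 := eval_div hq (le_refl R.natDegree) (η := 1)
    have h3 : (∑ i ∈ Finset.range (R.natDegree + 1), q ^ (R.natDegree - i) * R.coeff i * 1 ^ i : ℤ) = 0 := by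
      linarith
    rw [h3] at h2
    push_cast at h2
    exact (mul_eq_zero.1 h2).resolve_left hqD

section

variable {k : Type*} [Field k] [Fintype k] {K : Type*} [Field K] [Algebra k K] [IsAlgClosed K]

theorem map_primitive {ℓ : ℕ} [Fact ℓ.Prime] {q : ℕ} (hℓ : (ℓ : ℤ) ∣ (q : ℤ) - 1) (R : ℤ[X]) :
    PowerSeries.map (Int.castRingHom (ZMod ℓ)) ((1 - PowerSeries.X) *
      (1 - PowerSeries.C (q : ℤ) * PowerSeries.X) * (R : PowerSeries ℤ) *
        (1 - PowerSeries.C ((q : ℤ) ^ 2) * PowerSeries.X)) =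
      ((R.map (Int.castRingHom (ZMod ℓ)) : Polynomial (ZMod ℓ)) : PowerSeries (ZMod ℓ)) *
        ((((1 - Polynomial.X : Polynomial (ZMod ℓ))) : PowerSeries (ZMod ℓ)) *
        (((1 - Polynomial.X : Polynomial (ZMod ℓ))) : PowerSeries (ZMod ℓ)) *
        (((1 - Polynomial.X : Polynomial (ZMod ℓ))) : PowerSeries (ZMod ℓ))) := by
  rw [map_mul, map_mul, map_mul, map_coe, map_factor_zero, map_factor_one hℓ, map_factor hℓ]
  ring

theorem hasOrd_cube {ℓ : ℕ} [Fact ℓ.Prime] :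
    HasOrd ((((1 - Polynomial.X : Polynomial (ZMod ℓ))) : PowerSeries (ZMod ℓ)) *
      (((1 - Polynomial.X : Polynomial (ZMod ℓ))) : PowerSeries (ZMod ℓ)) *
      (((1 - Polynomial.X : Polynomial (ZMod ℓ))) : PowerSeries (ZMod ℓ))) (1 + 1 + 1) :=
  (hasOrd_one_sub.mul hasOrd_one_sub).mul hasOrd_one_sub

theorem two_dvd (h2 : (2 : k) ≠ 0) : ((2 : ℕ) : ℤ) ∣ (Fintype.card k : ℤ) - 1 := by
  obtain ⟨j, hj⟩ := odd_card (k := k) (K := k) h2
  rw [hj]
  push_cast
  exact ⟨j, by ring⟩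

theorem two_ne (h2 : (2 : k) ≠ 0) : ((2 : ℕ) : K) ≠ 0 := by
  intro h
  apply h2
  have : algebraMap k K 2 = 0 := by
    rw [map_ofNat]
    exact_mod_cast h
  exact (map_eq_zero _).1 this

/-- The primitive part modulo `2` has a simple zero at `T = 1`. -/
theorem hasOrd_doublePlane (h2 : (2 : k) ≠ 0) {e : ℕ} {f : MvPolynomial (Fin 3) k}
    (hf : f.IsHomogeneous (2 * e)) (hB : PoleOrder 2 (nOrb (frobP k K (Fin 3)) (zeros K f)) 2)
    {R : ℤ[X]} (hR : IsPrimitivePart (Fintype.card k) (doublePlane k K e f) R) :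
    HasOrd ((R.map (Int.castRingHom (ZMod 2)) : (ZMod 2)[X]) : PowerSeries (ZMod 2)) 1 := by
  have hdvd := two_dvd (k := k) h2
  have h1 := hasOrd_cyc (k := k) (K := K) (σ := Fin 3) (Y := Set.univ) (f := fun _ : Unit => f) (m := 2)
    (d := fun _ => 2 * e) (fun _ _ => Set.mem_univ _) (two_ne h2) (fun _ => hf)
    (fun _ => dvd_mul_right 2 e) (ℓ := 2) (n := 1) (by norm_num) hdvd (s := 3) (c := 2)
    (isEul_eul _) (by
      exact_mod_cast (poleOrder_plane (k := k) (K := K) (ℓ := 2) hdvd).hasOrd (isEul_eul _))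
    (isEul_eul _) (by
      rw [Set.univ_inter]
      exact_mod_cast hB.hasOrd (isEul_eul _))
    (hR.2.map (Int.castRingHom (ZMod 2)))
  rw [map_primitive hdvd] at h1
  have h3 := h1.div hasOrd_cube
  convert h3 using 1
  norm_num

/-- The primitive part of the twist. -/
theorem primitive_twist (h2 : (2 : k) ≠ 0) {e : ℕ} {f : MvPolynomial (Fin 3) k}
    (hf : f.IsHomogeneous (2 * e)) {c : k} (hc : ¬ IsSquare c) {R R' : ℤ[X]}
    (hR : IsPrimitivePart (Fintype.card k) (doublePlane k K e f) R)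
    (hR' : IsPrimitivePart (Fintype.card k) (doublePlane k K e (MvPolynomial.C c * f)) R') :
    R' = R.comp (-X) := by
  have h2K : (2 : K) ≠ 0 := by exact_mod_cast two_ne (K := K) h2
  have hD := isDbl (k := k) (K := K) (σ := Fin 3) (f := fun _ : Unit => f) (d := fun _ => 2 * e)
    (Y := Set.univ) (fun _ _ => Set.mem_univ _) h2K (fun _ => hf) (fun _ => dvd_mul_right 2 e)
  have hP := (isPrimitivePart_plane (k := k) (K := K)).2
  set P : PowerSeries ℤ := (1 - PowerSeries.X) * (1 - PowerSeries.C (Fintype.card k : ℤ) * PowerSeries.X) *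
      ((1 : ℤ[X]) : PowerSeries ℤ) * (1 - PowerSeries.C ((Fintype.card k : ℤ) ^ 2) * PowerSeries.X) with hPdef
  have h3 : IsEul (nOrb (frobX k K (fun _ : Unit => f) 2 (fun _ => 2 * e)) (prj ⁻¹' Set.univ))
      (P * (R : PowerSeries ℤ)) := by
    have h4 := hR.2
    unfold doublePlane at h4
    rw [Set.preimage_univ]
    convert h4 using 1
    rw [hPdef, Polynomial.coe_one]
    ring
  have h4 := hD.isEul_twist hP h3
  have h5 : IsEul (doublePlane k K e (MvPolynomial.C c * f)) (P * PowerSeries.evalNegHom (R : PowerSeries ℤ)) := by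
    refine h4.congr fun D _ => ?_
    rw [← nOrb_twist h2K (g := fun _ : Unit => MvPolynomial.C c * f) c hc (fun _ => rfl) D]
    rw [Set.preimage_univ]
    rfl
  have h6 := hR'.2.unique h5
  have hP0 : P ≠ 0 := by
    intro h
    have h7 := hP.unique (isEul_eul _)
    rw [h] at h7
    have h8 := congrArg (PowerSeries.coeff 0) h7
    rw [coeff_zero_eul] at h8
    simp at h8
  have h7 : P * (R' : PowerSeries ℤ) = P * PowerSeries.evalNegHom (R : PowerSeries ℤ) := by
    rw [← h6, hPdef, Polynomial.coe_one]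
    ring
  apply Polynomial.coe_injective ℤ
  rw [coe_comp_neg]
  exact mul_left_cancel₀ hP0 h7

end

end Pool.Agent.K9h8.Kum
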