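import Pool.Agent.K9h8.Kum.Eul

/-!
# Projective space over the algebraic closure of a finite field, with the Frobenius map
-/

set_option autoImplicit false

namespace Pool.Agent.K9h8.Kum

open Function Polynomial
open scoped LinearAlgebra.Projectivization

variable (k : Type*) [Field k] [Fintype k] (K : Type*) [Field K] [Algebra k K] (σ : Type*)

variable {k K σ}

omit [Algebra k K] in
theorem frob_ne {v : σ → K} (hv : v ≠ 0) (n : ℕ) : (fun i => v i ^ (Fintype.card k ^ n)) ≠ 0 := by
  intro h
  apply hv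
  funext i
  have h1 : v i ^ (Fintype.card k ^ n) = 0 := congrFun h i
  exact pow_eq_zero_iff (pow_ne_zero n Fintype.card_ne_zero) |>.1 h1

theorem frobP_mk (v : σ → K) (hv : v ≠ 0) : frobP k K σ (Projectivization.mk K v hv) =
    Projectivization.mk K (fun i => v i ^ Fintype.card k)
      (by simpa using frob_ne (k := k) hv 1) := rfl

theorem frobP_iter (v : σ → K) (hv : v ≠ 0) (n : ℕ) :
    (frobP k K σ)^[n] (Projectivization.mk K v hv) =
      Projectivization.mk K (fun i => v i ^ (Fintype.card k ^ n)) (frob_ne hv n) := by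
  induction n with
  | zero => simp
  | succ n ih =>
    rw [Function.iterate_succ_apply', ih, frobP_mk]
    congr 1
    funext i
    rw [← pow_mul, pow_succ]

theorem frobP_fix_iff (v : σ → K) (hv : v ≠ 0) (n : ℕ) :
    (frobP k K σ)^[n] (Projectivization.mk K v hv) = Projectivization.mk K v hv ↔
      ∃ a : K, ∀ i, v i ^ (Fintype.card k ^ n) = a * v i := by
  rw [frobP_iter, Projectivization.mk_eq_mk_iff']
  constructor
  · rintro ⟨a, ha⟩
    exact ⟨a, fun i => (congrFun ha i).symm⟩
  · rintro ⟨a, ha⟩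
    exact ⟨a, funext fun i => (ha i).symm⟩

/-- A fixed point has a representative with fixed coordinates. -/
theorem exists_rat (v : σ → K) (hv : v ≠ 0) (n : ℕ)
    (h : (frobP k K σ)^[n] (Projectivization.mk K v hv) = Projectivization.mk K v hv) :
    ∃ (w : σ → K) (hw : w ≠ 0), Projectivization.mk K w hw = Projectivization.mk K v hv ∧
      ∀ i, w i ^ (Fintype.card k ^ n) = w i := by
  obtain ⟨a, ha⟩ := (frobP_fix_iff v hv n).1 h
  obtain ⟨j, hj⟩ : ∃ j, v j ≠ 0 := by
    by_contra hcon
    push Not at hcon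
    exact hv (funext hcon)
  refine ⟨fun i => (v j)⁻¹ * v i, ?_, ?_, ?_⟩
  · intro h0
    have := congrFun h0 j
    simp only [Pi.zero_apply] at this
    rw [inv_mul_cancel₀ hj] at this
    exact one_ne_zero this
  · rw [Projectivization.mk_eq_mk_iff']
    exact ⟨(v j)⁻¹, rfl⟩
  · intro i
    rw [mul_pow, inv_pow, ha j, ha i]
    have ha0 : a ≠ 0 := by
      rintro rfl
      have h1 := ha j
      rw [zero_mul] at h1
      exact hj ((pow_eq_zero_iff (pow_ne_zero n Fintype.card_ne_zero)).1 h1)
    field_simp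

section alg

variable [IsAlgClosed K]

/-- The number of elements of the subfield with `q ^ n` elements. -/
theorem ncard_fix {n : ℕ} (hn : 1 ≤ n) :
    {x : K | x ^ (Fintype.card k ^ n) = x}.ncard = Fintype.card k ^ n := by
  classical
  obtain ⟨p, hp⟩ := CharP.exists k
  have hp' : Fact p.Prime := ⟨CharP.char_is_prime k p⟩
  have hK : CharP K p := charP_of_injective_algebraMap (algebraMap k K).injective p
  obtain ⟨r, hr⟩ := FiniteField.card k p
  have h1 : 1 < Fintype.card k ^ n :=
    Nat.one_lt_pow (by omega) Fintype.one_lt_card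
  have hdvd : p ∣ Fintype.card k ^ n := by
    rw [hr.2, ← pow_mul]
    exact dvd_pow_self p (Nat.mul_pos r.2 hn).ne'
  set N := Fintype.card k ^ n with hN
  have hsep : (X ^ N - X : K[X]).Separable := galois_poly_separable p N hdvd
  have hdeg : (X ^ N - X : K[X]).natDegree = N := FiniteField.X_pow_card_sub_X_natDegree_eq K h1
  have hne : (X ^ N - X : K[X]) ≠ 0 := FiniteField.X_pow_card_sub_X_ne_zero K h1
  have h2 : {x : K | x ^ N = x} = ((X ^ N - X : K[X]).roots.toFinset : Set K) := by
    ext x
    rw [Finset.mem_coe, Multiset.mem_toFinset, mem_roots hne]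
    simp [sub_eq_zero]
  rw [h2, Set.ncard_coe_finset, Multiset.toFinset_card_of_nodup (nodup_roots hsep),
    IsAlgClosed.card_roots_eq_natDegree, hdeg]

variable [Fintype σ]

theorem ncard_vec {n : ℕ} (hn : 1 ≤ n) :
    {v : σ → K | ∀ i, v i ^ (Fintype.card k ^ n) = v i}.ncard =
      (Fintype.card k ^ n) ^ Fintype.card σ := by
  classical
  have hfin : {x : K | x ^ (Fintype.card k ^ n) = x}.Finite := by
    apply Set.finite_of_ncard_ne_zero
    rw [ncard_fix hn]
    exact pow_ne_zero n Fintype.card_ne_zero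
  obtain ⟨s, hs⟩ : ∃ s : Finset K, (s : Set K) = {x : K | x ^ (Fintype.card k ^ n) = x} :=
    ⟨hfin.toFinset, by simp⟩
  have h1 : {v : σ → K | ∀ i, v i ^ (Fintype.card k ^ n) = v i} =
      ((Fintype.piFinset fun _ : σ => s : Finset (σ → K)) : Set (σ → K)) := by
    ext v
    rw [Finset.mem_coe, Fintype.mem_piFinset]
    have : ∀ x, x ∈ s ↔ x ^ (Fintype.card k ^ n) = x := by
      intro x
      rw [← Finset.mem_coe, hs]
      rfl
    simp only [this]
    rfl
  rw [h1, Set.ncard_coe_finset, Fintype.card_piFinset]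
  rw [Finset.prod_const, Finset.card_univ]
  congr 1
  rw [← Set.ncard_coe_finset, hs, ncard_fix hn]

/-- The number of points of projective space over the field with `q ^ n` elements. -/
theorem ncard_proj_fix {n : ℕ} (hn : 1 ≤ n) :
    {P : ℙ K (σ → K) | (frobP k K σ)^[n] P = P}.Finite ∧
    {P : ℙ K (σ → K) | (frobP k K σ)^[n] P = P}.ncard =
      ∑ j ∈ Finset.range (Fintype.card σ), (Fintype.card k ^ n) ^ j := by
  classical
  set N := Fintype.card k ^ n with hN
  have h1N : 1 < N := Nat.one_lt_pow (by omega) Fintype.one_lt_card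
  have hfinV : {v : σ → K | ∀ i, v i ^ N = v i}.Finite := by
    apply Set.finite_of_ncard_ne_zero
    rw [ncard_vec hn]
    exact pow_ne_zero _ (by omega)
  obtain ⟨s, hs⟩ : ∃ s : Finset (σ → K), (s : Set (σ → K)) = {v : σ → K | ∀ i, v i ^ N = v i} :=
    ⟨hfinV.toFinset, by simp⟩
  have hmem : ∀ v, v ∈ s ↔ ∀ i, v i ^ N = v i := by
    intro v
    rw [← Finset.mem_coe, hs]
    rfl
  have hcard : s.card = N ^ Fintype.card σ := by
    rw [← Set.ncard_coe_finset, hs, ncard_vec hn]
  have hfinK : {x : K | x ^ N = x}.Finite := by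
    apply Set.finite_of_ncard_ne_zero
    rw [ncard_fix hn]
    omega
  obtain ⟨u, hu⟩ : ∃ u : Finset K, (u : Set K) = {x : K | x ^ N = x} :=
    ⟨hfinK.toFinset, by simp⟩
  have hmemu : ∀ x, x ∈ u ↔ x ^ N = x := by
    intro x
    rw [← Finset.mem_coe, hu]
    rfl
  have hcardu : u.card = N := by
    rw [← Set.ncard_coe_finset, hu, ncard_fix hn]
  have h0s : (0 : σ → K) ∈ s := by
    rw [hmem]
    intro i
    rw [Pi.zero_apply, zero_pow (by omega)]
  have h0u : (0 : K) ∈ u := by
    rw [hmemu, zero_pow (by omega)]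
  -- the map
  set g : {v // v ∈ s.erase 0} → ℙ K (σ → K) := fun v =>
    Projectivization.mk K v.1 (Finset.ne_of_mem_erase v.2) with hg
  have himg : {P : ℙ K (σ → K) | (frobP k K σ)^[n] P = P} =
      (((s.erase 0).attach.image g : Finset (ℙ K (σ → K))) : Set (ℙ K (σ → K))) := by
    ext P
    rw [Finset.mem_coe, Finset.mem_image]
    constructor
    · intro hP
      induction P using Projectivization.ind with
      | h v hv =>
        obtain ⟨w, hw, h1, h2⟩ := exists_rat (k := k) v hv n hP
        exact ⟨⟨w, Finset.mem_erase.2 ⟨hw, (hmem w).2 h2⟩⟩, Finset.mem_attach _ _, h1⟩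
    · rintro ⟨⟨w, hw⟩, -, rfl⟩
      have h2 := (hmem w).1 (Finset.mem_of_mem_erase hw)
      change (frobP k K σ)^[n] (Projectivization.mk K w _) = Projectivization.mk K w _
      rw [frobP_fix_iff]
      exact ⟨1, fun i => by rw [one_mul]; exact h2 i⟩
  refine ⟨by rw [himg]; exact Finset.finite_toSet _, ?_⟩
  rw [himg, Set.ncard_coe_finset]
  have hfib : ∀ P ∈ (s.erase 0).attach.image g,
      ((s.erase 0).attach.filter fun v => g v = P).card = N - 1 := by
    intro P hP
    rw [Finset.mem_image] at hP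
    obtain ⟨⟨w, hw⟩, -, rfl⟩ := hP
    have hw0 : w ≠ 0 := Finset.ne_of_mem_erase hw
    have hwm := (hmem w).1 (Finset.mem_of_mem_erase hw)
    have hNu : (u.erase 0).card = N - 1 := by rw [Finset.card_erase_of_mem h0u, hcardu]
    rw [← hNu]
    symm
    have hmk : ∀ x, x ∈ u.erase 0 → (x • w) ∈ s.erase 0 := by
      intro x hx
      rw [Finset.mem_erase] at hx ⊢
      refine ⟨smul_ne_zero hx.1 hw0, ?_⟩
      rw [hmem]
      intro i
      rw [Pi.smul_apply, smul_eq_mul, mul_pow, hwm i, (hmemu x).1 hx.2]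
    refine Finset.card_bij (fun x hx => ⟨x • w, hmk x hx⟩) ?_ ?_ ?_
    · intro x hx
      rw [Finset.mem_filter]
      refine ⟨Finset.mem_attach _ _, ?_⟩
      change Projectivization.mk K (x • w) _ = Projectivization.mk K w _
      rw [Projectivization.mk_eq_mk_iff']
      exact ⟨x, rfl⟩
    · intro x hx y hy hxy
      have h3 : x • w = y • w := congrArg Subtype.val hxy
      exact smul_left_injective K hw0 h3
    · rintro ⟨v, hv⟩ hv2
      rw [Finset.mem_filter] at hv2
      have h3 : Projectivization.mk K v (Finset.ne_of_mem_erase hv) =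
          Projectivization.mk K w hw0 := hv2.2
      rw [Projectivization.mk_eq_mk_iff'] at h3
      obtain ⟨a, ha⟩ := h3
      have hv0 : v ≠ 0 := Finset.ne_of_mem_erase hv
      have ha0 : a ≠ 0 := by
        rintro rfl
        rw [zero_smul] at ha
        exact hv0 ha.symm
      refine ⟨a, ?_, Subtype.ext ha⟩
      rw [Finset.mem_erase]
      refine ⟨ha0, ?_⟩
      rw [hmemu]
      obtain ⟨j, hj⟩ : ∃ j, w j ≠ 0 := by
        by_contra hcon
        push Not at hcon
        exact hw0 (funext hcon)
      have h4 := (hmem v).1 (Finset.mem_of_mem_erase hv) j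
      have h5 : v j = a * w j := by rw [← ha]; rfl
      rw [h5, mul_pow, hwm j] at h4
      exact mul_right_cancel₀ hj h4
  have htot : (s.erase 0).card = ((s.erase 0).attach.image g).card * (N - 1) := by
    rw [← Finset.card_attach, Finset.card_eq_sum_card_fiberwise (f := g)
      (t := (s.erase 0).attach.image g) (fun x hx => Finset.mem_coe.2 (Finset.mem_image_of_mem _ hx)),
      Finset.sum_const_nat hfib]
  rw [Finset.card_erase_of_mem h0s, hcard] at htot
  rw [Nat.geomSum_eq h1N]
  symm
  exact Nat.div_eq_of_eq_mul_left (by omega) htot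

/-- Projective space is nice. -/
theorem nice_proj (A : Set (ℙ K (σ → K))) (hA : ∀ P ∈ A, frobP k K σ P ∈ A) :
    Nice (frobP k K σ) A := by
  refine ⟨hA, fun n hn => (ncard_proj_fix (k := k) (K := K) (σ := σ) hn).1.subset ?_⟩
  rintro P ⟨-, h⟩
  exact h

/-- The inverse zeta function of projective space. -/
theorem isEul_proj : IsEul (nOrb (frobP k K σ) Set.univ)
    (∏ j ∈ Finset.range (Fintype.card σ),
      (1 - PowerSeries.C ((Fintype.card k : ℤ) ^ j) * PowerSeries.X : PowerSeries ℤ)) := by
  have hN := nice_proj (k := k) (K := K) (σ := σ) Set.univ (fun P _ => Set.mem_univ _)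
  refine isEul_of_counts (c := fun n => ∑ j ∈ Finset.range (Fintype.card σ),
    ((Fintype.card k : ℤ) ^ j) ^ n) ?_ ?_ ?_
  · rw [PowerSeries.coeff_zero_eq_constantCoeff, map_prod]
    refine Finset.prod_eq_one fun j _ => ?_
    simp
  · intro n hn
    rw [← hN.ncard_fix hn]
    have h1 : {x : ℙ K (σ → K) | x ∈ Set.univ ∧ (frobP k K σ)^[n] x = x} =
        {P : ℙ K (σ → K) | (frobP k K σ)^[n] P = P} := by
      ext P
      simp
    rw [h1, (ncard_proj_fix hn).2]
    push_cast
    refine Finset.sum_congr rfl fun j _ => ?_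
    rw [← pow_mul, ← pow_mul, mul_comm]
  · have h1 := LD.prod (Finset.range (Fintype.card σ))
      (Q := fun j => (1 - PowerSeries.C ((Fintype.card k : ℤ) ^ j) * PowerSeries.X : PowerSeries ℤ))
      (C := fun j => PowerSeries.mk fun n => if 1 ≤ n then ((Fintype.card k : ℤ) ^ j) ^ n else 0)
      (fun j _ => LD_one_sub_mul _)
    convert h1 using 1
    ext n
    rw [PowerSeries.coeff_mk, map_sum]
    simp only [PowerSeries.coeff_mk]
    split_ifs with h2
    · rfl
    · simp

end alg

end Pool.Agent.K9h8.Kum
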