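import Pool.Agent.K9h8.Kum.Cov
import Pool.Agent.K9h8.Kum.Prj

/-!
# The points of the Kummer covers of projective space
-/

set_option autoImplicit false

namespace Pool.Agent.K9h8.Kum

open Function
open scoped LinearAlgebra.Projectivization

section

variable {k : Type*} [Field k] [Fintype k] {K : Type*} [Field K] [Algebra k K] {σ ι : Type*}
  {f : ι → MvPolynomial σ k} {m : ℕ} {d : ι → ℕ}

theorem aeval_pow_card_pow (a : σ → K) (P : MvPolynomial σ k) (n : ℕ) :
    MvPolynomial.aeval (fun j => a j ^ (Fintype.card k ^ n)) P =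
      (MvPolynomial.aeval a P) ^ (Fintype.card k ^ n) := by
  induction n with
  | zero => simp
  | succ n ih =>
    have h := aeval_pow_card (fun j => a j ^ (Fintype.card k ^ n)) P
    rw [ih] at h
    rw [pow_succ, pow_mul, ← h]
    congr 2
    funext j
    rw [← pow_mul]

variable (d) in
/-- The point of a tuple. -/
def Pt.mk (x : Tup K f m) : Pt K f m d := Quotient.mk (tupSetoid K f m d) x

omit [Fintype k] in
theorem Pt.mk_eq {x y : Tup K f m} : Pt.mk d x = Pt.mk d y ↔ TupRel d x y :=
  Quotient.eq (r := tupSetoid K f m d)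

theorem frobX_mk (x : Tup K f m) : frobX k K f m d (Pt.mk d x) = Pt.mk d x.frob := rfl

omit [Fintype k] in
theorem Pt.ind {P : Pt K f m d → Prop} (h : ∀ x, P (Pt.mk d x)) (x : Pt K f m d) : P x :=
  Quotient.ind (s := tupSetoid K f m d) h x

omit [Fintype k] in
variable (d) in
theorem Pt.mk_surj (x : Pt K f m d) : ∃ y, Pt.mk d y = x := Quotient.exists_rep x

omit [Fintype k] in
theorem prj_mk (x : Tup K f m) : prj (Pt.mk d x) = Projectivization.mk K x.a x.ne := rfl

theorem prj_frob (x : Pt K f m d) : prj (frobX k K f m d x) = frobP k K σ (prj x) := by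
  induction x using Pt.ind with
  | h x => rfl

theorem frobX_iter (x : Tup K f m) (n : ℕ) :
    ∃ y : Tup K f m, (frobX k K f m d)^[n] (Pt.mk d x) = Pt.mk d y ∧
      (∀ j, y.a j = x.a j ^ (Fintype.card k ^ n)) ∧ ∀ i, y.b i = x.b i ^ (Fintype.card k ^ n) := by
  induction n with
  | zero => exact ⟨x, rfl, by simp, by simp⟩
  | succ n ih =>
    obtain ⟨y, h1, h2, h3⟩ := ih
    refine ⟨y.frob, ?_, fun j => ?_, fun i => ?_⟩
    · rw [Function.iterate_succ_apply', h1, frobX_mk]
    · change y.a j ^ Fintype.card k = _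
      rw [h2, ← pow_mul, pow_succ]
    · change y.b i ^ Fintype.card k = _
      rw [h3, ← pow_mul, pow_succ]

end

section hom

variable {k : Type*} [Field k] {K : Type*} [Field K] [Algebra k K] {σ ι : Type*} [Fintype σ]

theorem aeval_smul {P : MvPolynomial σ k} {d : ℕ} (h : P.IsHomogeneous d) (t : K) (a : σ → K) :
    MvPolynomial.aeval (fun j => t * a j) P = t ^ d * MvPolynomial.aeval a P := by
  rw [MvPolynomial.aeval_def, MvPolynomial.aeval_def, MvPolynomial.eval₂_eq',
    MvPolynomial.eval₂_eq', Finset.mul_sum]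
  refine Finset.sum_congr rfl fun s hs => ?_
  have h1 : ∏ i, (t * a i) ^ s i = t ^ d * ∏ i, a i ^ s i := by
    have h2 := h (MvPolynomial.mem_support_iff.1 hs)
    rw [show Finsupp.weight (1 : σ → ℕ) s = s.degree from
      (DFunLike.congr_fun (Finsupp.degree_eq_weight_one (R := ℕ)) s).symm] at h2
    simp only [mul_pow]
    rw [Finset.prod_mul_distrib, Finset.prod_pow_eq_pow_sum]
    congr 2
    rw [← h2, Finsupp.degree_eq_sum]
  rw [h1]
  ring

end hom

end Pool.Agent.K9h8.Kum
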