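import Pool.Agent.K9h8.Kum.Tri
import Pool.Agent.K9h8.Kum.Dbl

/-!
# Pole orders modulo `ℓ`
-/

set_option autoImplicit false

namespace Pool.Agent.K9h8.Kum

open Function
open scoped LinearAlgebra.Projectivization

section pole

variable {ℓ : ℕ} [Fact ℓ.Prime]

theorem PoleOrder.hasOrd {b : ℕ → ℕ} {r : ℕ} (h : PoleOrder ℓ b r) {G : PowerSeries (ZMod ℓ)}
    (hG : IsEul b G) : HasOrd G r := by
  obtain ⟨Q, A, B, hQ, hA, hB, e⟩ := h
  rw [hG.unique hQ]
  refine ⟨A, B, r, 0, hA, hB, by simp, ?_⟩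
  rw [pow_zero, one_mul, mul_comm]
  exact e

theorem HasOrd.nat {κ : Type*} [Field κ] {G : PowerSeries κ} {r : ℕ} (h : HasOrd G r) :
    ∃ A B : Polynomial κ, A.eval 1 ≠ 0 ∧ B.eval 1 ≠ 0 ∧
      G * (B : PowerSeries κ) = (((1 - Polynomial.X) ^ r * A : Polynomial κ) : PowerSeries κ) := by
  obtain ⟨A, B, u, s, hA, hB, hk, e⟩ := h
  refine ⟨A, B, hA, hB, ?_⟩
  have hu : u = s + r := by omega
  have h0 : (((1 - Polynomial.X) ^ s : Polynomial κ) : PowerSeries κ) ≠ 0 :=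
    coe_ne (pow_ne_zero _ one_sub_X_ne)
  apply mul_left_cancel₀ h0
  rw [hu, pow_add, mul_assoc, Polynomial.coe_mul, Polynomial.coe_mul ((1 - Polynomial.X) ^ s)] at e
  rw [← e]
  ring

theorem PoleOrder.of_hasOrd {b : ℕ → ℕ} {r : ℕ} {G : PowerSeries (ZMod ℓ)} (hG : IsEul b G)
    (h : HasOrd G r) : PoleOrder ℓ b r := by
  obtain ⟨A, B, hA, hB, e⟩ := h.nat
  exact ⟨G, A, B, hG, hA, hB, e⟩

theorem PoleOrder.of_forall {b : ℕ → ℕ} {r : ℕ}
    (h : ∀ G : PowerSeries (ZMod ℓ), IsEul b G → HasOrd G r) : PoleOrder ℓ b r :=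
  .of_hasOrd (isEul_eul b) (h _ (isEul_eul b))

theorem PoleOrder.unique {b : ℕ → ℕ} {r s : ℕ} (h : PoleOrder ℓ b r) (h' : PoleOrder ℓ b s) : r = s := by
  have := (h.hasOrd (isEul_eul b)).unique (h'.hasOrd (isEul_eul b))
  exact_mod_cast this

/-- A point. -/
theorem poleOrder_point {e : ℕ} (he : 1 ≤ e) (he' : Nat.Coprime e ℓ) {b : ℕ → ℕ}
    (hb : ∀ D, 1 ≤ D → b D = if D = e then 1 else 0) : PoleOrder ℓ b 1 :=
  .of_hasOrd ((isEul_point he).congr fun D hD => (hb D hD).symm) (hasOrd_point he')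

end pole

section meaning

variable {k : Type*} [Field k] [Fintype k] {K : Type*} [Field K] [Algebra k K] [IsAlgClosed K]
  {σ : Type*} [Fintype σ] {ℓ : ℕ} [Fact ℓ.Prime]

omit [IsAlgClosed K] [Fintype σ] in
/-- For a curve the pole order is `2` if and only if `ℓ` does not divide the class number. -/
theorem poleOrder_curve (hℓ : (ℓ : ℤ) ∣ (Fintype.card k : ℤ) - 1) {A : Set (ℙ K (σ → K))}
    {L : Polynomial ℤ} (hL : IsNumerator k K A L) :
    PoleOrder ℓ (nOrb (frobP k K σ) A) 2 ↔ ¬ (ℓ : ℤ) ∣ L.eval 1 := by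
  obtain ⟨hL0, Q, hQ1, hQ2⟩ := hL
  have h3 := congrArg (PowerSeries.map (Int.castRingHom (ZMod ℓ))) hQ2
  rw [map_mul, map_mul, map_coe, map_factor_zero, map_factor_one hℓ] at h3
  have hQ := hQ1.map (Int.castRingHom (ZMod ℓ))
  have h2X : HasOrd ((((1 - Polynomial.X : Polynomial (ZMod ℓ))) : PowerSeries (ZMod ℓ)) *
      (((1 - Polynomial.X : Polynomial (ZMod ℓ))) : PowerSeries (ZMod ℓ))) (1 + 1) :=
    hasOrd_one_sub.mul hasOrd_one_sub
  constructor
  · intro h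
    have h4 := h.hasOrd hQ
    have h5 : HasOrd (((L.map (Int.castRingHom (ZMod ℓ)) : Polynomial (ZMod ℓ)) :
        PowerSeries (ZMod ℓ)) * PowerSeries.map (Int.castRingHom (ZMod ℓ)) Q) (1 + 1) := by
      rw [mul_comm, h3]
      exact h2X
    exact not_dvd_of_eval_map_ne ((h5.div h4).eval_ne (by norm_num))
  · intro h
    refine .of_hasOrd hQ ?_
    have h4 : HasOrd (PowerSeries.map (Int.castRingHom (ZMod ℓ)) Q *
        ((L.map (Int.castRingHom (ZMod ℓ)) : Polynomial (ZMod ℓ)) : PowerSeries (ZMod ℓ)))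
        (1 + 1) := by
      rw [h3]
      exact h2X
    have h5 := h4.div (hasOrd_poly (eval_map_ne h))
    convert h5 using 1
    norm_num

omit [IsAlgClosed K] [Fintype σ] in
/-- For a surface the pole order is `3` if and only if `ℓ` does not divide the value at `1` of the primitive
part. -/
theorem poleOrder_surface {q : ℕ} (hℓ : (ℓ : ℤ) ∣ (q : ℤ) - 1) {b : ℕ → ℕ}
    {R : Polynomial ℤ} (hR : IsPrimitivePart q b R) :
    PoleOrder ℓ b 3 ↔ ¬ (ℓ : ℤ) ∣ R.eval 1 := by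
  obtain ⟨hR0, hQ1⟩ := hR
  have hQ := hQ1.map (Int.castRingHom (ZMod ℓ))
  have e : PowerSeries.map (Int.castRingHom (ZMod ℓ)) ((1 - PowerSeries.X) *
      (1 - PowerSeries.C (q : ℤ) * PowerSeries.X) * (R : PowerSeries ℤ) *
        (1 - PowerSeries.C ((q : ℤ) ^ 2) * PowerSeries.X)) =
      ((R.map (Int.castRingHom (ZMod ℓ)) : Polynomial (ZMod ℓ)) : PowerSeries (ZMod ℓ)) *
        ((((1 - Polynomial.X : Polynomial (ZMod ℓ))) : PowerSeries (ZMod ℓ)) *
        (((1 - Polynomial.X : Polynomial (ZMod ℓ))) : PowerSeries (ZMod ℓ)) *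
        (((1 - Polynomial.X : Polynomial (ZMod ℓ))) : PowerSeries (ZMod ℓ))) := by
    rw [map_mul, map_mul, map_mul, map_coe, map_factor_zero, map_factor_one hℓ, map_factor hℓ]
    ring
  have h3X : HasOrd ((((1 - Polynomial.X : Polynomial (ZMod ℓ))) : PowerSeries (ZMod ℓ)) *
      (((1 - Polynomial.X : Polynomial (ZMod ℓ))) : PowerSeries (ZMod ℓ)) *
      (((1 - Polynomial.X : Polynomial (ZMod ℓ))) : PowerSeries (ZMod ℓ))) (1 + 1 + 1) :=
    (hasOrd_one_sub.mul hasOrd_one_sub).mul hasOrd_one_sub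
  constructor
  · intro h
    have h4 := h.hasOrd hQ
    rw [e] at h4
    exact not_dvd_of_eval_map_ne ((h4.div h3X).eval_ne (by norm_num))
  · intro h
    refine .of_hasOrd hQ ?_
    rw [e]
    convert (hasOrd_poly (eval_map_ne h)).mul h3X using 1
    norm_num

end meaning

section main

variable {k : Type*} [Field k] [Fintype k] {K : Type*} [Field K] [Algebra k K] [IsAlgClosed K]
  {σ : Type*} [Fintype σ] {ℓ : ℕ} [Fact ℓ.Prime]

omit [Fintype k] [IsAlgClosed K] [Fintype σ] in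
theorem mem_zeros' {ι : Type*} [Fintype ι] {f : ι → MvPolynomial σ k} (i : ι) (P : ℙ K (σ → K)) :
    P ∈ zeros K (f i) ↔ i ∈ van f P := by
  classical
  unfold zeros van
  rw [Set.mem_ofPred_eq, Finset.mem_filter]
  simp

omit [IsAlgClosed K] in
theorem cast_ne {k : Type*} [Field k] [Fintype k] {K : Type*} [Field K] [Algebra k K]
    (hℓ : (ℓ : ℤ) ∣ (Fintype.card k : ℤ) - 1) : (ℓ : K) ≠ 0 := by
  have hℓp : ℓ.Prime := Fact.out
  obtain ⟨p, hp⟩ := CharP.exists k
  have hp' : Fact p.Prime := ⟨CharP.char_is_prime k p⟩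
  have hK : CharP K p := charP_of_injective_algebraMap (algebraMap k K).injective p
  obtain ⟨r, hr⟩ := FiniteField.card k p
  intro h0
  have h1 : p ∣ ℓ := (CharP.cast_eq_zero_iff K p ℓ).1 h0
  have h2 : p = ℓ := (Nat.prime_dvd_prime_iff_eq hp'.out hℓp).1 h1
  have h3 : (ℓ : ℤ) ∣ (Fintype.card k : ℤ) := by
    rw [hr.2, h2]
    push_cast
    exact dvd_pow_self _ r.2.ne'
  have h4 : (ℓ : ℤ) ∣ 1 := by
    have := dvd_sub h3 hℓ
    rwa [sub_sub_cancel] at this
  exact hℓp.one_lt.ne' (by exact_mod_cast Int.eq_one_of_dvd_one (by positivity) h4)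

/-- **The zeta functions modulo `ℓ` of the Kummer covers.** -/
theorem Simplex.main {N : ℕ} {Y : Set (ℙ K (σ → K))} {f : Fin (N + 1) → MvPolynomial σ k}
    {d : Fin (N + 1) → ℕ} (h : Simplex k K ℓ N Y f d) (hℓ : (ℓ : ℤ) ∣ (Fintype.card k : ℤ) - 1) (n : ℕ) :
    PoleOrder ℓ (nOrb (frobX k K f (ℓ ^ n) d) (prj ⁻¹' Y)) (N + 1) := by
  classical
  have hm : ((ℓ ^ n : ℕ) : K) ≠ 0 := by
    push_cast
    exact pow_ne_zero _ (cast_ne hℓ)
  have hd : ∀ i, Nat.Coprime (d i) (ℓ ^ n) := fun i => Nat.Coprime.pow_right n (h.coprime i)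
  have hempty : strat Y f Finset.univ = ∅ := by
    rw [Set.eq_empty_iff_forall_notMem]
    rintro P ⟨hP1, hP2⟩
    obtain ⟨i, hi⟩ := h.empty P hP1
    apply hi
    rw [mem_zeros', hP2]
    exact Finset.mem_univ i
  refine .of_forall fun G hG => ?_
  have h1 := hasOrd_cover (N := N) (k := k) (K := K) h.stable (by simp) hm h.homog hd rfl hℓ hempty
    (fun I hI G hG => ?_) hG
  · exact_mod_cast h1
  · have hcard : I.card < N + 1 := by
      have := Finset.card_lt_univ_of_notMem (s := I) (x := Classical.choose (by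
        by_contra hcon
        push Not at hcon
        exact hI (Finset.eq_univ_of_forall hcon) : ∃ x, x ∉ I)) (Classical.choose_spec (by
        by_contra hcon
        push Not at hcon
        exact hI (Finset.eq_univ_of_forall hcon) : ∃ x, x ∉ I))
      rwa [Fintype.card_fin] at this
    have h2 : clos Y f I = {P | P ∈ Y ∧ ∀ i ∈ I, P ∈ zeros K (f i)} := by
      ext P
      constructor
      · rintro ⟨h3, h4⟩
        exact ⟨h3, fun i hi => (mem_zeros' i P).2 (h4 hi)⟩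
      · rintro ⟨h3, h4⟩
        exact ⟨h3, fun i hi => (mem_zeros' i P).1 (h4 i hi)⟩
    rw [h2] at hG
    have h3 := (h.pole I hI).hasOrd hG
    convert h3 using 1
    push_cast [Nat.cast_sub hcard.le]
    ring

end main

end Pool.Agent.K9h8.Kum
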