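import Pool.Agent.K9h8.Kum.Sx

/-!
# From triangles to simplices
-/

set_option autoImplicit false

namespace Pool.Agent.K9h8.Kum

open Function
open scoped LinearAlgebra.Projectivization

section

variable {k : Type*} [Field k] [Fintype k] {K : Type*} [Field K] [Algebra k K] [IsAlgClosed K]
  {σ : Type*} [Fintype σ] {ℓ : ℕ} [Fact ℓ.Prime]

/-- Three curves on a surface from pole orders of the strata. -/
theorem simplex_of {Y : Set (ℙ K (σ → K))} {f : Fin 3 → MvPolynomial σ k} {d : Fin 3 → ℕ}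
    (hY : ∀ P ∈ Y, frobP k K σ P ∈ Y) (hf : ∀ i, (f i).IsHomogeneous (d i))
    (hd : ∀ i, Nat.Coprime (d i) ℓ) (h0 : ∀ P ∈ Y, ∃ i, P ∉ zeros K (f i))
    (h1 : PoleOrder ℓ (nOrb (frobP k K σ) Y) 3)
    (h2 : ∀ i, PoleOrder ℓ (nOrb (frobP k K σ) (Y ∩ zeros K (f i))) 2)
    (h3 : ∀ i j, i ≠ j → ∃ P : ℙ K (σ → K), 1 ≤ minimalPeriod (frobP k K σ) P ∧
      Nat.Coprime (minimalPeriod (frobP k K σ) P) ℓ ∧
      Y ∩ (zeros K (f i) ∩ zeros K (f j)) = orb (frobP k K σ) P) :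
    Simplex k K ℓ 2 Y f d := by
  classical
  refine ⟨hY, hf, hd, h0, fun I hI => ?_⟩
  have hcard : I.card ≤ 2 := by
    by_contra hcon
    push Not at hcon
    apply hI
    apply Finset.eq_univ_of_card
    have := Finset.card_le_univ I
    rw [Fintype.card_fin] at *
    omega
  obtain h4 | h4 | h4 : I.card = 0 ∨ I.card = 1 ∨ I.card = 2 := by omega
  · have hI0 : I = ∅ := Finset.card_eq_zero.1 h4
    subst hI0
    have h5 : {P | P ∈ Y ∧ ∀ i ∈ (∅ : Finset (Fin (2 + 1))), P ∈ zeros K (f i)} = Y := by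
      ext P
      simp
    rw [h5, h4]
    exact h1
  · obtain ⟨i, rfl⟩ := Finset.card_eq_one.1 h4
    have h5 : {P | P ∈ Y ∧ ∀ j ∈ ({i} : Finset (Fin (2 + 1))), P ∈ zeros K (f j)} =
        Y ∩ zeros K (f i) := by
      ext P
      simp
    rw [h5, h4]
    exact h2 i
  · obtain ⟨i, j, hij, rfl⟩ := Finset.card_eq_two.1 h4
    obtain ⟨P, hP1, hP2, hP3⟩ := h3 i j hij
    have h5 : {P | P ∈ Y ∧ ∀ a ∈ ({i, j} : Finset (Fin (2 + 1))), P ∈ zeros K (f a)} =
        orb (frobP k K σ) P := by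
      rw [← hP3]
      ext P
      simp
      tauto
    rw [h5, h4]
    refine poleOrder_point hP1 hP2 fun D hD => ?_
    rw [nOrb_single hP1 rfl rfl]

theorem Triangle.simplex {Y : Set (ℙ K (σ → K))} {f : Fin 3 → MvPolynomial σ k} {d : Fin 3 → ℕ}
    (h : Triangle k K ℓ Y f d) (hℓ : (ℓ : ℤ) ∣ (Fintype.card k : ℤ) - 1) : Simplex k K ℓ 2 Y f d := by
  refine simplex_of h.stable h.homog h.coprime h.empty ?_ (fun i => ?_) h.meet
  · obtain ⟨R, hR1, hR2⟩ := h.surface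
    exact (poleOrder_surface hℓ hR1).2 hR2
  · obtain ⟨L, hL1, hL2⟩ := h.class_number i
    exact (poleOrder_curve hℓ hL1).2 hL2

theorem poleOrder_plane (hℓ : (ℓ : ℤ) ∣ (Fintype.card k : ℤ) - 1) :
    PoleOrder ℓ (nOrb (frobP k K (Fin 3)) Set.univ) 3 := by
  refine (poleOrder_surface hℓ isPrimitivePart_plane).2 ?_
  rw [Polynomial.eval_one]
  intro h
  exact (Fact.out : ℓ.Prime).one_lt.ne' (by exact_mod_cast Int.eq_one_of_dvd_one (by positivity) h)

end

end Pool.Agent.K9h8.Kum
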