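import Pool.Agent.K9h8.Kum.Full2

/-!
# Tensor products of two representations
-/

set_option autoImplicit false

namespace Pool.Agent.K9h8.Kum

open Polynomial TensorProduct

/-- The arithmetic of two inverse zeros. -/
theorem no_pair {ℓ : ℕ} (hℓ : ℓ.Prime) {Q : ℤ} (hQ : (ℓ : ℤ) ∣ Q - 1) {R1 R2 : ℤ[X]}
    (h1 : R1.coeff 0 = 1) (h2 : R2.coeff 0 = 1)
    (hco : IsCoprime (R1.map (Int.castRingHom (ZMod ℓ))) ((R2.map (Int.castRingHom (ZMod ℓ))).reverse))
    {F : Type*} [Field F] [CharZero F] {α β : F} (hα : aeval (α⁻¹) R1 = 0) (hβ : aeval (β⁻¹) R2 = 0)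
    (a : ℕ) (hαβ : (α * β) ^ (ℓ ^ a) = (Q : F) ^ (ℓ ^ a)) (hQ0 : Q ≠ 0) : False := by
  have hQF : (Q : F) ≠ 0 := by exact_mod_cast hQ0
  have hne : α * β ≠ 0 := by
    intro h
    rw [h, zero_pow (pow_ne_zero _ hℓ.ne_zero)] at hαβ
    exact pow_ne_zero _ hQF hαβ.symm
  have hα0 : α ≠ 0 := left_ne_zero_of_mul hne
  have hβ0 : β ≠ 0 := right_ne_zero_of_mul hne
  -- the reversed equation
  have hrev : ∀ (R : ℤ[X]) (γ : F), γ ≠ 0 → aeval (γ⁻¹) R = 0 →
      eval₂ (algebraMap ℤ F) γ (reflect R.natDegree R) = 0 := by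
    intro R γ hγ h
    let _ : Invertible γ := invertibleOfNonzero hγ
    have h3 := eval₂_reflect_eq_zero_iff (algebraMap ℤ F) (⅟γ) R.natDegree R le_rfl
    rw [invOf_invOf] at h3
    rw [h3, invOf_eq_inv]
    exact h
  have hint : ∀ (R : ℤ[X]) (γ : F), R.coeff 0 = 1 → γ ≠ 0 → aeval (γ⁻¹) R = 0 → IsIntegral ℤ γ := by
    intro R γ hR hγ h
    refine ⟨reflect R.natDegree R, ?_, hrev R γ hγ h⟩
    have hdeg : (reflect R.natDegree R).natDegree ≤ R.natDegree := by
      refine natDegree_reflect_le.trans ?_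
      simp
    have hc : (reflect R.natDegree R).coeff R.natDegree = 1 := by
      rw [coeff_reflect, revAt_le le_rfl, Nat.sub_self, hR]
    exact monic_of_natDegree_le_of_coeff_eq_one R.natDegree hdeg hc
  -- the ring of integers
  have hmax : (Ideal.span {(ℓ : ℤ)}).IsMaximal :=
    PrincipalIdealRing.isMaximal_of_irreducible (Nat.prime_iff_prime_int.1 hℓ).irreducible
  obtain ⟨𝔪, h𝔪, hc⟩ := Ideal.exists_ideal_over_maximal_of_isIntegral
    (S := integralClosure ℤ F) (Ideal.span {(ℓ : ℤ)}) (by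
      intro x hx
      rw [RingHom.mem_ker] at hx
      have hinj : Function.Injective (algebraMap ℤ (integralClosure ℤ F)) :=
        FaithfulSMul.algebraMap_injective ℤ (integralClosure ℤ F)
      rw [hinj (hx.trans (map_zero _).symm)]
      exact Ideal.zero_mem _)
  let π : integralClosure ℤ F →+* (integralClosure ℤ F ⧸ 𝔪) := Ideal.Quotient.mk 𝔪
  have hfield : IsField (integralClosure ℤ F ⧸ 𝔪) := Ideal.Quotient.maximal_ideal_iff_isField_quotient 𝔪 |>.1 h𝔪
  have hdom : IsDomain (integralClosure ℤ F ⧸ 𝔪) := hfield.isDomain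
  have hker : ∀ x : ℤ, π (algebraMap ℤ _ x) = 0 ↔ (ℓ : ℤ) ∣ x := by
    intro x
    rw [← Ideal.mem_span_singleton, ← hc, Ideal.mem_comap]
    exact Ideal.Quotient.eq_zero_iff_mem
  have hchar : CharP (integralClosure ℤ F ⧸ 𝔪) ℓ := by
    refine ⟨fun x => ?_⟩
    have h3 := hker (x : ℤ)
    rw [Int.natCast_dvd_natCast] at h3
    rw [← h3]
    simp
  have hFact : Fact ℓ.Prime := ⟨hℓ⟩
  set x : integralClosure ℤ F := ⟨α, hint R1 α h1 hα0 hα⟩ with hx
  set y : integralClosure ℤ F := ⟨β, hint R2 β h2 hβ0 hβ⟩ with hy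
  have hQ1 : π (algebraMap ℤ _ Q) = 1 := by
    have h6 := (hker (Q - 1)).2 hQ
    rw [map_sub, map_sub, map_one, map_one] at h6
    exact sub_eq_zero.1 h6
  have hxy : π x * π y = 1 := by
    have h7 : (x * y) ^ (ℓ ^ a) = (algebraMap ℤ _ Q) ^ (ℓ ^ a) := Subtype.ext hαβ
    have h8 : (π x * π y) ^ (ℓ ^ a) = 1 := by
      rw [← map_mul, ← map_pow, h7, map_pow, hQ1, one_pow]
    have h9 : (π x * π y - 1) ^ (ℓ ^ a) = 0 := by
      rw [sub_pow_char_pow, h8, one_pow, sub_self]
    exact sub_eq_zero.1 (pow_eq_zero_iff (pow_ne_zero _ hℓ.ne_zero) |>.1 h9)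
  -- reductions of the equations
  have hred : ∀ (R : ℤ[X]) (γ : F) (z : integralClosure ℤ F), (z : F) = γ → γ ≠ 0 →
      aeval (γ⁻¹) R = 0 →
      eval₂ (π.comp (algebraMap ℤ (integralClosure ℤ F))) (π z) (reflect R.natDegree R) = 0 := by
    intro R γ z hz hγ h
    rw [← hom_eval₂]
    have h10 : eval₂ (algebraMap ℤ (integralClosure ℤ F)) z (reflect R.natDegree R) = 0 := by
      apply Subtype.ext
      have h11 := hom_eval₂ (reflect R.natDegree R) (algebraMap ℤ (integralClosure ℤ F))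
        (algebraMap (integralClosure ℤ F) F) z
      have h12 : (algebraMap (integralClosure ℤ F) F).comp (algebraMap ℤ (integralClosure ℤ F)) =
          algebraMap ℤ F := RingHom.ext_int _ _
      rw [h12] at h11
      have h13 : (algebraMap (integralClosure ℤ F) F) z = γ := hz
      rw [h13, hrev R γ hγ h] at h11
      exact h11
    rw [h10, map_zero]
  have e1 := hred R1 α x rfl hα0 hα
  have e2 := hred R2 β y rfl hβ0 hβ
  let g : ZMod ℓ →+* (integralClosure ℤ F ⧸ 𝔪) := ZMod.castHom dvd_rfl _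
  have hg : π.comp (algebraMap ℤ (integralClosure ℤ F)) = g.comp (Int.castRingHom (ZMod ℓ)) :=
    RingHom.ext_int _ _
  rw [hg, ← eval₂_map] at e1 e2
  rw [← reflect_map'] at e1 e2
  -- `π y` is the inverse of `π x`
  have i1 : Invertible (π x) := ⟨π y, by rw [mul_comm]; exact hxy, hxy⟩
  have i2 : Invertible (π y) := ⟨π x, hxy, by rw [mul_comm]; exact hxy⟩
  have f1 : eval₂ g (π y) (R1.map (Int.castRingHom (ZMod ℓ))) = 0 := by
    have h14 := eval₂_reflect_eq_zero_iff g (π y) R1.natDegree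
      (R1.map (Int.castRingHom (ZMod ℓ))) natDegree_map_le
    have h15 : ⅟(π y) = π x := invOf_eq_right_inv (by rw [mul_comm]; exact hxy)
    rw [h15] at h14
    exact h14.1 e1
  have f2 : eval₂ g (π y) ((R2.map (Int.castRingHom (ZMod ℓ))).reverse) = 0 := by
    have h14 := eval₂_reflect_eq_zero_iff g (π x) R2.natDegree
      (R2.map (Int.castRingHom (ZMod ℓ))) natDegree_map_le
    have h15 : ⅟(π x) = π y := invOf_eq_right_inv hxy
    rw [h15] at h14
    have h16 := h14.1 e2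
    have h17 := eval₂_reverse_eq_zero_iff g (π x) (R2.map (Int.castRingHom (ZMod ℓ)))
    rw [h15] at h17
    exact h17.2 h16
  obtain ⟨u, w, huw⟩ := hco
  have h18 := congrArg (eval₂ g (π y)) huw
  rw [eval₂_add, eval₂_mul, eval₂_mul, f1, f2, mul_zero, mul_zero, add_zero, eval₂_one] at h18
  exact zero_ne_one h18

/-- No special vectors in a tensor product. -/
theorem no_tensor {ℓ : ℕ} (hℓ : ℓ.Prime) {Q : ℤ} (hQ : (ℓ : ℤ) ∣ Q - 1) (hQ0 : Q ≠ 0) {R1 R2 : ℤ[X]}
    (h1 : R1.coeff 0 = 1) (h2 : R2.coeff 0 = 1)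
    (hco : IsCoprime (R1.map (Int.castRingHom (ZMod ℓ))) ((R2.map (Int.castRingHom (ZMod ℓ))).reverse))
    {E : Type*} [Field E] [CharZero E] {V W : Type*} [AddCommGroup V] [Module E V] [FiniteDimensional E V]
    [AddCommGroup W] [Module E W] [FiniteDimensional E W] (φ : V →ₗ[E] V) (ψ : W →ₗ[E] W)
    (hφ : φ.charpoly.reverse = R1.map (Int.castRingHom E))
    (hψ : ψ.charpoly.reverse = R2.map (Int.castRingHom E)) (a : ℕ) (v : V ⊗[E] W)
    (hv : ((TensorProduct.map φ ψ) ^ (ℓ ^ a)) v = ((Q : E) ^ (ℓ ^ a)) • v) : v = 0 := by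
  by_contra hne
  set A : Module.End E (V ⊗[E] W) := TensorProduct.map φ LinearMap.id with hA
  set B : Module.End E (V ⊗[E] W) := TensorProduct.map LinearMap.id ψ with hB
  have hAB : A * B = TensorProduct.map φ ψ := by
    rw [hA, hB, ← TensorProduct.map_mul]
    rfl
  have hBA : B * A = TensorProduct.map φ ψ := by
    rw [hA, hB, ← TensorProduct.map_mul]
    rfl
  have hcomm : ∀ x ∈ ({A, B} : Set (Module.End E (V ⊗[E] W))), ∀ y ∈ ({A, B} : Set (Module.End E (V ⊗[E] W))),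
      x * y = y * x := by
    intro x hx y hy
    rw [Set.mem_insert_iff, Set.mem_singleton_iff] at hx hy
    rcases hx with rfl | rfl <;> rcases hy with rfl | rfl
    · rfl
    · rw [hAB, hBA]
    · rw [hAB, hBA]
    · rfl
  let S := Algebra.adjoin E ({A, B} : Set (Module.End E (V ⊗[E] W)))
  have hSc : IsMulCommutative S := Algebra.isMulCommutative_adjoin E hcomm
  let _ : CommRing S := { (inferInstance : Ring S) with mul_comm := fun x y => hSc.is_comm.comm x y }
  let x : S := ⟨A, Algebra.subset_adjoin (by simp)⟩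
  let y : S := ⟨B, Algebra.subset_adjoin (by simp)⟩
  -- the annihilator of `v`
  let I : Ideal S := {
    carrier := {T | (T : Module.End E (V ⊗[E] W)) v = 0}
    add_mem' := by
      intro a b ha hb
      change ((a : Module.End E (V ⊗[E] W)) + b) v = 0
      rw [LinearMap.add_apply]
      change (a : Module.End E (V ⊗[E] W)) v = 0 at ha
      change (b : Module.End E (V ⊗[E] W)) v = 0 at hb
      rw [ha, hb, add_zero]
    zero_mem' := by
      change (0 : Module.End E (V ⊗[E] W)) v = 0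
      rfl
    smul_mem' := by
      intro c b hb
      change ((c : Module.End E (V ⊗[E] W)) * b) v = 0
      change (b : Module.End E (V ⊗[E] W)) v = 0 at hb
      rw [Module.End.mul_apply, hb, map_zero] }
  have hI : I ≠ ⊤ := by
    intro h
    have h1 : (1 : S) ∈ I := by rw [h]; trivial
    exact hne h1
  obtain ⟨𝔫, h𝔫, hI𝔫⟩ := Ideal.exists_le_maximal I hI
  let _ : Field (S ⧸ 𝔫) := Ideal.Quotient.field 𝔫
  have hinj : Function.Injective ((Ideal.Quotient.mk 𝔫).comp (algebraMap E S)) :=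
    RingHom.injective _
  have hchar : CharZero (S ⧸ 𝔫) := charZero_of_injective_ringHom hinj
  -- Cayley-Hamilton
  have hCA : aeval x φ.charpoly = 0 := by
    apply Subtype.ext
    have h3 := Polynomial.aeval_algHom_apply S.val x φ.charpoly
    have h4 : S.val x = A := rfl
    rw [h4] at h3
    change S.val (aeval x φ.charpoly) = 0
    rw [← h3]
    have h5 := Polynomial.aeval_algHom_apply (Module.End.rTensorAlgHom E V W) φ φ.charpoly
    have h6 : (Module.End.rTensorAlgHom E V W) φ = A := rfl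
    rw [h6] at h5
    rw [h5, LinearMap.aeval_self_charpoly, map_zero]
  have hCB : aeval y ψ.charpoly = 0 := by
    apply Subtype.ext
    have h3 := Polynomial.aeval_algHom_apply S.val y ψ.charpoly
    have h4 : S.val y = B := rfl
    rw [h4] at h3
    change S.val (aeval y ψ.charpoly) = 0
    rw [← h3]
    have h5 := Polynomial.aeval_algHom_apply (Module.End.lTensorAlgHom E W V) ψ ψ.charpoly
    have h6 : (Module.End.lTensorAlgHom E W V) ψ = B := rfl
    rw [h6] at h5
    rw [h5, LinearMap.aeval_self_charpoly, map_zero]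
  set j : E →+* (S ⧸ 𝔫) := (Ideal.Quotient.mk 𝔫).comp (algebraMap E S) with hj
  set α : S ⧸ 𝔫 := Ideal.Quotient.mk 𝔫 x with hα
  set β : S ⧸ 𝔫 := Ideal.Quotient.mk 𝔫 y with hβ
  have hEα : eval₂ j α φ.charpoly = 0 := by
    have h3 := congrArg (Ideal.Quotient.mk 𝔫) hCA
    rw [aeval_def, hom_eval₂, map_zero] at h3
    exact h3
  have hEβ : eval₂ j β ψ.charpoly = 0 := by
    have h3 := congrArg (Ideal.Quotient.mk 𝔫) hCB
    rw [aeval_def, hom_eval₂, map_zero] at h3
    exact h3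
  have hprod : (α * β) ^ (ℓ ^ a) = (Q : S ⧸ 𝔫) ^ (ℓ ^ a) := by
    have h3 : (x * y) ^ (ℓ ^ a) - ((Q : ℤ) : S) ^ (ℓ ^ a) ∈ I := by
      change (((x * y) ^ (ℓ ^ a) - ((Q : ℤ) : S) ^ (ℓ ^ a) : S) : Module.End E (V ⊗[E] W)) v = 0
      have h4 : (((x * y) ^ (ℓ ^ a) - ((Q : ℤ) : S) ^ (ℓ ^ a) : S) : Module.End E (V ⊗[E] W)) =
          (TensorProduct.map φ ψ) ^ (ℓ ^ a) - ((Q : ℤ) : Module.End E (V ⊗[E] W)) ^ (ℓ ^ a) := by
        rw [← hAB]
        push_cast
        rfl
      rw [h4, LinearMap.sub_apply, hv, sub_eq_zero]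
      have h5 : ((Q : ℤ) : Module.End E (V ⊗[E] W)) = (Q : E) • (1 : Module.End E (V ⊗[E] W)) := by
        ext p r
        simp [Int.cast_smul_eq_zsmul]
      rw [h5, _root_.smul_pow, one_pow]
      rfl
    have h4 := hI𝔫 h3
    rw [← Ideal.Quotient.eq_zero_iff_mem, map_sub, map_pow, map_pow, map_mul, map_intCast,
      sub_eq_zero] at h4
    exact h4
  have hQF : (Q : S ⧸ 𝔫) ≠ 0 := by exact_mod_cast hQ0
  have hne' : α * β ≠ 0 := by
    intro h
    rw [h, zero_pow (pow_ne_zero _ hℓ.ne_zero)] at hprod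
    exact pow_ne_zero _ hQF hprod.symm
  have key : ∀ (P : E[X]) (R : ℤ[X]) (γ : S ⧸ 𝔫), γ ≠ 0 → P.reverse = R.map (Int.castRingHom E) →
      eval₂ j γ P = 0 → aeval (γ⁻¹) R = 0 := by
    intro P R γ hγ hP h
    let _ : Invertible γ := invertibleOfNonzero hγ
    have h3 := (eval₂_reverse_eq_zero_iff j γ P).2 h
    rw [hP, eval₂_map, invOf_eq_inv] at h3
    rw [aeval_def, ← h3]
    congr 1
    exact RingHom.ext_int _ _
  exact no_pair hℓ hQ h1 h2 hco (key _ _ _ (left_ne_zero_of_mul hne') hφ hEα)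
    (key _ _ _ (right_ne_zero_of_mul hne') hψ hEβ) a hprod hQ0

end Pool.Agent.K9h8.Kum
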