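import Pool.Agent.K9h8.Kum.Lin
import Pool.Agent.K9h8.Kum.Sx

/-!
# Twisting a double cover
-/

set_option autoImplicit false

namespace Pool.Agent.K9h8.Kum

open Function
open scoped LinearAlgebra.Projectivization

/-! ### Abstract double covers -/

/-- An equivariant map `π : A → B` whose fibres are the orbits of an involution `ι` commuting with `F`. -/
structure IsDbl {S T : Type*} (F ι : S → S) (G : T → T) (A : Set S) (B : Set T) (π : S → T) : Prop where
  niceA : Nice F A
  niceB : Nice G B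
  inv : ∀ x, ι (ι x) = x
  stab : ∀ x, x ∈ A → ι x ∈ A
  comm : ∀ x, F (ι x) = ι (F x)
  maps : ∀ x, x ∈ A → π x ∈ B
  equi : ∀ x, π (F x) = G (π x)
  pinv : ∀ x, π (ι x) = π x
  fib : ∀ x y, x ∈ A → y ∈ A → π x = π y → y = x ∨ y = ι x
  surj : ∀ y, y ∈ B → ∃ x, x ∈ A ∧ π x = y

namespace IsDbl

variable {S T : Type*} {F ι : S → S} {G : T → T} {A : Set S} {B : Set T} {π : S → T}

theorem iter_inv (h : IsDbl F ι G A B π) (x : S) (n : ℕ) : F^[n] (ι x) = ι (F^[n] x) := by
  induction n with
  | zero => rfl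
  | succ n ih => rw [Function.iterate_succ_apply', Function.iterate_succ_apply', ih, h.comm]

theorem iter_equi (h : IsDbl F ι G A B π) (x : S) (n : ℕ) : π (F^[n] x) = G^[n] (π x) := by
  induction n with
  | zero => rfl
  | succ n ih => rw [Function.iterate_succ_apply', Function.iterate_succ_apply', h.equi, ih]

theorem iter_twist (h : IsDbl F ι G A B π) (x : S) (n : ℕ) :
    (fun x => ι (F x))^[n] x = if Even n then F^[n] x else ι (F^[n] x) := by
  induction n with
  | zero => simp
  | succ n ih =>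
    rw [Function.iterate_succ_apply', ih]
    by_cases hn : Even n
    · rw [if_pos hn, if_neg (by rw [Nat.even_add_one]; exact not_not.2 hn),
        Function.iterate_succ_apply']
    · rw [if_neg hn, if_pos (Nat.even_add_one.2 hn), Function.iterate_succ_apply']
      rw [h.comm, h.inv]

theorem sq_fix (h : IsDbl F ι G A B π) {x : S} {n : ℕ} (hx : ι (F^[n] x) = x) : F^[2 * n] x = x := by
  have h1 : F^[n] x = ι x := by
    rw [← h.inv (F^[n] x), hx]
  rw [two_mul, Function.iterate_add_apply, h1, h.iter_inv, h1, h.inv]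

theorem fin_twist (h : IsDbl F ι G A B π) {n : ℕ} (hn : 1 ≤ n) :
    {x | x ∈ A ∧ ι (F^[n] x) = x}.Finite :=
  (h.niceA.fin (2 * n) (by omega)).subset fun _ hx => ⟨hx.1, h.sq_fix hx.2⟩

theorem nice_twist (h : IsDbl F ι G A B π) : Nice (fun x => ι (F x)) A := by
  refine ⟨fun x hx => h.stab _ (h.niceA.stab _ hx), fun n hn => ?_⟩
  by_cases he : Even n
  · refine (h.niceA.fin n hn).subset ?_
    rintro x ⟨hx, h1⟩
    rw [h.iter_twist, if_pos he] at h1
    exact ⟨hx, h1⟩
  · refine (h.fin_twist hn).subset ?_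
    rintro x ⟨hx, h1⟩
    rw [h.iter_twist, if_neg he] at h1
    exact ⟨hx, h1⟩

/-- The fixed points of `F ^ n` and of `ι F ^ n`. -/
theorem ncard_add (h : IsDbl F ι G A B π) {n : ℕ} (hn : 1 ≤ n) :
    {x | x ∈ A ∧ F^[n] x = x}.ncard + {x | x ∈ A ∧ ι (F^[n] x) = x}.ncard =
      2 * {y | y ∈ B ∧ G^[n] y = y}.ncard := by
  classical
  obtain ⟨s, hs⟩ : ∃ s : Finset S, (s : Set S) = {x | x ∈ A ∧ F^[n] x = x} :=
    ⟨(h.niceA.fin n hn).toFinset, by simp⟩
  obtain ⟨s', hs'⟩ : ∃ s : Finset S, (s : Set S) = {x | x ∈ A ∧ ι (F^[n] x) = x} :=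
    ⟨(h.fin_twist hn).toFinset, by simp⟩
  obtain ⟨t, ht⟩ : ∃ t : Finset T, (t : Set T) = {y | y ∈ B ∧ G^[n] y = y} :=
    ⟨(h.niceB.fin n hn).toFinset, by simp⟩
  have ms : ∀ x, x ∈ s ↔ x ∈ A ∧ F^[n] x = x := fun x => by rw [← Finset.mem_coe, hs]; rfl
  have ms' : ∀ x, x ∈ s' ↔ x ∈ A ∧ ι (F^[n] x) = x := fun x => by rw [← Finset.mem_coe, hs']; rfl
  have mt : ∀ y, y ∈ t ↔ y ∈ B ∧ G^[n] y = y := fun y => by rw [← Finset.mem_coe, ht]; rfl
  rw [← hs, ← hs', ← ht, Set.ncard_coe_finset, Set.ncard_coe_finset, Set.ncard_coe_finset]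
  rw [Finset.card_eq_sum_card_fiberwise (f := π) (s := s) (t := t),
    Finset.card_eq_sum_card_fiberwise (f := π) (s := s') (t := t), ← Finset.sum_add_distrib,
    Finset.sum_congr rfl (g := fun _ => 2), Finset.sum_const, smul_eq_mul, mul_comm]
  · intro y hy
    obtain ⟨hy1, hy2⟩ := (mt y).1 hy
    obtain ⟨x0, hx0, rfl⟩ := h.surj y hy1
    have h1 : F^[n] x0 = x0 ∨ F^[n] x0 = ι x0 :=
      h.fib x0 (F^[n] x0) hx0 (h.niceA.iter hx0 n) (by rw [h.iter_equi, hy2])
    by_cases h2 : ι x0 = x0
    · have h3 : F^[n] x0 = x0 := by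
        rcases h1 with h1 | h1
        · exact h1
        · rw [h1, h2]
      have e1 : s.filter (fun x => π x = π x0) = {x0} := by
        ext x
        rw [Finset.mem_filter, Finset.mem_singleton, ms]
        constructor
        · rintro ⟨⟨h4, -⟩, h5⟩
          rcases h.fib x0 x hx0 h4 h5.symm with h6 | h6
          · exact h6
          · rw [h6, h2]
        · rintro rfl
          exact ⟨⟨hx0, h3⟩, rfl⟩
      have e2 : s'.filter (fun x => π x = π x0) = {x0} := by
        ext x
        rw [Finset.mem_filter, Finset.mem_singleton, ms']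
        constructor
        · rintro ⟨⟨h4, -⟩, h5⟩
          rcases h.fib x0 x hx0 h4 h5.symm with h6 | h6
          · exact h6
          · rw [h6, h2]
        · rintro rfl
          exact ⟨⟨hx0, by rw [h3, h2]⟩, rfl⟩
      rw [e1, e2]
      simp
    · have h3 : ∀ x, x ∈ ({x0, ι x0} : Finset S) ↔ x ∈ A ∧ π x = π x0 := by
        intro x
        rw [Finset.mem_insert, Finset.mem_singleton]
        constructor
        · rintro (rfl | rfl)
          · exact ⟨hx0, rfl⟩
          · exact ⟨h.stab _ hx0, h.pinv _⟩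
        · rintro ⟨h4, h5⟩
          exact h.fib x0 x hx0 h4 h5.symm
      have hc : ({x0, ι x0} : Finset S).card = 2 := Finset.card_pair fun h => h2 h.symm
      rcases h1 with h1 | h1
      · have e1 : s.filter (fun x => π x = π x0) = {x0, ι x0} := by
          ext x
          rw [Finset.mem_filter, ms, h3]
          constructor
          · rintro ⟨⟨h4, -⟩, h5⟩
            exact ⟨h4, h5⟩
          · rintro ⟨h4, h5⟩
            refine ⟨⟨h4, ?_⟩, h5⟩
            rcases h.fib x0 x hx0 h4 h5.symm with rfl | rfl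
            · exact h1
            · rw [h.iter_inv, h1]
        have e2 : s'.filter (fun x => π x = π x0) = ∅ := by
          rw [Finset.filter_eq_empty_iff]
          intro x hx h5
          obtain ⟨h4, h6⟩ := (ms' x).1 hx
          rcases h.fib x0 x hx0 h4 h5.symm with rfl | rfl
          · rw [h1] at h6
            exact h2 h6
          · rw [h.iter_inv, h1, h.inv] at h6
            exact h2 h6.symm
        rw [e1, e2, hc]
        simp
      · have e1 : s.filter (fun x => π x = π x0) = ∅ := by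
          rw [Finset.filter_eq_empty_iff]
          intro x hx h5
          obtain ⟨h4, h6⟩ := (ms x).1 hx
          rcases h.fib x0 x hx0 h4 h5.symm with rfl | rfl
          · rw [h1] at h6
            exact h2 h6
          · rw [h.iter_inv, h1, h.inv] at h6
            exact h2 h6.symm
        have e2 : s'.filter (fun x => π x = π x0) = {x0, ι x0} := by
          ext x
          rw [Finset.mem_filter, ms', h3]
          constructor
          · rintro ⟨⟨h4, -⟩, h5⟩
            exact ⟨h4, h5⟩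
          · rintro ⟨h4, h5⟩
            refine ⟨⟨h4, ?_⟩, h5⟩
            rcases h.fib x0 x hx0 h4 h5.symm with rfl | rfl
            · rw [h1, h.inv]
            · rw [h.iter_inv, h1, h.inv]
        rw [e1, e2, hc]
        simp
  · intro x hx
    rw [Finset.mem_coe] at hx
    obtain ⟨h4, h6⟩ := (ms' x).1 hx
    rw [Finset.mem_coe, mt]
    refine ⟨h.maps x h4, ?_⟩
    rw [← h.iter_equi]
    conv_rhs => rw [← h6]
    rw [h.pinv]
  · intro x hx
    rw [Finset.mem_coe] at hx
    obtain ⟨h4, h6⟩ := (ms x).1 hx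
    rw [Finset.mem_coe, mt]
    refine ⟨h.maps x h4, ?_⟩
    rw [← h.iter_equi, h6]

end IsDbl

/-! ### Zeta functions -/

theorem LD.isEul {b : ℕ → ℕ} {Q : PowerSeries ℤ} (h : IsEul b Q) : LD Q
    (PowerSeries.mk fun n => if 1 ≤ n then ∑ d ∈ n.divisors, (d : ℤ) * b d else 0) := by
  rw [h.unique (isEul_eul b)]
  exact LD_eul b

theorem th_evalNeg (Q : PowerSeries ℤ) : th (PowerSeries.evalNegHom Q) = PowerSeries.evalNegHom (th Q) := by
  ext n
  rw [th, PowerSeries.coeff_mk, PowerSeries.evalNegHom, PowerSeries.coeff_rescale,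
    PowerSeries.coeff_rescale, th, PowerSeries.coeff_mk]
  ring

theorem LD.evalNeg {Q C : PowerSeries ℤ} (h : LD Q C) :
    LD (PowerSeries.evalNegHom Q) (PowerSeries.evalNegHom C) := by
  unfold LD at *
  rw [th_evalNeg, h, map_neg, map_mul]

variable {S T : Type*} {F ι : S → S} {G : T → T} {A : Set S} {B : Set T} {π : S → T}

theorem coeff_zero_mul' (P Q : PowerSeries ℤ) :
    PowerSeries.coeff 0 (P * Q) = PowerSeries.coeff 0 P * PowerSeries.coeff 0 Q := by
  rw [PowerSeries.coeff_mul]
  simp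

/-- **The zeta function of the twist.** -/
theorem IsDbl.isEul_twist (h : IsDbl F ι G A B π) {P Λ : PowerSeries ℤ} (hP : IsEul (nOrb G B) P)
    (hΛ : IsEul (nOrb F A) (P * Λ)) :
    IsEul (nOrb (fun x => ι (F x)) A) (P * PowerSeries.evalNegHom Λ) := by
  have hP0 : PowerSeries.coeff 0 P = 1 := by
    rw [hP.unique (isEul_eul _)]
    exact coeff_zero_eul _
  have hPΛ0 : PowerSeries.coeff 0 (P * Λ) = 1 := by
    rw [hΛ.unique (isEul_eul _)]
    exact coeff_zero_eul _
  have hΛ0 : PowerSeries.coeff 0 Λ = 1 := by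
    rw [coeff_zero_mul', hP0, one_mul] at hPΛ0
    exact hPΛ0
  have hPne : P ≠ 0 := by
    rintro rfl
    simp at hP0
  have l1 := LD.isEul hP
  have l2 := LD.isEul hΛ
  set cG : PowerSeries ℤ := PowerSeries.mk fun n => if 1 ≤ n then ∑ d ∈ n.divisors, (d : ℤ) * nOrb G B d
    else 0 with hcG
  set cF : PowerSeries ℤ := PowerSeries.mk fun n => if 1 ≤ n then ∑ d ∈ n.divisors, (d : ℤ) * nOrb F A d
    else 0 with hcF
  have l3 : LD Λ (cF - cG) := by
    unfold LD at *
    apply mul_left_cancel₀ hPne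
    have h3 := th_mul P Λ
    rw [l2, l1] at h3
    linear_combination (-1 : PowerSeries ℤ) * h3
  have l4 := l1.mul l3.evalNeg
  refine isEul_of_counts (c := fun n => ((∑ d ∈ n.divisors, d * nOrb (fun x => ι (F x)) A d : ℕ) : ℤ)) ?_
    (fun n _ => rfl) ?_
  · rw [coeff_zero_mul', hP0, one_mul, PowerSeries.evalNegHom, PowerSeries.coeff_rescale,
      hΛ0]
    simp
  · convert l4 using 1
    ext n
    rw [PowerSeries.coeff_mk, map_add, PowerSeries.evalNegHom, PowerSeries.coeff_rescale, map_sub, hcG,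
      hcF, PowerSeries.coeff_mk, PowerSeries.coeff_mk]
    rcases Nat.eq_zero_or_pos n with hn | hn
    · subst hn
      simp
    · have hn' : 1 ≤ n := hn
      rw [if_pos hn', if_pos hn', if_pos hn']
      have k1 : (∑ d ∈ n.divisors, (d : ℤ) * nOrb G B d) = ({y | y ∈ B ∧ G^[n] y = y}.ncard : ℤ) := by
        rw [h.niceB.ncard_fix hn']
        push_cast
        rfl
      have k2 : (∑ d ∈ n.divisors, (d : ℤ) * nOrb F A d) = ({x | x ∈ A ∧ F^[n] x = x}.ncard : ℤ) := by
        rw [h.niceA.ncard_fix hn']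
        push_cast
        rfl
      rw [k1, k2, ← h.nice_twist.ncard_fix hn']
      by_cases he : Even n
      · rw [he.neg_one_pow]
        have : {x | x ∈ A ∧ (fun x => ι (F x))^[n] x = x} = {x | x ∈ A ∧ F^[n] x = x} := by
          ext x
          simp only [Set.mem_ofPred_eq]
          rw [h.iter_twist, if_pos he]
        rw [this]
        ring
      · rw [(Nat.not_even_iff_odd.1 he).neg_one_pow]
        have : {x | x ∈ A ∧ (fun x => ι (F x))^[n] x = x} = {x | x ∈ A ∧ ι (F^[n] x) = x} := by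
          ext x
          simp only [Set.mem_ofPred_eq]
          rw [h.iter_twist, if_neg he]
        rw [this]
        have h5 := h.ncard_add hn'
        have h6 : (({x | x ∈ A ∧ F^[n] x = x}.ncard : ℤ)) + {x | x ∈ A ∧ ι (F^[n] x) = x}.ncard =
            2 * {y | y ∈ B ∧ G^[n] y = y}.ncard := by exact_mod_cast h5
        linarith

end Pool.Agent.K9h8.Kum
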